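import Pool.Agent.Lib.MP_4ca46c_ag.Geo.Tens

/-!
# Ample classes, hard Lefschetz and the three conjectures
-/

set_option autoImplicit false

open CategoryTheory MonoidalCategory CartesianMonoidalCategory TensorProduct

namespace Pool.Agent.Lib.MP_4ca46c_ag.Geo

universe v u w

variable {K : Type w} [Field K] [CharZero K] {𝒱 : Type u} [Category.{v} 𝒱]
  [CartesianMonoidalCategory 𝒱]

/-- Ample classes, with the hard Lefschetz theorem. -/
structure Polarizations (W : WeilCohomology K 𝒱) where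
  /-- the classes of ample divisors (up to positive rational multiples) -/
  Amp : ∀ X, Set (W.H X)
  amp_alg : ∀ {X : 𝒱} {h : W.H X}, h ∈ Amp X → h ∈ W.Alg X 1
  amp_nonempty : ∀ X, (Amp X).Nonempty
  amp_tensor : ∀ {X Y : 𝒱} {h : W.H X} {h' : W.H Y}, h ∈ Amp X → h' ∈ Amp Y →
    W.tm h 1 + W.tm 1 h' ∈ Amp (X ⊗ Y)
  /-- hard Lefschetz -/
  hard : ∀ {X : 𝒱} {h : W.H X}, h ∈ Amp X → ∀ i j : ℕ, i + j = W.dim X →
    Set.BijOn (fun x => h ^ j * x) (W.gr X i) (W.gr X (i + 2 * j))

namespace WeilCohomology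

variable (W : WeilCohomology K 𝒱) {X Y Z : 𝒱}

/-- the class of the diagonal -/
noncomputable def diag (X : 𝒱) : W.H (X ⊗ X) := W.push (lift (𝟙 X) (𝟙 X)) 1

/-- the Künneth component in `H^i(X) ⊗ H^j(Y)` -/
noncomputable def kcomp (i j : ℕ) (u : W.H (X ⊗ Y)) : W.H (X ⊗ Y) :=
  W.kun X Y (TensorProduct.map (W.pi X i) (W.pi Y j) ((W.kun X Y).symm u))

/-- Conjecture C: the Künneth components of the diagonal are algebraic -/
def Kunneth (X : 𝒱) : Prop :=
  ∀ i j : ℕ, i + j = 2 * W.dim X → W.kcomp i j (W.diag X) ∈ W.Alg (X ⊗ X) (W.dim X)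

/-- The sign conjecture C⁺: the sum of the even Künneth components is algebraic -/
def Sign (X : 𝒱) : Prop :=
  ∑ i ∈ (Finset.range (2 * W.dim X + 1)).filter Even, W.kcomp i (2 * W.dim X - i) (W.diag X) ∈
    W.Alg (X ⊗ X) (W.dim X)

/-- Conjecture B: for `i ≤ dim X` the inverse of `h^{dim X-i} : H^i → H^{2 dim X-i}` is
algebraic -/
def Lefschetz (X : 𝒱) (h : W.H X) : Prop :=
  ∀ i j : ℕ, i + j = W.dim X → ∃ u ∈ W.Alg (X ⊗ X) i, ∀ x ∈ W.gr X i, W.op u (h ^ j * x) = x

theorem kcomp_eq (i j : ℕ) (u : W.H (X ⊗ Y)) :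
    W.kcomp i j u = W.tens (W.pi X i) (W.pi Y j) u := rfl

/-- the action of a Künneth component -/
theorem op_kcomp {i j k : ℕ} (h : j + k = 2 * W.dim Y) (u : W.H (X ⊗ Y)) :
    W.op (W.kcomp i j u) = W.pi X i ∘ₗ W.op u ∘ₗ W.pi Y k := by
  rw [kcomp_eq]
  refine W.ind_tm (P := fun u => W.op (W.tens (W.pi X i) (W.pi Y j) u) =
    W.pi X i ∘ₗ W.op u ∘ₗ W.pi Y k) u ?_ (fun a b => ?_) (fun u v hu hv => ?_)
  · rw [map_zero, op_zero, LinearMap.zero_comp, LinearMap.comp_zero]
  · rw [tens_tm]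
    refine W.hom_ext fun l x hx => ?_
    rw [op_tm, LinearMap.comp_apply, LinearMap.comp_apply, op_tm, map_smul]
    congr 1
    refine W.ind (P := fun b => W.tr Y (W.pi Y j b * x) = W.tr Y (b * W.pi Y k x)) b (by simp)
      (fun m b hb => ?_) (fun r s hr hs => by simp only [map_add, add_mul, hr, hs])
    by_cases h1 : m = j
    · subst h1
      rw [W.pi_same hb]
      by_cases h2 : l = k
      · subst h2
        rw [W.pi_same hx]
      · rw [W.pi_ne hx h2, mul_zero, map_zero]
        exact W.tr_gr (SetLike.mul_mem_graded hb hx) (by omega)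
    · rw [W.pi_ne hb h1, zero_mul, map_zero]
      by_cases h2 : l = k
      · subst h2
        rw [W.pi_same hx]
        exact (W.tr_gr (SetLike.mul_mem_graded hb hx) (by omega)).symm
      · rw [W.pi_ne hx h2, mul_zero, map_zero]
  · rw [map_add, op_add, op_add, hu, hv, LinearMap.add_comp, LinearMap.comp_add]

theorem op_diag_id : W.op (W.diag X) = LinearMap.id := by
  rw [diag, op_diag]
  ext x
  exact one_mul x

/-- the Künneth components of the diagonal act as the projectors -/
theorem op_kcomp_diag {i j : ℕ} (h : i + j = 2 * W.dim X) :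
    W.op (W.kcomp i j (W.diag X)) = W.pi X i := by
  rw [W.op_kcomp (k := i) (by omega), op_diag_id]
  refine W.hom_ext fun l x hx => ?_
  rw [LinearMap.comp_apply, LinearMap.comp_apply, LinearMap.id_apply, W.pi_same (W.pi_mem i x)]

theorem op_sum {ι : Type*} (s : Finset ι) (f : ι → W.H (X ⊗ Y)) :
    W.op (∑ i ∈ s, f i) = ∑ i ∈ s, W.op (f i) := by
  classical
  induction s using Finset.induction_on with
  | empty => rw [Finset.sum_empty, Finset.sum_empty, op_zero]
  | insert a s ha ih => rw [Finset.sum_insert ha, Finset.sum_insert ha, op_add, ih]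

theorem op_sum_diag : W.op (∑ i ∈ (Finset.range (2 * W.dim X + 1)).filter Even,
    W.kcomp i (2 * W.dim X - i) (W.diag X)) = W.even X := by
  rw [op_sum, even]
  refine Finset.sum_congr rfl fun i hi => ?_
  rw [Finset.mem_filter, Finset.mem_range] at hi
  exact W.op_kcomp_diag (by omega)

/-- the diagonal is the sum of its Künneth components -/
theorem sum_kcomp_diag : ∑ i ∈ Finset.range (2 * W.dim X + 1),
    W.kcomp i (2 * W.dim X - i) (W.diag X) = W.diag X := by
  refine W.op_inj ?_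
  rw [op_sum, op_diag_id]
  ext x
  rw [LinearMap.sum_apply]
  conv_rhs => rw [LinearMap.id_apply, ← W.sum_pi x]
  refine Finset.sum_congr rfl fun i hi => ?_
  rw [Finset.mem_range] at hi
  rw [W.op_kcomp_diag (by omega)]

theorem mem_cor_zero {f : W.H Y →ₗ[K] W.H X} :
    f ∈ W.Cor X Y 0 ↔ ∃ u ∈ W.Alg (X ⊗ Y) (W.dim Y), f = W.op u := by
  rw [mem_cor]
  constructor
  · rintro (rfl | ⟨c, u, hc, hu, rfl⟩)
    · exact ⟨0, AddSubgroup.zero_mem _, W.op_zero.symm⟩
    · have hc' : c = W.dim Y := by omega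
      subst hc'
      exact ⟨u, hu, rfl⟩
  · rintro ⟨u, hu, rfl⟩
    exact Or.inr ⟨W.dim Y, u, by omega, hu, rfl⟩

theorem op_mem_cor_zero {u : W.H (X ⊗ Y)} :
    W.op u ∈ W.Cor X Y 0 ↔ u ∈ W.Alg (X ⊗ Y) (W.dim Y) := by
  rw [mem_cor_zero]
  constructor
  · rintro ⟨v, hv, h⟩
    rwa [W.op_inj h]
  · exact fun h => ⟨u, h, rfl⟩

theorem kunneth_iff : W.Kunneth X ↔ ∀ i, W.pi X i ∈ W.Cor X X 0 := by
  constructor
  · intro h i
    by_cases hi : i ≤ 2 * W.dim X
    · have h1 := h i (2 * W.dim X - i) (by omega)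
      rw [← op_mem_cor_zero, W.op_kcomp_diag (by omega)] at h1
      exact h1
    · have h0 : W.pi X i = 0 := by
        ext x
        exact W.pi_top (by omega) x
      rw [h0]
      exact AddSubgroup.zero_mem _
  · intro h i j hij
    rw [← op_mem_cor_zero, W.op_kcomp_diag hij]
    exact h i

theorem sign_iff : W.Sign X ↔ W.even X ∈ W.Cor X X 0 := by
  rw [Sign, ← op_mem_cor_zero, op_sum_diag]

theorem Kunneth.sign {W : WeilCohomology K 𝒱} {X : 𝒱} (h : W.Kunneth X) : W.Sign X := by
  rw [W.sign_iff, even]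
  exact AddSubgroup.sum_mem _ fun i _ => W.kunneth_iff.1 h i

theorem sign_eps : W.Sign X → W.eps X ∈ W.Cor X X 0 := by
  intro h
  rw [eps_eq]
  have h1 := W.cor_rat (W.sign_iff.1 h) 2
  rw [Rat.cast_ofNat] at h1
  exact AddSubgroup.sub_mem _ h1 (W.cor_id X)

theorem lefschetz_iff {h : W.H X} : W.Lefschetz X h ↔ ∀ i j : ℕ, i + j = W.dim X →
    ∃ f ∈ W.Cor X X (-j), ∀ x ∈ W.gr X i, f (h ^ j * x) = x := by
  constructor
  · intro H i j hij
    obtain ⟨u, hu, h1⟩ := H i j hij
    exact ⟨W.op u, W.mem_cor.2 (Or.inr ⟨i, u, by omega, hu, rfl⟩), h1⟩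
  · intro H i j hij
    obtain ⟨f, hf, h1⟩ := H i j hij
    rcases W.mem_cor.1 hf with rfl | ⟨c, u, hc, hu, rfl⟩
    · exact ⟨0, AddSubgroup.zero_mem _, fun x hx => by rw [op_zero]; exact h1 x hx⟩
    · have hc' : c = i := by omega
      subst hc'
      exact ⟨u, hu, h1⟩

/-- multiplication by a class -/
theorem pow_gr {h : W.H X} (hh : h ∈ W.gr X 2) (j : ℕ) {i : ℕ} {x : W.H X} (hx : x ∈ W.gr X i) :
    h ^ j * x ∈ W.gr X (i + 2 * j) := by
  have h1 : h ^ j ∈ W.gr X (j • 2) := SetLike.pow_mem_graded j hh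
  have h2 := SetLike.mul_mem_graded h1 hx
  have h3 : j • 2 + i = i + 2 * j := by simp only [smul_eq_mul]; ring
  rwa [h3] at h2

/-- B implies C -/
theorem Lefschetz.kunneth {W : WeilCohomology K 𝒱} {X : 𝒱} {h : W.H X} (hh : h ∈ W.Alg X 1)
    (hard : ∀ i j : ℕ, i + j = W.dim X →
      Set.BijOn (fun x => h ^ j * x) (W.gr X i) (W.gr X (i + 2 * j)))
    (H : W.Lefschetz X h) : W.Kunneth X := by
  rw [lefschetz_iff] at H
  rw [kunneth_iff]
  have hh2 : h ∈ W.gr X 2 := W.alg_gr hh
  have hpow : ∀ j : ℕ, LinearMap.mulLeft K (h ^ j) ∈ W.Cor X X j := by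
    intro j
    have h1 : h ^ j ∈ W.Alg X j := by
      induction j with
      | zero => rw [pow_zero]; exact W.alg_one X
      | succ j ih => rw [pow_succ]; exact W.alg_mul ih hh
    exact W.cor_mul h1
  -- induction on `i`
  have key : ∀ i : ℕ, i ≤ W.dim X → W.pi X i ∈ W.Cor X X 0 ∧
      W.pi X (2 * W.dim X - i) ∈ W.Cor X X 0 := by
    intro i
    induction i using Nat.strong_induction_on with
    | _ i ih =>
      intro hi
      obtain ⟨j, hj⟩ : ∃ j, i + j = W.dim X := ⟨W.dim X - i, by omega⟩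
      obtain ⟨θ, hθ, hθ1⟩ := H i j hj
      have hP : LinearMap.id - ∑ k ∈ Finset.range i, W.pi X k ∈ W.Cor X X 0 :=
        AddSubgroup.sub_mem _ (W.cor_id X) (AddSubgroup.sum_mem _ fun k hk =>
          (ih k (Finset.mem_range.1 hk) (by have := Finset.mem_range.1 hk; omega)).1)
      have hQ : LinearMap.id - ∑ k ∈ Finset.range i, W.pi X (2 * W.dim X - k) ∈ W.Cor X X 0 :=
        AddSubgroup.sub_mem _ (W.cor_id X) (AddSubgroup.sum_mem _ fun k hk =>
          (ih k (Finset.mem_range.1 hk) (by have := Finset.mem_range.1 hk; omega)).2)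
      have hPv : ∀ (l : ℕ) (x : W.H X), x ∈ W.gr X l →
          (LinearMap.id - ∑ k ∈ Finset.range i, W.pi X k : W.H X →ₗ[K] W.H X) x = if l < i then 0 else x := by
        intro l x hx
        rw [LinearMap.sub_apply, LinearMap.id_apply, LinearMap.sum_apply]
        split_ifs with hl
        · rw [Finset.sum_eq_single_of_mem l (Finset.mem_range.2 hl)
            fun k _ hk => W.pi_ne hx (Ne.symm hk), W.pi_same hx, sub_self]
        · rw [Finset.sum_eq_zero fun k hk => W.pi_ne hx (by
            have := Finset.mem_range.1 hk; omega), sub_zero]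
      have hQv : ∀ (l : ℕ) (x : W.H X), x ∈ W.gr X l →
          (LinearMap.id - ∑ k ∈ Finset.range i, W.pi X (2 * W.dim X - k) :
            W.H X →ₗ[K] W.H X) x =
            if 2 * W.dim X - i < l then 0 else x := by
        intro l x hx
        rw [LinearMap.sub_apply, LinearMap.id_apply, LinearMap.sum_apply]
        split_ifs with hl
        · by_cases hl2 : 2 * W.dim X < l
          · rw [W.gr_top hx hl2]
            simp
          · rw [Finset.sum_eq_single_of_mem (2 * W.dim X - l) (Finset.mem_range.2 (by omega))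
              fun k hk1 hk => W.pi_ne hx (by have := Finset.mem_range.1 hk1; omega)]
            have h1 : 2 * W.dim X - (2 * W.dim X - l) = l := by omega
            rw [h1, W.pi_same hx, sub_self]
        · rw [Finset.sum_eq_zero fun k hk => W.pi_ne hx (by
            have := Finset.mem_range.1 hk; omega), sub_zero]
      have hu : W.pi X i = θ ∘ₗ (LinearMap.id - ∑ k ∈ Finset.range i, W.pi X (2 * W.dim X - k)) ∘ₗ
          LinearMap.mulLeft K (h ^ j) ∘ₗ (LinearMap.id - ∑ k ∈ Finset.range i, W.pi X k) := by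
        refine W.hom_ext fun l x hx => ?_
        rw [LinearMap.comp_apply, LinearMap.comp_apply, LinearMap.comp_apply, hPv l x hx]
        rcases lt_trichotomy l i with hl | hl | hl
        · rw [if_pos hl, map_zero, map_zero, map_zero, W.pi_ne hx (by omega)]
        · subst hl
          rw [if_neg (lt_irrefl _), LinearMap.mulLeft_apply,
            hQv _ _ (W.pow_gr hh2 j hx), if_neg (by omega), hθ1 x hx, W.pi_same hx]
        · rw [if_neg (by omega), LinearMap.mulLeft_apply,
            hQv _ _ (W.pow_gr hh2 j hx), if_pos (by omega), map_zero, W.pi_ne hx (by omega)]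
      have hpi : W.pi X i ∈ W.Cor X X 0 := by
        rw [hu]
        have h1 := W.cor_comp hθ (W.cor_comp hQ (W.cor_comp (hpow j) hP))
        have h2 : (-(j : ℤ)) + (0 + ((j : ℤ) + 0)) = 0 := by ring
        rwa [h2] at h1
      refine ⟨hpi, ?_⟩
      have h3 : W.pi X (2 * W.dim X - i) = LinearMap.mulLeft K (h ^ j) ∘ₗ W.pi X i ∘ₗ θ := by
        have e1 : 2 * W.dim X - i = i + 2 * j := by omega
        rw [e1]
        refine W.hom_ext fun l x hx => ?_
        rw [LinearMap.comp_apply, LinearMap.comp_apply, LinearMap.mulLeft_apply]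
        by_cases hl : l = i + 2 * j
        · subst hl
          obtain ⟨y, hy, rfl⟩ := (hard i j hj).2.2 hx
          show _ = h ^ j * W.pi X i (θ (h ^ j * y))
          rw [hθ1 y hy, W.pi_same hy, W.pi_same hx]
        · rw [W.pi_ne hx hl]
          by_cases hl2 : 2 * j ≤ l
          · have h4 : θ x ∈ W.gr X (l - 2 * j) := W.cor_gr hθ hx (by omega)
            rw [W.pi_ne h4 (by omega), mul_zero]
          · rw [W.cor_gr_zero hθ hx (by omega), map_zero, mul_zero]
      rw [h3]
      have h1 := W.cor_comp (hpow j) (W.cor_comp hpi hθ)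
      have h2 : (j : ℤ) + (0 + (-(j : ℤ))) = 0 := by ring
      rwa [h2] at h1
  intro i
  by_cases hi : i ≤ W.dim X
  · exact (key i hi).1
  · by_cases hi2 : i ≤ 2 * W.dim X
    · have h1 := (key (2 * W.dim X - i) (by omega)).2
      have h2 : 2 * W.dim X - (2 * W.dim X - i) = i := by omega
      rwa [h2] at h1
    · have h0 : W.pi X i = 0 := by
        ext x
        exact W.pi_top (by omega) x
      rw [h0]
      exact AddSubgroup.zero_mem _

end WeilCohomology

end Pool.Agent.Lib.MP_4ca46c_ag.Geo
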