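import Mathlib

/-!
# Weil cohomology theories in the sense of Kleiman

`𝒱` is the category of smooth projective irreducible varieties over an algebraically closed field
(`⊗` is the product of varieties, `𝟙_` the point), `K` the coefficient field (e.g. `ℚ_ℓ`).
-/

set_option autoImplicit false

open CategoryTheory MonoidalCategory CartesianMonoidalCategory TensorProduct

namespace Pool.Agent.Lib.MP_4ca46c_ag.Geo

universe v u w

/-- A Weil cohomology theory with algebraic classes (Kleiman, Algebraic cycles and the Weil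
conjectures, 1.2) on a category `𝒱` of varieties. -/
structure WeilCohomology (K : Type w) [Field K] [CharZero K] (𝒱 : Type u) [Category.{v} 𝒱]
    [CartesianMonoidalCategory 𝒱] where
  /-- the dimension -/
  dim : 𝒱 → ℕ
  dim_tensor : ∀ X Y, dim (X ⊗ Y) = dim X + dim Y
  /-- the total cohomology `⊕_i H^i(X)` -/
  H : 𝒱 → Type w
  [ring : ∀ X, Ring (H X)]
  [algebra : ∀ X, Algebra K (H X)]
  [finite : ∀ X, Module.Finite K (H X)]
  /-- the subspace `H^i(X)` -/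
  gr : ∀ X, ℕ → Submodule K (H X)
  [graded : ∀ X, GradedAlgebra (gr X)]
  /-- the cup product is graded commutative -/
  comm : ∀ {X : 𝒱} {i j : ℕ} {x y : H X}, x ∈ gr X i → y ∈ gr X j →
    x * y = (-1) ^ (i * j) * (y * x)
  /-- pull-back -/
  pull : ∀ {X Y : 𝒱}, (X ⟶ Y) → (H Y →ₐ[K] H X)
  pull_id : ∀ {X : 𝒱} (x : H X), pull (𝟙 X) x = x
  pull_comp : ∀ {X Y Z : 𝒱} (f : X ⟶ Y) (g : Y ⟶ Z) (z : H Z),
    pull (f ≫ g) z = pull f (pull g z)
  pull_gr : ∀ {X Y : 𝒱} (f : X ⟶ Y) {i : ℕ} {y : H Y}, y ∈ gr Y i → pull f y ∈ gr X i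
  /-- the trace map `H^{2 dim X}(X) → K`, extended by zero -/
  tr : ∀ X, H X →ₗ[K] K
  tr_gr : ∀ {X : 𝒱} {i : ℕ} {x : H X}, x ∈ gr X i → i ≠ 2 * dim X → tr X x = 0
  /-- Poincaré duality -/
  duality : ∀ {X : 𝒱} (x : H X), (∀ y, tr X (x * y) = 0) → x = 0
  /-- varieties are connected -/
  connected : ∀ {X : 𝒱} {x : H X}, x ∈ gr X 0 → ∃ a : K, x = algebraMap K (H X) a
  /-- the Künneth formula -/
  kunneth : ∀ X Y : 𝒱, Function.Bijective (TensorProduct.lift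
    ((LinearMap.mul K (H (X ⊗ Y))).compl₁₂ (pull (fst X Y)).toLinearMap
      (pull (snd X Y)).toLinearMap))
  tr_tensor : ∀ {X Y : 𝒱} (x : H X) (y : H Y),
    tr (X ⊗ Y) (pull (fst X Y) x * pull (snd X Y) y) = tr X x * tr Y y
  tr_unit : tr (𝟙_ 𝒱) 1 = 1
  /-- the base field is algebraically closed: there are rational points -/
  point : ∀ X : 𝒱, Nonempty (𝟙_ 𝒱 ⟶ X)
  /-- algebraic classes of codimension `c` with rational coefficients -/
  Alg : ∀ X, ℕ → AddSubgroup (H X)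
  alg_gr : ∀ {X : 𝒱} {c : ℕ} {x : H X}, x ∈ Alg X c → x ∈ gr X (2 * c)
  alg_rat : ∀ {X : 𝒱} {c : ℕ} {x : H X} (q : ℚ), x ∈ Alg X c → (q : K) • x ∈ Alg X c
  alg_one : ∀ X : 𝒱, (1 : H X) ∈ Alg X 0
  alg_mul : ∀ {X : 𝒱} {c d : ℕ} {x y : H X}, x ∈ Alg X c → y ∈ Alg X d → x * y ∈ Alg X (c + d)
  alg_pull : ∀ {X Y : 𝒱} (f : X ⟶ Y) {c : ℕ} {y : H Y}, y ∈ Alg Y c → pull f y ∈ Alg X c
  /-- push-forward: the class `z = f_* x` is defined by duality -/
  alg_push : ∀ {X Y : 𝒱} (f : X ⟶ Y) {c e : ℕ} {x : H X} {z : H Y}, x ∈ Alg X c →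
    c + dim Y = e + dim X → (∀ y, tr Y (z * y) = tr X (x * pull f y)) → z ∈ Alg Y e
  /-- the degree of a zero cycle is rational -/
  alg_tr : ∀ {X : 𝒱} {x : H X}, x ∈ Alg X (dim X) → ∃ q : ℚ, tr X x = q

end Pool.Agent.Lib.MP_4ca46c_ag.Geo
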