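import Pool.Agent.Lib.MP_4ca46c_ag.Geo.Seven

/-!
# From a partial inverse of the Lefschetz operator of `X × X` to the conjectures C and B for `X`
-/

set_option autoImplicit false

open CategoryTheory MonoidalCategory CartesianMonoidalCategory TensorProduct

namespace Pool.Agent.Lib.MP_4ca46c_ag.Geo

universe v u w

variable {K : Type w} [Field K] [CharZero K] {𝒱 : Type u} [Category.{v} 𝒱]
  [CartesianMonoidalCategory 𝒱]

open WeilCohomology

variable {W : WeilCohomology K 𝒱} {X : 𝒱}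

/-- the top cohomology is one-dimensional -/
theorem top_eq {x p : W.H X} (hp : p ∈ W.Alg X (W.dim X)) (hp1 : W.tr X p = 1)
    (hx : x ∈ W.gr X (2 * W.dim X)) : W.tr X x • p = x := by
  rw [← sub_eq_zero]
  refine W.duality _ fun y => ?_
  refine W.ind (P := fun y => W.tr X ((W.tr X x • p - x) * y) = 0) y (by simp)
    (fun j y hy => ?_) (fun r s hr hs => by simp only [mul_add, map_add, hr, hs, add_zero])
  by_cases hj : j = 0
  · subst hj
    obtain ⟨a, rfl⟩ := W.connected hy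
    rw [sub_mul, map_sub, smul_mul_assoc, map_smul, ← Algebra.commutes, ← Algebra.smul_def,
      ← Algebra.commutes, ← Algebra.smul_def, map_smul, map_smul, hp1]
    simp only [smul_eq_mul]
    ring
  · have h1 : W.tr X x • p - x ∈ W.gr X (2 * W.dim X) :=
      Submodule.sub_mem _ (Submodule.smul_mem _ _ (W.alg_gr hp)) hx
    exact W.tr_gr (SetLike.mul_mem_graded h1 hy) (by omega)

/-- the sign conjecture for `X` from a partial inverse on `X × X` -/
theorem sign_of_inverse {h : W.H X} (hh : h ∈ W.Alg X 1)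
    (injZ : ∀ (i : ℕ) (x : W.H (X ⊗ X)), i < W.dim (X ⊗ X) → x ∈ W.gr (X ⊗ X) i →
      (W.tm h 1 + W.tm 1 h) * x = 0 → x = 0)
    {w : W.H (X ⊗ X) →ₗ[K] W.H (X ⊗ X)}
    (hw : w ∈ W.Cor (X ⊗ X) (X ⊗ X) (-1))
    (hwH : ∀ (i : ℕ) (x : W.H (X ⊗ X)), x ∈ W.gr (X ⊗ X) i →
      (W.tm h 1 + W.tm 1 h) * w ((W.tm h 1 + W.tm 1 h) * x) =
        if Even i then (W.tm h 1 + W.tm 1 h) * x else 0) : W.Sign X := by
  set H := W.tm h 1 + W.tm 1 h with hH
  have hHA : H ∈ W.Alg (X ⊗ X) 1 := by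
    have h1 := W.tm_alg hh (W.alg_one X)
    have h2 := W.tm_alg (W.alg_one X) hh
    exact AddSubgroup.add_mem _ h1 h2
  -- the operator `w H`
  have he : w ∘ₗ LinearMap.mulLeft K H ∈ W.Cor (X ⊗ X) (X ⊗ X) 0 := by
    have h1 := W.cor_comp hw (W.cor_mul hHA)
    have h2 : (-1 : ℤ) + ((1 : ℕ) : ℤ) = 0 := by norm_num
    rwa [h2] at h1
  have hev : ∀ (i : ℕ) (x : W.H (X ⊗ X)), i < W.dim (X ⊗ X) → x ∈ W.gr (X ⊗ X) i →
      w (H * x) = if Even i then x else 0 := by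
    intro i x hi hx
    have h1 : w (H * x) ∈ W.gr (X ⊗ X) i := W.cor_gr he hx (by omega)
    have h2 := hwH i x hx
    split_ifs with hE
    · rw [if_pos hE] at h2
      rw [← sub_eq_zero]
      exact injZ i _ hi (Submodule.sub_mem _ h1 hx) (by rw [mul_sub, h2, sub_self])
    · rw [if_neg hE] at h2
      exact injZ i _ hi h1 h2
  -- restrict to `X × pt`
  obtain ⟨pt⟩ := W.point X
  obtain ⟨p, hp, hp1⟩ := W.exists_pt X
  set f : W.H X →ₗ[K] W.H X := (W.pull (lift (𝟙 X) (toUnit X ≫ pt))).toLinearMap ∘ₗ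
    (w ∘ₗ LinearMap.mulLeft K H) ∘ₗ (W.pull (fst X X)).toLinearMap with hf
  have hfA : f ∈ W.Cor X X 0 := by
    have h1 := W.cor_comp (W.cor_pull (lift (𝟙 X) (toUnit X ≫ pt)))
      (W.cor_comp he (W.cor_pull (fst X X)))
    have h2 : (0 : ℤ) + (0 + 0) = 0 := by norm_num
    rwa [h2] at h1
  have hfv : ∀ (i : ℕ) (x : W.H X), i < 2 * W.dim X → x ∈ W.gr X i →
      f x = if Even i then x else 0 := by
    intro i x hi hx
    show W.pull (lift (𝟙 X) (toUnit X ≫ pt)) (w (H * W.pull (fst X X) x)) = _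
    rw [hev i _ (by rw [W.dim_tensor]; omega) (W.pull_gr _ hx)]
    split_ifs
    · rw [← W.pull_comp, lift_fst, W.pull_id]
    · exact map_zero _
  -- the projector onto the top cohomology
  set q : W.H X →ₗ[K] W.H X := W.op (W.tm p 1) with hq
  have hqA : q ∈ W.Cor X X 0 :=
    W.mem_cor.2 (Or.inr ⟨W.dim X + 0, _, by push_cast; ring, W.tm_alg hp (W.alg_one X), rfl⟩)
  have hqv : ∀ x : W.H X, q x = W.tr X x • p := fun x => by rw [hq, op_tm, one_mul]
  rw [W.sign_iff]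
  have key : W.even X = f ∘ₗ (LinearMap.id - q) + q := by
    refine W.hom_ext fun i x hx => ?_
    rw [LinearMap.add_apply, LinearMap.comp_apply, LinearMap.sub_apply, LinearMap.id_apply]
    rcases lt_trichotomy i (2 * W.dim X) with hi | hi | hi
    · have h1 : q x = 0 := by rw [hqv, W.tr_gr hx (by omega), zero_smul]
      rw [h1, sub_zero, add_zero, hfv i x hi hx]
      split_ifs with hE
      · exact W.even_even hx hE
      · exact W.even_odd hx (Nat.not_even_iff_odd.1 hE)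
    · subst hi
      have h1 : q x = x := by rw [hqv, top_eq hp hp1 hx]
      rw [h1, sub_self, map_zero, zero_add]
      exact W.even_even hx (even_two_mul _)
    · rw [W.gr_top hx hi]
      simp only [map_zero, sub_self, add_zero]
  rw [key]
  have h1 := W.cor_comp hfA (AddSubgroup.sub_mem _ (W.cor_id X) hqA)
  rw [add_zero] at h1
  exact AddSubgroup.add_mem _ h1 hqA

/-- the data from a partial inverse -/
noncomputable def Data.ofInverse {h : W.H X} (hh : h ∈ W.Alg X 1)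
    (hardX : ∀ i j : ℕ, i + j = W.dim X →
      Set.BijOn (fun x => h ^ j * x) (W.gr X i) (W.gr X (i + 2 * j)))
    (injZ : ∀ (i : ℕ) (x : W.H (X ⊗ X)), i < W.dim (X ⊗ X) → x ∈ W.gr (X ⊗ X) i →
      (W.tm h 1 + W.tm 1 h) * x = 0 → x = 0)
    (surjZ : ∀ (i : ℕ) (x : W.H (X ⊗ X)), W.dim (X ⊗ X) ≤ i → x ∈ W.gr (X ⊗ X) (i + 2) →
      ∃ z ∈ W.gr (X ⊗ X) i, (W.tm h 1 + W.tm 1 h) * z = x)
    {w : W.H (X ⊗ X) →ₗ[K] W.H (X ⊗ X)}
    (hw : w ∈ W.Cor (X ⊗ X) (X ⊗ X) (-1))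
    (hwH : ∀ (i : ℕ) (x : W.H (X ⊗ X)), x ∈ W.gr (X ⊗ X) i →
      (W.tm h 1 + W.tm 1 h) * w ((W.tm h 1 + W.tm 1 h) * x) =
        if Even i then (W.tm h 1 + W.tm 1 h) * x else 0) : Data W X where
  h := h
  h_alg := hh
  hardX := hardX
  injZ := injZ
  surjZ := surjZ
  sign := sign_of_inverse hh injZ hw hwH
  w := w
  w_cor := hw
  w_even := fun i x hi hx => by rw [hwH i x hx, if_pos hi]

/-- conjectures C and B for `X` from a partial inverse of the Lefschetz operator of `X × X` -/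
theorem kunneth_lefschetz_of_inverse {h : W.H X} (hh : h ∈ W.Alg X 1)
    (hardX : ∀ i j : ℕ, i + j = W.dim X →
      Set.BijOn (fun x => h ^ j * x) (W.gr X i) (W.gr X (i + 2 * j)))
    (injZ : ∀ (i : ℕ) (x : W.H (X ⊗ X)), i < W.dim (X ⊗ X) → x ∈ W.gr (X ⊗ X) i →
      (W.tm h 1 + W.tm 1 h) * x = 0 → x = 0)
    (surjZ : ∀ (i : ℕ) (x : W.H (X ⊗ X)), W.dim (X ⊗ X) ≤ i → x ∈ W.gr (X ⊗ X) (i + 2) →
      ∃ z ∈ W.gr (X ⊗ X) i, (W.tm h 1 + W.tm 1 h) * z = x)
    {w : W.H (X ⊗ X) →ₗ[K] W.H (X ⊗ X)}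
    (hw : w ∈ W.Cor (X ⊗ X) (X ⊗ X) (-1))
    (hwH : ∀ (i : ℕ) (x : W.H (X ⊗ X)), x ∈ W.gr (X ⊗ X) i →
      (W.tm h 1 + W.tm 1 h) * w ((W.tm h 1 + W.tm 1 h) * x) =
        if Even i then (W.tm h 1 + W.tm 1 h) * x else 0) : W.Kunneth X ∧ W.Lefschetz X h :=
  ⟨(Data.ofInverse hh hardX injZ surjZ hw hwH).kunneth,
    (Data.ofInverse hh hardX injZ surjZ hw hwH).lefschetz⟩

end Pool.Agent.Lib.MP_4ca46c_ag.Geo
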