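import Pool.Agent.Lib.MP_4ca46c_ag.Geo.Hard

/-!
# Generic hyperplane sections and cycles on their squares
-/

set_option autoImplicit false

open CategoryTheory MonoidalCategory CartesianMonoidalCategory TensorProduct

namespace Pool.Agent.Lib.MP_4ca46c_ag.Geo

universe v u w v' u' t

namespace WeilCohomology

variable {K : Type w} [Field K] [CharZero K] {𝒱 : Type u} [Category.{v} 𝒱]
  [CartesianMonoidalCategory 𝒱] (W : WeilCohomology K 𝒱) {X Y Z Z' : 𝒱}

/-- projection formula -/
theorem push_pull (f : X ⟶ Y) (y : W.H Y) : W.push f (W.pull f y) = W.push f 1 * y := by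
  refine W.push_eq f _ _ fun z => ?_
  rw [mul_assoc, push_spec, one_mul, map_mul]

theorem push_gr (f : X ⟶ Y) {i j : ℕ} {x : W.H X} (hx : x ∈ W.gr X i)
    (h : j + 2 * W.dim X = i + 2 * W.dim Y) : W.push f x ∈ W.gr Y j := by
  refine W.mem_gr_of_tr fun l y hy hl => ?_
  rw [push_spec]
  exact W.tr_gr (SetLike.mul_mem_graded hx (W.pull_gr _ hy)) (by omega)

/-- the other side of the projection formula -/
theorem push_spec' (f : X ⟶ Y) (x : W.H X) (y : W.H Y) :
    W.tr Y (y * W.push f x) = W.tr X (W.pull f y * x) := by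
  refine W.ind (P := fun x => W.tr Y (y * W.push f x) = W.tr X (W.pull f y * x)) x (by simp)
    (fun i x hx => ?_) (fun r s hr hs => by simp only [mul_add, map_add, hr, hs])
  refine W.ind (P := fun y => W.tr Y (y * W.push f x) = W.tr X (W.pull f y * x)) y (by simp)
    (fun j y hy => ?_) (fun r s hr hs => by simp only [add_mul, map_add, hr, hs])
  by_cases h : j + i = 2 * W.dim X
  · by_cases h2 : 2 * W.dim X ≤ i + 2 * W.dim Y
    · have h3 : W.push f x ∈ W.gr Y (i + 2 * W.dim Y - 2 * W.dim X) := W.push_gr f hx (by omega)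
      rw [W.tr_comm hy h3, W.tr_comm (W.pull_gr f hy) hx, push_spec]
      congr 1
      have h4 : j * (i + 2 * W.dim Y - 2 * W.dim X) + 2 * (j * W.dim X) =
          j * i + 2 * (j * W.dim Y) := by
        obtain ⟨n, hn⟩ : ∃ n, i + 2 * W.dim Y = n + 2 * W.dim X := ⟨_, (Nat.sub_add_cancel h2).symm⟩
        rw [hn, Nat.add_sub_cancel]
        have : j * (i + 2 * W.dim Y) = j * (n + 2 * W.dim X) := by rw [hn]
        nlinarith [this]
      have h5 : Even (j * (i + 2 * W.dim Y - 2 * W.dim X)) ↔ Even (j * i) := by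
        have h6 := congrArg Even h4
        rw [eq_iff_iff, Nat.even_add, Nat.even_add] at h6
        have e1 : Even (2 * (j * W.dim X)) := even_two_mul _
        have e2 : Even (2 * (j * W.dim Y)) := even_two_mul _
        tauto
      rcases Nat.even_or_odd (j * i) with h6 | h6
      · rw [h6.neg_one_pow, (h5.2 h6).neg_one_pow]
      · have h7 : Odd (j * (i + 2 * W.dim Y - 2 * W.dim X)) := by
          rw [← Nat.not_even_iff_odd] at h6 ⊢
          exact fun h8 => h6 (h5.1 h8)
        rw [h6.neg_one_pow, h7.neg_one_pow]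
    · have h3 : W.push f x = 0 := by
        refine W.duality _ fun z => ?_
        refine W.ind (P := fun z => W.tr Y (W.push f x * z) = 0) z (by simp) (fun l z hz => ?_)
          (fun r s hr hs => by simp only [mul_add, map_add, hr, hs, add_zero])
        rw [push_spec]
        by_cases h4 : 2 * W.dim Y < l
        · rw [W.gr_top hz h4, map_zero, mul_zero, map_zero]
        · exact W.tr_gr (SetLike.mul_mem_graded hx (W.pull_gr _ hz)) (by omega)
      have h5 := W.push_spec f x y
      rw [h3, zero_mul, map_zero] at h5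
      rw [h3, mul_zero, map_zero, W.tr_comm (W.pull_gr f hy) hx, ← h5, mul_zero]
  · rw [W.tr_gr (SetLike.mul_mem_graded (W.pull_gr f hy) hx) h]
    by_cases h2 : 2 * W.dim X ≤ i + 2 * W.dim Y
    · have h3 : W.push f x ∈ W.gr Y (i + 2 * W.dim Y - 2 * W.dim X) := W.push_gr f hx (by omega)
      exact W.tr_gr (SetLike.mul_mem_graded hy h3) (by omega)
    · have h3 : W.push f x = 0 := by
        refine W.duality _ fun z => ?_
        refine W.ind (P := fun z => W.tr Y (W.push f x * z) = 0) z (by simp) (fun l z hz => ?_)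
          (fun r s hr hs => by simp only [mul_add, map_add, hr, hs, add_zero])
        rw [push_spec]
        by_cases h4 : 2 * W.dim Y < l
        · rw [W.gr_top hz h4, map_zero, mul_zero, map_zero]
        · exact W.tr_gr (SetLike.mul_mem_graded hx (W.pull_gr _ hz)) (by omega)
      rw [h3, mul_zero, map_zero]

/-- `f × g` -/
abbrev prodMap (f : X ⟶ Z) (g : Y ⟶ Z') : X ⊗ Y ⟶ Z ⊗ Z' :=
  lift (fst X Y ≫ f) (snd X Y ≫ g)

theorem pull_prodMap (f : X ⟶ Z) (g : Y ⟶ Z') (a : W.H Z) (b : W.H Z') :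
    W.pull (prodMap f g) (W.tm a b) = W.tm (W.pull f a) (W.pull g b) := by
  rw [pull_tm, W.pull_comp, W.pull_comp]
  rfl

/-- the action of the pull-back of a correspondence -/
theorem op_pull (f : X ⟶ Z) (g : Y ⟶ Z') (u : W.H (Z ⊗ Z')) :
    W.op (W.pull (prodMap f g) u) = (W.pull f).toLinearMap ∘ₗ W.op u ∘ₗ W.push g := by
  refine W.ind_tm (P := fun u => W.op (W.pull (prodMap f g) u) =
    (W.pull f).toLinearMap ∘ₗ W.op u ∘ₗ W.push g) u ?_ (fun a b => ?_) (fun u v hu hv => ?_)
  · rw [map_zero, op_zero, op_zero, LinearMap.zero_comp, LinearMap.comp_zero]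
  · rw [pull_prodMap]
    ext y
    rw [op_tm, LinearMap.comp_apply, LinearMap.comp_apply, op_tm, map_smul, push_spec']
    rfl
  · rw [map_add, op_add, op_add, hu, hv, LinearMap.add_comp, LinearMap.comp_add]

/-- the action of the conjugate of a correspondence by an automorphism preserving traces -/
theorem op_conj (σ : W.H X ≃ₐ[K] W.H X) (hσ : ∀ x, W.tr X (σ x) = W.tr X x) (u : W.H (X ⊗ X)) :
    W.op (W.tens σ.toLinearMap σ.toLinearMap u) = σ.toLinearMap ∘ₗ W.op u ∘ₗ
      σ.symm.toLinearMap := by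
  refine W.ind_tm (P := fun u => W.op (W.tens σ.toLinearMap σ.toLinearMap u) =
    σ.toLinearMap ∘ₗ W.op u ∘ₗ σ.symm.toLinearMap) u ?_ (fun a b => ?_) (fun u v hu hv => ?_)
  · rw [map_zero, op_zero, LinearMap.zero_comp, LinearMap.comp_zero]
  · rw [tens_tm]
    ext y
    rw [op_tm, LinearMap.comp_apply, LinearMap.comp_apply, op_tm, map_smul]
    congr 1
    show W.tr X (σ b * y) = W.tr X (b * σ.symm y)
    rw [← hσ (b * σ.symm y), map_mul σ, AlgEquiv.apply_symm_apply]
  · rw [map_add, op_add, op_add, hu, hv, LinearMap.add_comp, LinearMap.comp_add]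

end WeilCohomology

/-- Chow rings with rational coefficients of regular schemes (Fulton, Intersection theory). -/
structure ChowTheory (𝒮 : Type u') [Category.{v'} 𝒮] where
  /-- the Chow ring `⊕_c CH^c(S)_ℚ` -/
  CH : 𝒮 → Type t
  [ring : ∀ S, CommRing (CH S)]
  [algebra : ∀ S, Algebra ℚ (CH S)]
  /-- the subspace `CH^c(S)_ℚ` -/
  gr : ∀ S, ℕ → Submodule ℚ (CH S)
  [graded : ∀ S, SetLike.GradedMonoid (gr S)]
  /-- pull-back -/
  pull : ∀ {S S' : 𝒮}, (S ⟶ S') → (CH S' →ₐ[ℚ] CH S)
  pull_id : ∀ {S : 𝒮} (a : CH S), pull (𝟙 S) a = a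
  pull_comp : ∀ {S S' S'' : 𝒮} (f : S ⟶ S') (g : S' ⟶ S'') (a : CH S''),
    pull (f ≫ g) a = pull f (pull g a)
  pull_gr : ∀ {S S' : 𝒮} (f : S ⟶ S') {c : ℕ} {a : CH S'}, a ∈ gr S' c → pull f a ∈ gr S c

attribute [instance] ChowTheory.ring ChowTheory.algebra ChowTheory.graded

/-- The cycle class map of a Weil cohomology theory. -/
structure CycleMap {K : Type w} [Field K] [CharZero K] {𝒱 : Type u} [Category.{v} 𝒱]
    [CartesianMonoidalCategory 𝒱] {𝒮 : Type u'} [Category.{v'} 𝒮] (T : ChowTheory.{v', u', t} 𝒮)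
    (W : WeilCohomology K 𝒱) where
  /-- the scheme underlying a variety -/
  sch : 𝒱 ⥤ 𝒮
  /-- the cycle class -/
  cl : ∀ X, T.CH (sch.obj X) →+ W.H X
  /-- algebraic classes are the classes of cycles with rational coefficients -/
  cl_alg : ∀ {X : 𝒱} {c : ℕ} {x : W.H X}, x ∈ W.Alg X c ↔ ∃ a ∈ T.gr (sch.obj X) c, cl X a = x
  cl_pull : ∀ {X Y : 𝒱} (f : X ⟶ Y) (a : T.CH (sch.obj Y)),
    cl X (T.pull (sch.map f) a) = W.pull f (cl Y a)

end Pool.Agent.Lib.MP_4ca46c_ag.Geo
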