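import Pool.Agent.Lib.MP_4ca46c_ag.Geo.Five

/-!
# Rational coefficients
-/

set_option autoImplicit false

open CategoryTheory MonoidalCategory CartesianMonoidalCategory TensorProduct

namespace Pool.Agent.Lib.MP_4ca46c_ag.Geo

universe v u w

variable {K : Type w} [Field K] [CharZero K] {𝒱 : Type u} [Category.{v} 𝒱]
  [CartesianMonoidalCategory 𝒱]

/-- a rational retraction of the coefficient field -/
theorem exists_retraction (K : Type*) [Field K] [CharZero K] :
    ∃ φ : K →+ ℚ, ∀ (q : ℚ) (a : K), φ ((q : K) * a) = q * φ a ∧ φ (q : K) = q := by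
  obtain ⟨φ, hφ⟩ := LinearMap.exists_leftInverse_of_injective (Algebra.linearMap ℚ K)
    (LinearMap.ker_eq_bot.2 (algebraMap ℚ K).injective)
  refine ⟨φ.toAddMonoidHom, fun q a => ⟨?_, ?_⟩⟩
  · have h1 : (q : K) * a = q • a := by rw [Algebra.smul_def]; rfl
    rw [h1]
    exact φ.map_smul q a
  · have h1 := LinearMap.congr_fun hφ q
    exact h1

namespace WeilCohomology

variable {W : WeilCohomology K 𝒱} {X : 𝒱}

theorem A_mul {r s : ℤ} {f g : W.E X} (hf : f ∈ W.Cor X X r) (hg : g ∈ W.Cor X X s) :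
    f * g ∈ W.Cor X X (r + s) := W.cor_comp hf hg

theorem A_one : (1 : W.E X) ∈ W.Cor X X 0 := W.cor_id X

theorem A_cast {r s : ℤ} {f : W.E X} (hf : f ∈ W.Cor X X r) (h : r = s) : f ∈ W.Cor X X s := h ▸ hf

theorem A_pow {f : W.E X} (hf : f ∈ W.Cor X X 0) (k : ℕ) : f ^ k ∈ W.Cor X X 0 := by
  induction k with
  | zero => rw [pow_zero]; exact A_one
  | succ k ih =>
    rw [pow_succ]
    exact A_cast (A_mul ih hf) (by ring)

theorem A_L_pow {h : W.H X} (hh : h ∈ W.Alg X 1) (j : ℕ) :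
    (LinearMap.mulLeft K h : W.E X) ^ j ∈ W.Cor X X j := by
  induction j with
  | zero => rw [pow_zero]; exact A_cast A_one (by simp)
  | succ j ih =>
    rw [pow_succ]
    exact A_cast (A_mul ih (W.cor_mul hh)) (by push_cast; ring)

/-- traces of algebraic correspondences supported on one part are rational -/
theorem t_rat {i : ℕ} {f : W.E X} (hf : f ∈ W.Cor X X 0) (hfi : f * W.pi X i = f) :
    ∃ q : ℚ, W.t X f = q := by
  obtain ⟨q, hq⟩ := W.trace_eps_rat hf
  have h1 : f * (W.eps X : W.E X) = ((-1 : K) ^ i) • f := by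
    have h2 : (W.pi X i : W.E X) * (W.eps X : W.E X) = ((-1 : K) ^ i) • W.pi X i := by
      refine W.hom_ext fun l x hx => ?_
      rw [Module.End.mul_apply, W.eps_gr hx, map_smul, LinearMap.smul_apply]
      by_cases hl : l = i
      · rw [hl]
      · rw [W.pi_ne hx hl, smul_zero, smul_zero]
    conv_lhs => rw [← hfi, mul_assoc, h2, mul_smul_comm, hfi]
  have h2 : W.t X (f * (W.eps X : W.E X)) = q := hq
  rw [h1, map_smul, smul_eq_mul] at h2
  refine ⟨(-1) ^ i * q, ?_⟩
  rw [Rat.cast_mul, Rat.cast_pow, Rat.cast_neg, Rat.cast_one, ← h2, ← mul_assoc, ← pow_add,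
    Even.neg_one_pow ⟨i, rfl⟩, one_mul]

/-- the trace of a projector is a natural number -/
theorem t_pi (i : ℕ) : ∃ q : ℚ, W.t X (W.pi X i) = q := by
  have h1 : IsIdempotentElem (W.pi X i : W.E X) := pi_mul_self i
  have h2 := (LinearMap.IsIdempotentElem.isProj_range _ h1).trace
  exact ⟨_, by rw [t, h2, Rat.cast_natCast]⟩

end WeilCohomology

open WeilCohomology

variable {W : WeilCohomology K 𝒱} {X : 𝒱}

/-- descent of the coefficients for one part -/
theorem descend {i j : ℕ} {T : W.E X} (hT : T ∈ W.Cor X X j) (hTi : T * W.pi X i = T)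
    {g : W.E X} (hg : g ∈ W.R X (-j))
    (hgT : g * T = W.pi X i) :
    W.pi X i ∈ W.Cor X X 0 ∧ ∃ θ ∈ W.Cor X X (-j), θ * T = W.pi X i := by
  classical
  obtain ⟨φ, hφ⟩ := exists_retraction K
  have hφ1 : ∀ q : ℚ, φ (q : K) = q := fun q => (hφ q 0).2
  obtain ⟨l, hl⟩ := (Finsupp.mem_span_iff_linearCombination K _ g).1 hg
  rw [Finsupp.linearCombination_apply, Finsupp.sum] at hl
  -- products with `T`
  have hkT : ∀ k : (W.Cor X X (-j) : Set (W.E X)), (k : W.E X) * T ∈ W.Cor X X 0 :=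
    fun k => A_cast (A_mul k.2 hT) (by ring)
  have hrat : ∀ (k : (W.Cor X X (-j) : Set (W.E X))) (b : W.E X), b ∈ W.Cor X X 0 →
      ∃ q : ℚ, W.t X (k * T * b) = q := by
    intro k b hb
    refine t_rat (i := i) (A_cast (A_mul (hkT k) hb) (by ring)) ?_
    rw [mul_assoc, ← pi_comm (cor_le hb), ← mul_assoc, mul_assoc _ T, hTi]
  set g' : W.E X := ∑ k ∈ l.support, ((φ (l k) : ℚ) : K) • (k : W.E X) with hg'
  have hg'A : g' ∈ W.Cor X X (-j) := AddSubgroup.sum_mem _ fun k _ => W.cor_rat k.2 _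
  have hkey : ∀ b ∈ W.Cor X X 0, W.t X (g' * T * b) = (φ (W.t X (W.pi X i * b)) : ℚ) := by
    intro b hb
    choose q hq using fun k => hrat k b hb
    have e1 : W.t X (g' * T * b) = ∑ k ∈ l.support, ((φ (l k) * q k : ℚ) : K) := by
      rw [hg', Finset.sum_mul, Finset.sum_mul, map_sum]
      refine Finset.sum_congr rfl fun k _ => ?_
      rw [smul_mul_assoc, smul_mul_assoc, map_smul, hq, smul_eq_mul, Rat.cast_mul]
    have e2 : W.t X (W.pi X i * b) = ∑ k ∈ l.support, ((q k : ℚ) : K) * l k := by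
      rw [← hgT, ← hl, Finset.sum_mul, Finset.sum_mul, map_sum]
      refine Finset.sum_congr rfl fun k _ => ?_
      rw [smul_mul_assoc, smul_mul_assoc, map_smul, hq, smul_eq_mul, mul_comm]
    rw [e1, e2, map_sum, Rat.cast_sum]
    refine Finset.sum_congr rfl fun k _ => ?_
    rw [(hφ (q k) (l k)).1, mul_comm]
  -- the rational approximation
  have hu : g' * T ∈ W.Cor X X 0 := A_cast (A_mul hg'A hT) (by ring)
  generalize hu' : g' * T = u at hu hkey
  have hui : u * W.pi X i = u := by rw [← hu', mul_assoc, hTi]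
  have hiu : W.pi X i * u = u := by rw [pi_comm (cor_le hu), hui]
  set ν := W.pi X i - u with hν
  have hνi : ν * W.pi X i = ν := by rw [hν, sub_mul, pi_mul_self, hui]
  have hiν : W.pi X i * ν = ν := by rw [hν, mul_sub, pi_mul_self, hiu]
  have ht1 : W.t X ν = 0 := by
    have h1 := hkey 1 A_one
    rw [mul_one, mul_one] at h1
    obtain ⟨q, hq⟩ := t_pi (W := W) (X := X) i
    rw [hq, hφ1] at h1
    rw [hν, map_sub, hq, h1, sub_self]
  have ht2 : ∀ y ∈ W.Cor X X 0, y * W.pi X i = y → W.t X (ν * y) = 0 := by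
    intro y hy hyi
    have h1 := hkey y hy
    have h2 : W.pi X i * y = y := by rw [pi_comm (cor_le hy), hyi]
    obtain ⟨q, hq⟩ := t_rat hy hyi
    rw [h2, hq, hφ1] at h1
    rw [hν, sub_mul, map_sub, h2, hq, h1, sub_self]
  -- powers
  have hpow : ∀ m : ℕ, ∃ (q : ℚ) (y : W.E X), y ∈ W.Cor X X 0 ∧ y * W.pi X i = y ∧
      ν ^ (m + 1) = (q : K) • W.pi X i + y := by
    intro m
    induction m with
    | zero =>
      refine ⟨1, 0 - u, AddSubgroup.sub_mem _ (AddSubgroup.zero_mem _) hu,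
        by rw [sub_mul, zero_mul, hui], ?_⟩
      rw [zero_add, pow_one, Rat.cast_one, one_smul, hν]
      abel
    | succ m ih =>
      obtain ⟨q, y, hy, hyi, h1⟩ := ih
      refine ⟨q, y - u * y - (q : K) • u, AddSubgroup.sub_mem _ (AddSubgroup.sub_mem _ hy
        (A_cast (A_mul hu hy) (by ring))) (W.cor_rat hu q), ?_, ?_⟩
      · rw [sub_mul, smul_mul_assoc, hui, sub_mul, mul_assoc, hyi]
      · have h2 : W.pi X i * y = y := by rw [pi_comm (cor_le hy), hyi]
        rw [pow_succ', h1, mul_add, mul_smul_comm, hνi, hν, sub_mul, h2, smul_sub]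
        abel
  have hnil : IsNilpotent ν := by
    refine isNilpotent_of_trace_pow ν fun m hm => ?_
    obtain ⟨m, rfl⟩ := Nat.exists_eq_succ_of_ne_zero hm.ne'
    show W.t X (ν ^ (m + 1)) = 0
    rcases m with _ | m
    · rw [zero_add, pow_one]
      exact ht1
    · obtain ⟨q, y, hy, hyi, h1⟩ := hpow m
      rw [pow_succ', h1, mul_add, mul_smul_comm, hνi, map_add, map_smul, ht1, ht2 y hy hyi,
        smul_zero, add_zero]
  obtain ⟨M, hM⟩ := hnil
  have hM1 : ν ^ (M + 1) = 0 := by rw [pow_succ, hM, zero_mul]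
  have hkill : ∀ m : ℕ, (1 - u) ^ (m + 1) = (1 - W.pi X i) + ν ^ (m + 1) := by
    intro m
    have h0 : 1 - u = (1 - W.pi X i) + ν := by rw [hν]; abel
    have h1 : (1 - W.pi X i) * ν = 0 := by rw [sub_mul, one_mul, hiν, sub_self]
    have h2 : ν * (1 - W.pi X i) = 0 := by rw [mul_sub, mul_one, hνi, sub_self]
    have h3 : (1 - W.pi X i : W.E X) * (1 - W.pi X i) = 1 - W.pi X i := by
      rw [sub_mul, one_mul, mul_sub, mul_one, pi_mul_self, sub_self, sub_zero]
    have h4 : ∀ m : ℕ, (1 - W.pi X i : W.E X) * ν ^ (m + 1) = 0 := by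
      intro m
      rw [pow_succ', ← mul_assoc, h1, zero_mul]
    induction m with
    | zero => rw [zero_add, pow_one, pow_one, h0]
    | succ m ih =>
      rw [pow_succ', ih, h0, add_mul, mul_add, mul_add, h3, h4, h2, zero_add, add_zero, ← pow_succ']
  have hpi : W.pi X i = 1 - (1 - u) ^ (M + 1) := by
    rw [hkill, hM1, add_zero, sub_sub_cancel]
  have hA : (1 - u) ∈ W.Cor X X 0 := AddSubgroup.sub_mem _ A_one hu
  refine ⟨?_, (∑ k ∈ Finset.range (M + 1), (1 - u) ^ k) * g', ?_, ?_⟩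
  · rw [hpi]
    exact AddSubgroup.sub_mem _ A_one (A_pow hA _)
  · exact A_cast (A_mul (AddSubgroup.sum_mem _ fun k _ => A_pow hA k) hg'A) (by ring)
  · rw [mul_assoc, hu', hpi]
    have h2 := geom_sum_mul_neg (1 - u) (M + 1)
    rw [sub_sub_cancel] at h2
    exact h2

end Pool.Agent.Lib.MP_4ca46c_ag.Geo
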