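import Pool.Agent.Lib.MP_4ca46c_ag.Geo.Assemble
import Pool.Agent.Lib.MP_4ca46c_ag.Sign.Inj
import Pool.Agent.Lib.MP_4ca46c_ag.Sign.Surj
import Pool.Agent.Lib.MP_4ca46c_ag.Sign.Prim
import Pool.Agent.Lib.MP_4ca46c_ag.Sign.Lam
import Pool.Agent.Lib.MP_4ca46c_ag.Sign.Ind
import Pool.Agent.Lib.MP_4ca46c_ag.Sign.BC

/-!
# Hard Lefschetz for `X × X`, and the operator `Λ`
-/

set_option autoImplicit false

open CategoryTheory MonoidalCategory CartesianMonoidalCategory TensorProduct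

namespace Pool.Agent.Lib.MP_4ca46c_ag.Geo

universe v u

variable {K : Type} [Field K] [CharZero K] {𝒱 : Type u} [Category.{v} 𝒱]
  [CartesianMonoidalCategory 𝒱]

open WeilCohomology Sign

variable {W : WeilCohomology K 𝒱} {X : 𝒱}

/-- the projectors, indexed by integers -/
noncomputable def pr (W : WeilCohomology K 𝒱) (X : 𝒱) (i : ℤ) : W.E X :=
  if 0 ≤ i then W.pi X i.toNat else 0

theorem pr_nat (i : ℕ) : pr W X i = W.pi X i := by
  rw [pr, if_pos (Int.natCast_nonneg i), Int.toNat_natCast]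

theorem pr_neg {i : ℤ} (hi : i < 0) : pr W X i = 0 := by rw [pr, if_neg (by omega)]

theorem mem_iff_pr {i : ℕ} {x : W.H X} : x ∈ W.gr X i ↔ pr W X i x = x := by
  rw [pr_nat]
  exact ⟨W.pi_same, fun h => h ▸ W.pi_mem i x⟩

theorem R_pr {r : ℤ} {f : W.E X} (hf : f ∈ W.R X r) (k : ℤ) :
    f * pr W X k = pr W X (k + 2 * r) * f := by
  by_cases hk : 0 ≤ k
  · obtain ⟨i, rfl⟩ := Int.eq_ofNat_of_zero_le hk
    rw [pr_nat]
    by_cases h2 : 0 ≤ (i : ℤ) + 2 * r
    · obtain ⟨m, hm⟩ := Int.eq_ofNat_of_zero_le h2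
      rw [hm, pr_nat]
      exact (R_pi hf (by rw [← hm])).symm
    · rw [pr_neg (by omega), zero_mul]
      refine LinearMap.ext fun x => ?_
      exact R_gr_zero hf (W.pi_mem i x) (by omega)
  · rw [pr_neg (by omega), mul_zero]
    by_cases h2 : 0 ≤ k + 2 * r
    · obtain ⟨m, hm⟩ := Int.eq_ofNat_of_zero_le h2
      rw [hm, pr_nat]
      exact (R_pi_zero hf (by omega)).symm
    · rw [pr_neg (by omega), zero_mul]

theorem sum_Icc_pr (W : WeilCohomology K 𝒱) (X : 𝒱) {M : Type*} [AddCommMonoid M]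
    (F : ℤ → M) (n : ℕ) : ∑ i ∈ Finset.Icc (0 : ℤ) (2 * n), F i =
      ∑ i ∈ Finset.range (2 * n + 1), F i := by
  refine (Finset.sum_bij (fun (i : ℕ) _ => (i : ℤ)) (fun i hi => ?_) (fun i _ j _ h => ?_)
    (fun i hi => ?_) (fun i _ => rfl)).symm
  · rw [Finset.mem_range] at hi
    rw [Finset.mem_Icc]
    omega
  · exact_mod_cast h
  · rw [Finset.mem_Icc] at hi
    exact ⟨i.toNat, Finset.mem_range.2 (by omega), by omega⟩

/-- the Lefschetz module of `X` -/
theorem lefMod {h : W.H X} (hh : h ∈ W.Alg X 1) (hardX : ∀ i j : ℕ, i + j = W.dim X →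
    Set.BijOn (fun x => h ^ j * x) (W.gr X i) (W.gr X (i + 2 * j))) :
    LefMod (W.dim X) (pr W X) (LinearMap.mulLeft K h : W.E X) where
  pr_mul i j := by
    by_cases hi : 0 ≤ i
    · obtain ⟨a, rfl⟩ := Int.eq_ofNat_of_zero_le hi
      by_cases hj : 0 ≤ j
      · obtain ⟨b, rfl⟩ := Int.eq_ofNat_of_zero_le hj
        rw [pr_nat, pr_nat]
        split_ifs with hab
        · have : a = b := by exact_mod_cast hab
          subst this
          exact pi_mul_self a
        · exact pi_mul_ne (fun h => hab (by rw [h]))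
      · rw [pr_neg (by omega) (i := j), mul_zero, if_neg (by omega)]
    · rw [pr_neg (by omega) (i := i), zero_mul]
      split_ifs <;> rfl
  out i hi := by
    rcases hi with hi | hi
    · exact pr_neg hi
    · obtain ⟨a, rfl⟩ := Int.eq_ofNat_of_zero_le (show 0 ≤ i by omega)
      rw [pr_nat]
      refine LinearMap.ext fun x => ?_
      exact W.pi_top (by omega) x
  sum := by
    rw [sum_Icc_pr W X]
    simp only [pr_nat]
    exact one_eq_sum.symm
  comm k := by
    have h1 := R_pr (cor_le (W.cor_mul hh)) k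
    have h2 : k + 2 * ((1 : ℕ) : ℤ) = k + 2 := by norm_num
    rwa [h2] at h1
  inj j hj x hx h0 := by
    have hj' : (W.dim X : ℤ) - j = ((W.dim X - j : ℕ) : ℤ) := by omega
    rw [hj', ← mem_iff_pr] at hx
    refine (hardX (W.dim X - j) j (by omega)).2.1 hx (Submodule.zero_mem _) ?_
    show h ^ j * x = h ^ j * 0
    rw [mul_zero, ← h0, LinearMap.pow_mulLeft]
    rfl
  surj j hj y hy := by
    have hj' : (W.dim X : ℤ) - j = ((W.dim X - j : ℕ) : ℤ) := by omega
    have hj2 : (W.dim X : ℤ) + j = ((W.dim X - j + 2 * j : ℕ) : ℤ) := by omega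
    rw [hj2, ← mem_iff_pr] at hy
    obtain ⟨x, hx, hxy⟩ := (hardX (W.dim X - j) j (by omega)).2.2 hy
    refine ⟨x, ?_, ?_⟩
    · rw [hj']
      exact mem_iff_pr.1 hx
    · rw [← hxy, LinearMap.pow_mulLeft]
      rfl

theorem ratAlg : RatAlg (pr W X) (fun r => W.Cor X X r) where
  smul r q f hf := W.cor_rat hf q
  one := A_one
  mul r s f hf g hg := A_mul hf hg
  comm r f hf k := R_pr (cor_le hf) k

/-- the Künneth isomorphism and the projectors -/
theorem kun_prT (c : ℤ) (z : W.H X ⊗[K] W.H X) :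
    W.kun X X (prT (W.dim X) (pr W X) c z) = pr W (X ⊗ X) c (W.kun X X z) := by
  refine TensorProduct.induction_on z (by simp) (fun a b => ?_) (fun u v hu hv => by
    simp only [map_add, hu, hv])
  refine W.ind (P := fun a => W.kun X X (prT (W.dim X) (pr W X) c (a ⊗ₜ b)) =
    pr W (X ⊗ X) c (W.kun X X (a ⊗ₜ b))) a (by simp) (fun i a ha => ?_) (fun r s hr hs => by
      simp only [TensorProduct.add_tmul, map_add, hr, hs])
  refine W.ind (P := fun b => W.kun X X (prT (W.dim X) (pr W X) c (a ⊗ₜ b)) =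
    pr W (X ⊗ X) c (W.kun X X (a ⊗ₜ b))) b (by simp) (fun j b hb => ?_) (fun r s hr hs => by
      simp only [TensorProduct.tmul_add, map_add, hr, hs])
  rw [W.kun_tmul, prT, LinearMap.sum_apply, map_sum]
  have hab := W.tm_gr ha hb
  have hpa : ∀ k : ℤ, pr W X k a = if k = i then a else 0 := by
    intro k
    split_ifs with hk
    · rw [hk, pr_nat, W.pi_same ha]
    · by_cases h0 : 0 ≤ k
      · obtain ⟨m, rfl⟩ := Int.eq_ofNat_of_zero_le h0
        rw [pr_nat, W.pi_ne ha (fun h => hk (by rw [h]))]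
      · rw [pr_neg (by omega)]
        rfl
  have hpb : ∀ k : ℤ, pr W X k b = if k = j then b else 0 := by
    intro k
    split_ifs with hk
    · rw [hk, pr_nat, W.pi_same hb]
    · by_cases h0 : 0 ≤ k
      · obtain ⟨m, rfl⟩ := Int.eq_ofNat_of_zero_le h0
        rw [pr_nat, W.pi_ne hb (fun h => hk (by rw [h]))]
      · rw [pr_neg (by omega)]
        rfl
  have hpab : pr W (X ⊗ X) c (W.tm a b) = if c = i + j then W.tm a b else 0 := by
    split_ifs with hk
    · have hk' : c = ((i + j : ℕ) : ℤ) := by rw [hk]; push_cast; ring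
      rw [hk', pr_nat, W.pi_same hab]
    · by_cases h0 : 0 ≤ c
      · obtain ⟨m, rfl⟩ := Int.eq_ofNat_of_zero_le h0
        rw [pr_nat, W.pi_ne hab (fun h => hk (by rw [← h]; push_cast; ring))]
      · rw [pr_neg (by omega)]
        rfl
  rw [hpab]
  by_cases hi : 2 * W.dim X < i
  · have ha0 : a = 0 := W.gr_top ha hi
    rw [ha0, W.tm_zero_left, ite_self]
    refine Finset.sum_eq_zero fun k _ => ?_
    rw [TensorProduct.map_tmul, map_zero, TensorProduct.zero_tmul, map_zero]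
  · rw [Finset.sum_eq_single_of_mem (i : ℤ) (Finset.mem_Icc.2 (by omega))]
    · rw [TensorProduct.map_tmul, hpa, hpb, if_pos rfl, W.kun_tmul]
      by_cases hc : c = i + j
      · rw [if_pos (by omega), if_pos hc]
      · rw [if_neg (by omega), if_neg hc, W.tm_zero_right]
    · intro k _ hk
      rw [TensorProduct.map_tmul, hpa, if_neg hk, TensorProduct.zero_tmul, map_zero]

theorem kun_LL {h : W.H X} (hh : h ∈ W.Alg X 1) (z : W.H X ⊗[K] W.H X) :
    W.kun X X (LL (LinearMap.mulLeft K h : W.E X) z) =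
      (W.tm h 1 + W.tm 1 h) * W.kun X X z := by
  have e1 := fun y : W.H (X ⊗ X) => LinearMap.congr_fun (mulLeft_fst (W := W) (Y := X) h) y
  have e2 := fun y : W.H (X ⊗ X) => LinearMap.congr_fun
    (mulLeft_snd (W := W) (X := X) (d := 1) (W.alg_gr hh)) y
  rw [add_mul]
  refine TensorProduct.induction_on z (by simp) (fun a b => ?_) (fun u v hu hv => by
    simp only [map_add, mul_add, hu, hv]
    abel)
  have h1 := e1 (W.tm a b)
  have h2 := e2 (W.tm a b)
  rw [W.tens_tm] at h1 h2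
  change W.tm h 1 * W.tm a b = W.tm (h * a) b at h1
  change W.tm 1 h * W.tm a b = W.tm a (h * b) at h2
  rw [W.kun_tmul, h1, h2, LL, LinearMap.add_apply, TensorProduct.map_tmul, TensorProduct.map_tmul,
    map_add, W.kun_tmul, W.kun_tmul]
  rfl

/-- hard Lefschetz for `X × X`, injectivity -/
theorem injZ_of {h : W.H X} (hh : h ∈ W.Alg X 1) (hardX : ∀ i j : ℕ, i + j = W.dim X →
    Set.BijOn (fun x => h ^ j * x) (W.gr X i) (W.gr X (i + 2 * j))) (i : ℕ) (x : W.H (X ⊗ X))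
    (hi : i < W.dim (X ⊗ X)) (hx : x ∈ W.gr (X ⊗ X) i) (h0 : (W.tm h 1 + W.tm 1 h) * x = 0) :
    x = 0 := by
  rw [W.dim_tensor] at hi
  have h1 := tInj K (W.H X) (W.dim X) (pr W X) (LinearMap.mulLeft K h : W.E X) (lefMod hh hardX)
    i (by omega) ((W.kun X X).symm x) ?_ ?_
  · rwa [LinearEquiv.map_eq_zero_iff] at h1
  · apply (W.kun X X).injective
    rw [kun_prT, LinearEquiv.apply_symm_apply]
    exact mem_iff_pr.1 hx
  · apply (W.kun X X).injective
    rw [kun_LL hh, LinearEquiv.apply_symm_apply, h0, map_zero]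

/-- hard Lefschetz for `X × X`, surjectivity -/
theorem surjZ_of {h : W.H X} (hh : h ∈ W.Alg X 1) (hardX : ∀ i j : ℕ, i + j = W.dim X →
    Set.BijOn (fun x => h ^ j * x) (W.gr X i) (W.gr X (i + 2 * j))) (i : ℕ) (x : W.H (X ⊗ X))
    (hi : W.dim (X ⊗ X) ≤ i) (hx : x ∈ W.gr (X ⊗ X) (i + 2)) :
    ∃ z ∈ W.gr (X ⊗ X) i, (W.tm h 1 + W.tm 1 h) * z = x := by
  rw [W.dim_tensor] at hi
  obtain ⟨y, hy, hyx⟩ := tSurj tPrim K (W.H X) (W.dim X) (pr W X) (LinearMap.mulLeft K h : W.E X)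
    (lefMod hh hardX) ((i : ℤ) + 2) (by omega) ((W.kun X X).symm x) (by
      apply (W.kun X X).injective
      rw [kun_prT, LinearEquiv.apply_symm_apply]
      exact mem_iff_pr.1 hx)
  refine ⟨W.kun X X y, ?_, ?_⟩
  · rw [mem_iff_pr, ← kun_prT]
    have e : (i : ℤ) + 2 - 2 = i := by ring
    rw [e] at hy
    rw [hy]
  · rw [← kun_LL hh, hyx, LinearEquiv.apply_symm_apply]

/-- conjectures C and B for `X` from a partial inverse of the Lefschetz operator of `X × X`,
with hard Lefschetz for `X` only -/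
theorem kunneth_lefschetz {h : W.H X} (hh : h ∈ W.Alg X 1)
    (hardX : ∀ i j : ℕ, i + j = W.dim X →
      Set.BijOn (fun x => h ^ j * x) (W.gr X i) (W.gr X (i + 2 * j)))
    {w : W.H (X ⊗ X) →ₗ[K] W.H (X ⊗ X)}
    (hw : w ∈ W.Cor (X ⊗ X) (X ⊗ X) (-1))
    (hwH : ∀ (i : ℕ) (x : W.H (X ⊗ X)), x ∈ W.gr (X ⊗ X) i →
      (W.tm h 1 + W.tm 1 h) * w ((W.tm h 1 + W.tm 1 h) * x) =
        if Even i then (W.tm h 1 + W.tm 1 h) * x else 0) : W.Kunneth X ∧ W.Lefschetz X h :=
  kunneth_lefschetz_of_inverse hh hardX (injZ_of hh hardX) (surjZ_of hh hardX) hw hwH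

/-- the operator `Λ` is algebraic -/
theorem exists_lambda {h : W.H X} (hh : h ∈ W.Alg X 1)
    (hardX : ∀ i j : ℕ, i + j = W.dim X →
      Set.BijOn (fun x => h ^ j * x) (W.gr X i) (W.gr X (i + 2 * j)))
    (hC : W.Kunneth X) (hB : W.Lefschetz X h) :
    ∃ Lam ∈ W.Cor X X (-1), IsLam (W.dim X) (pr W X) (LinearMap.mulLeft K h : W.E X) Lam := by
  refine tLam K (W.H X) (W.dim X) (pr W X) (LinearMap.mulLeft K h : W.E X)
    (fun r => W.Cor X X r) (lefMod hh hardX) ratAlg ?_ (fun i => ?_) (fun i hi => ?_)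
  · exact W.cor_mul hh
  · by_cases h0 : 0 ≤ i
    · obtain ⟨m, rfl⟩ := Int.eq_ofNat_of_zero_le h0
      rw [pr_nat]
      exact W.kunneth_iff.1 hC m
    · rw [pr_neg (by omega)]
      exact AddSubgroup.zero_mem _
  · obtain ⟨f, hf, h1⟩ := W.lefschetz_iff.1 hB i (W.dim X - i) (by omega)
    refine ⟨f, hf, LinearMap.ext fun x => ?_⟩
    rw [pr_nat]
    have h2 := h1 (W.pi X i x) (W.pi_mem i x)
    rw [LinearMap.pow_mulLeft]
    exact h2

/-- if `Λ` is algebraic then conjecture C holds -/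
theorem kunneth_of_lambda {h : W.H X} (hh : h ∈ W.Alg X 1)
    (hardX : ∀ i j : ℕ, i + j = W.dim X →
      Set.BijOn (fun x => h ^ j * x) (W.gr X i) (W.gr X (i + 2 * j)))
    {Lam : W.E X} (hL : Lam ∈ W.Cor X X (-1))
    (hLam : IsLam (W.dim X) (pr W X) (LinearMap.mulLeft K h : W.E X) Lam) : W.Kunneth X := by
  rw [W.kunneth_iff]
  intro i
  have h1 := tBC tPrim tInd K (W.H X) (W.dim X) (pr W X) (LinearMap.mulLeft K h : W.E X) Lam
    (fun r => W.Cor X X r) (lefMod hh hardX) ratAlg (W.cor_mul hh) hL hLam i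
  rwa [pr_nat] at h1

end Pool.Agent.Lib.MP_4ca46c_ag.Geo
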