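import Pool.Agent.Lib.MP_4ca46c_ag.Geo.Ideal

/-!
# The numerical ideal of `X × X`
-/

set_option autoImplicit false

open CategoryTheory MonoidalCategory CartesianMonoidalCategory TensorProduct

namespace Pool.Agent.Lib.MP_4ca46c_ag.Geo

universe v u w

namespace WeilCohomology

variable {K : Type w} [Field K] [CharZero K] {𝒱 : Type u} [Category.{v} 𝒱]
  [CartesianMonoidalCategory 𝒱] {W : WeilCohomology K 𝒱} {X Y Z : 𝒱}

theorem R_tens {r s : ℤ} {f : W.E X} {g : W.E Y} (hf : f ∈ W.R X r) (hg : g ∈ W.R Y s) :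
    (W.tens f g : W.E (X ⊗ Y)) ∈ W.R (X ⊗ Y) (r + s) := by
  refine Submodule.span_induction (p := fun (f : W.E X) _ => W.tens f g ∈ W.R (X ⊗ Y) (r + s))
    (fun f hf => ?_) (by rw [W.tens_zero_left]; exact Submodule.zero_mem _)
    (fun f f' _ _ h h' => by rw [W.tens_add_left]; exact Submodule.add_mem _ h h')
    (fun a f _ h => by rw [W.tens_smul_left]; exact Submodule.smul_mem _ _ h) hf
  refine Submodule.span_induction (p := fun (g : W.E Y) _ => W.tens f g ∈ W.R (X ⊗ Y) (r + s))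
    (fun g hg => cor_le (W.cor_tens hf hg)) (by rw [W.tens_zero_right]; exact Submodule.zero_mem _)
    (fun f f' _ _ h h' => by rw [W.tens_add_right]; exact Submodule.add_mem _ h h')
    (fun a f _ h => by rw [W.tens_smul_right]; exact Submodule.smul_mem _ _ h) hg

theorem tens_mul (f f' : W.E X) (g g' : W.E Y) :
    (W.tens (f * f') (g * g') : W.E (X ⊗ Y)) = W.tens f g * W.tens f' g' := W.tens_comp f g f' g'

theorem tens_one : (W.tens (1 : W.E X) (1 : W.E Y) : W.E (X ⊗ Y)) = 1 := W.tens_id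

/-- partial traces -/
theorem R_ptr {r : ℤ} {F : W.E (X ⊗ Y)} (hF : F ∈ W.R (X ⊗ Y) r) :
    ∃ p ∈ W.R X r, ∀ f : W.E X, W.t (X ⊗ Y) (F * W.tens f (W.eps Y)) = W.t X (p * f) := by
  refine Submodule.span_induction (p := fun (F : W.E (X ⊗ Y)) _ => ∃ p ∈ W.R X r, ∀ f : W.E X,
    W.t (X ⊗ Y) (F * W.tens f (W.eps Y)) = W.t X (p * f)) (fun F hF => ?_)
    ⟨0, Submodule.zero_mem _, fun f => by rw [zero_mul, zero_mul, map_zero, map_zero]⟩
    (fun F F' _ _ h h' => ?_) (fun a F _ h => ?_) hF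
  · obtain ⟨p, hp, h⟩ := W.cor_ptr hF
    exact ⟨p, cor_le hp, h⟩
  · obtain ⟨p, hp, h⟩ := h
    obtain ⟨p', hp', h'⟩ := h'
    exact ⟨p + p', Submodule.add_mem _ hp hp', fun f => by
      rw [add_mul, add_mul, map_add, map_add, h, h']⟩
  · obtain ⟨p, hp, h⟩ := h
    exact ⟨a • p, Submodule.smul_mem _ _ hp, fun f => by
      rw [smul_mul_assoc, smul_mul_assoc, map_smul, map_smul, h]⟩

theorem eps_mul_eps : (W.eps X : W.E X) * W.eps X = 1 := W.eps_eps

/-- (A) tensor products with a numerically trivial operator are numerically trivial -/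
theorem N_tens {r s : ℤ} {f : W.E X} {g : W.E Y} (hε : (W.eps Y : W.E Y) ∈ W.R Y 0)
    (hf : f ∈ W.N X r) (hg : g ∈ W.R Y s) :
    (W.tens f g : W.E (X ⊗ Y)) ∈ W.N (X ⊗ Y) (r + s) := by
  refine ⟨R_tens hf.1 hg, fun u hu => ?_⟩
  have h1 : (W.tens f g : W.E (X ⊗ Y)) =
      W.tens (1 : W.E X) (g * (W.eps Y : W.E Y)) * W.tens f (W.eps Y) := by
    rw [← tens_mul, one_mul, mul_assoc, eps_mul_eps, mul_one]
  obtain ⟨p, hp, h2⟩ := R_ptr (R_mul hu (R_tens (R_one (W := W) (X := X)) (R_mul hg hε)))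
  rw [h1, ← mul_assoc, h2]
  exact hf.2 p (R_cast hp (by ring))

variable (W) in
/-- the swap of the factors -/
noncomputable def swap (X : 𝒱) : W.E (X ⊗ X) := (W.pull (lift (snd X X) (fst X X))).toLinearMap

theorem swap_mem : W.swap X ∈ W.R (X ⊗ X) 0 := cor_le (W.cor_pull _)

theorem swap_tm {i j : ℕ} {a b : W.H X} (ha : a ∈ W.gr X i) (hb : b ∈ W.gr X j) :
    W.swap X (W.tm a b) = ((-1 : K) ^ (i * j)) • W.tm b a := by
  show W.pull (lift (snd X X) (fst X X)) (W.tm a b) = _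
  rw [W.pull_tm, W.comm_smul (W.pull_gr _ ha) (W.pull_gr _ hb)]
  rfl

/-- maps of `H(X × Y)` are determined on decomposable homogeneous elements -/
theorem hom_ext_tm_gr {M : Type*} [AddCommGroup M] [Module K M] {f g : W.H (X ⊗ Y) →ₗ[K] M}
    (h : ∀ (i j : ℕ) (a : W.H X) (b : W.H Y), a ∈ W.gr X i → b ∈ W.gr Y j →
      f (W.tm a b) = g (W.tm a b)) : f = g :=
  W.hom_ext fun _ x hx => W.ind_gr (P := fun x => f x = g x) hx (by rw [map_zero, map_zero])
    (fun i j a b _ ha hb => h i j a b ha hb)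
    (fun u v hu hv => by rw [map_add, map_add, hu, hv])

omit [CharZero K] in
theorem neg_one_smul_congr {i j : ℕ} (h : Even i ↔ Even j) : ((-1 : K)) ^ i = (-1) ^ j := by
  rcases Nat.even_or_odd i with h1 | h1
  · rw [h1.neg_one_pow, (h.1 h1).neg_one_pow]
  · have h2 : Odd j := by
      rw [← Nat.not_even_iff_odd] at h1 ⊢
      exact fun h3 => h1 (h.2 h3)
    rw [h1.neg_one_pow, h2.neg_one_pow]

theorem swap_conj {r s : ℤ} {f g : W.E X} (hf : f ∈ W.R X r) (hg : g ∈ W.R X s) :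
    W.swap X * W.tens f g * W.swap X = W.tens g f := by
  refine hom_ext_tm_gr fun i j a b ha hb => ?_
  rw [Module.End.mul_apply, Module.End.mul_apply, swap_tm ha hb, map_smul, W.tens_tm, map_smul,
    W.tens_tm]
  by_cases h1 : (j : ℤ) + 2 * r < 0
  · rw [R_gr_zero hf hb h1, W.tm_zero_left, W.tm_zero_right, map_zero, smul_zero]
  by_cases h2 : (i : ℤ) + 2 * s < 0
  · rw [R_gr_zero hg ha h2, W.tm_zero_left, W.tm_zero_right, map_zero, smul_zero]
  have h3 : f b ∈ W.gr X ((j : ℤ) + 2 * r).toNat := R_gr hf hb (by omega)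
  have h4 : g a ∈ W.gr X ((i : ℤ) + 2 * s).toNat := R_gr hg ha (by omega)
  rw [swap_tm h3 h4, smul_smul, ← pow_add]
  have h5 : Even (i * j + ((j : ℤ) + 2 * r).toNat * ((i : ℤ) + 2 * s).toNat) := by
    have e1 : Even ((j : ℤ) + 2 * r).toNat ↔ Even j := by
      rw [← Int.even_coe_nat, Int.toNat_of_nonneg (by omega), Int.even_add, Int.even_coe_nat]
      simp
    have e2 : Even ((i : ℤ) + 2 * s).toNat ↔ Even i := by
      rw [← Int.even_coe_nat, Int.toNat_of_nonneg (by omega), Int.even_add, Int.even_coe_nat]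
      simp
    rw [Nat.even_add, Nat.even_mul, Nat.even_mul, e1, e2]
    tauto
  rw [h5.neg_one_pow, one_smul]

/-- (A) on the other side -/
theorem N_tens' {r s : ℤ} {f g : W.E X} (hε : (W.eps X : W.E X) ∈ W.R X 0)
    (hf : f ∈ W.N X r) (hg : g ∈ W.R X s) :
    (W.tens g f : W.E (X ⊗ X)) ∈ W.N (X ⊗ X) (r + s) := by
  rw [← swap_conj hf.1 hg]
  exact N_cast (N_mul_right (N_mul_left (N_tens hε hf hg) swap_mem) swap_mem) (by ring)

/-- (B) -/
theorem N_of_tens {r s : ℤ} {f : W.E X} {g : W.E Y} (hf : f ∈ W.R X r) (hg : g ∈ W.R Y s)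
    (h : (W.tens f g : W.E (X ⊗ Y)) ∈ W.N (X ⊗ Y) (r + s)) : f ∈ W.N X r ∨ g ∈ W.N Y s := by
  by_contra hcon
  rw [not_or] at hcon
  obtain ⟨p, hp, hp1⟩ := not_N hf hcon.1
  obtain ⟨q, hq, hq1⟩ := not_N hg hcon.2
  have h1 := h.2 (W.tens p q) (R_cast (R_tens hp hq) (by ring))
  rw [← tens_mul] at h1
  have h2 : W.t (X ⊗ Y) (W.tens (p * f) (q * g)) = W.t X (p * f) * W.t Y (q * g) :=
    W.trace_tens (p * f) (q * g)
  rw [h2] at h1
  rcases mul_eq_zero.1 h1 with h3 | h3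
  · exact hp1 h3
  · exact hq1 h3

/-- multiplication by a class of the first factor -/
theorem mulLeft_fst (a : W.H X) :
    (LinearMap.mulLeft K (W.tm a (1 : W.H Y)) : W.E (X ⊗ Y)) =
      W.tens (LinearMap.mulLeft K a) (LinearMap.id) := by
  refine W.hom_ext_tm fun x y => ?_
  rw [W.tens_tm, LinearMap.mulLeft_apply, LinearMap.mulLeft_apply, LinearMap.id_apply]
  simp only [tm, map_one, mul_one, map_mul, mul_assoc]

/-- multiplication by an even class of the second factor -/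
theorem mulLeft_snd {d : ℕ} {b : W.H Y} (hb : b ∈ W.gr Y (2 * d)) :
    (LinearMap.mulLeft K (W.tm (1 : W.H X) b) : W.E (X ⊗ Y)) =
      W.tens (LinearMap.id) (LinearMap.mulLeft K b) := by
  refine hom_ext_tm_gr fun i j x y hx hy => ?_
  rw [W.tens_tm, LinearMap.mulLeft_apply, LinearMap.mulLeft_apply, LinearMap.id_apply,
    W.tm_mul 1 y hb hx, one_mul, mul_assoc, (even_two_mul _).neg_one_pow, one_smul]

/-- the projectors of the product -/
theorem pi_tens (c : ℕ) : (W.pi (X ⊗ Y) c : W.E (X ⊗ Y)) =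
    ∑ p ∈ Finset.HasAntidiagonal.antidiagonal c, W.tens (W.pi X p.1) (W.pi Y p.2) := by
  refine hom_ext_tm_gr fun i j a b ha hb => ?_
  rw [LinearMap.sum_apply]
  by_cases h : i + j = c
  · rw [Finset.sum_eq_single_of_mem (i, j) (Finset.HasAntidiagonal.mem_antidiagonal.2 h)]
    · rw [W.tens_tm, W.pi_same ha, W.pi_same hb]
      exact W.pi_same (h ▸ W.tm_gr ha hb)
    · rintro ⟨k, l⟩ hkl hne
      rw [W.tens_tm]
      by_cases hk : i = k
      · subst hk
        have hl : j ≠ l := fun hl => hne (by rw [hl])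
        rw [W.pi_ne hb hl, W.tm_zero_right]
      · rw [W.pi_ne ha hk, W.tm_zero_left]
  · rw [W.pi_ne (W.tm_gr ha hb) h, Finset.sum_eq_zero]
    rintro ⟨k, l⟩ hkl
    rw [Finset.HasAntidiagonal.mem_antidiagonal] at hkl
    rw [W.tens_tm]
    by_cases hk : i = k
    · rw [W.pi_ne hb (by dsimp only at hkl; omega), W.tm_zero_right]
    · rw [W.pi_ne ha hk, W.tm_zero_left]

end WeilCohomology

end Pool.Agent.Lib.MP_4ca46c_ag.Geo
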