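import Pool.Agent.Lib.MP_4ca46c_ag.Geo.Lef

/-!
# Künneth summands
-/

set_option autoImplicit false

open CategoryTheory MonoidalCategory CartesianMonoidalCategory TensorProduct

namespace Pool.Agent.Lib.MP_4ca46c_ag.Geo

universe v u w

namespace WeilCohomology

variable {K : Type w} [Field K] [CharZero K] {𝒱 : Type u} [Category.{v} 𝒱]
  [CartesianMonoidalCategory 𝒱] (W : WeilCohomology K 𝒱) {X Y : 𝒱}

/-- The Künneth summand `H^i(X) ⊗ H^j(Y)`. -/
def box (X Y : 𝒱) (i j : ℕ) : Submodule K (W.H (X ⊗ Y)) :=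
  Submodule.span K {z | ∃ x ∈ W.gr X i, ∃ y ∈ W.gr Y j,
    z = W.pull (fst X Y) x * W.pull (snd X Y) y}

theorem kcomp_mem_box (i j : ℕ) (u : W.H (X ⊗ Y)) : W.kcomp i j u ∈ W.box X Y i j := by
  rw [kcomp_eq]
  refine W.ind_tm (P := fun u => W.tens (W.pi X i) (W.pi Y j) u ∈ W.box X Y i j) u ?_
    (fun a b => ?_) (fun u v hu hv => ?_)
  · rw [map_zero]
    exact Submodule.zero_mem _
  · rw [tens_tm]
    exact Submodule.subset_span ⟨_, W.pi_mem i a, _, W.pi_mem j b, rfl⟩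
  · rw [map_add]
    exact Submodule.add_mem _ hu hv

/-- The action of a class in a Künneth summand. -/
theorem op_box {i j : ℕ} (hij : i + j = 2 * W.dim Y) {u : W.H (X ⊗ Y)} (hu : u ∈ W.box X Y i j)
    {l : ℕ} (hl : l ≠ i) {z : W.H Y} (hz : z ∈ W.gr Y l) : W.op u z = 0 := by
  refine Submodule.span_induction (p := fun u _ => W.op u z = 0) ?_ ?_ ?_ ?_ hu
  · rintro _ ⟨x, hx, y, hy, rfl⟩
    have h1 : W.op (W.pull (fst X Y) x * W.pull (snd X Y) y) z = W.tr Y (y * z) • x :=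
      W.op_tm x y z
    rw [h1, W.tr_gr (SetLike.mul_mem_graded hy hz) (by omega), zero_smul]
  · rw [op_zero, LinearMap.zero_apply]
  · intro u v _ _ h1 h2
    rw [op_add, LinearMap.add_apply, h1, h2, add_zero]
  · intro a u _ h1
    rw [op_smul, LinearMap.smul_apply, h1, smul_zero]

theorem op_iSup_box {P : ℕ → Prop} {u : W.H (X ⊗ X)}
    (hu : u ∈ ⨆ (i : ℕ) (_ : i ≤ 2 * W.dim X ∧ P i), W.box X X i (2 * W.dim X - i))
    {l : ℕ} (hl : ¬ P l) {z : W.H X} (hz : z ∈ W.gr X l) : W.op u z = 0 := by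
  have hle : (⨆ (i : ℕ) (_ : i ≤ 2 * W.dim X ∧ P i), W.box X X i (2 * W.dim X - i)) ≤
      LinearMap.ker ({ toFun := fun u => W.op u z
                       map_add' := fun u v => by rw [op_add]; rfl
                       map_smul' := fun a u => by rw [op_smul]; rfl } :
        W.H (X ⊗ X) →ₗ[K] W.H X) := by
    refine iSup₂_le fun i hi u hu => ?_
    rw [LinearMap.mem_ker]
    exact W.op_box (by omega) hu (fun h => hl (by rw [h]; exact hi.2)) hz
  exact LinearMap.mem_ker.1 (hle hu)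

/-- The sign conjecture in terms of Künneth summands. -/
theorem sign_of_box {a : W.H (X ⊗ X)} (ha : a ∈ W.Alg (X ⊗ X) (W.dim X))
    (h1 : a ∈ ⨆ (i : ℕ) (_ : i ≤ 2 * W.dim X ∧ Even i), W.box X X i (2 * W.dim X - i))
    (h2 : W.diag X - a ∈ ⨆ (i : ℕ) (_ : i ≤ 2 * W.dim X ∧ Odd i),
      W.box X X i (2 * W.dim X - i)) : W.Sign X := by
  rw [W.sign_iff]
  refine W.mem_cor_zero.2 ⟨a, ha, ?_⟩
  refine W.hom_ext fun l z hz => ?_
  rcases Nat.even_or_odd l with hl | hl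
  · rw [W.even_even hz hl]
    have h3 := W.op_iSup_box h2 (Nat.not_odd_iff_even.2 hl) hz
    have h4 : W.diag X = (W.diag X - a) + a := by rw [sub_add_cancel]
    have h5 : W.op (W.diag X) z = z := by rw [op_diag_id]; rfl
    rw [h4, op_add, LinearMap.add_apply, h3, zero_add] at h5
    exact h5.symm
  · rw [W.even_odd hz hl]
    exact (W.op_iSup_box h1 (Nat.not_even_iff_odd.2 hl) hz).symm

/-- The Künneth conjecture in terms of Künneth summands. -/
theorem Kunneth.box {W : WeilCohomology K 𝒱} {X : 𝒱} (h : W.Kunneth X) :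
    ∃ u : ℕ → W.H (X ⊗ X), (∀ i ≤ 2 * W.dim X, u i ∈ W.Alg (X ⊗ X) (W.dim X) ∧
      u i ∈ W.box X X i (2 * W.dim X - i)) ∧
      ∑ i ∈ Finset.range (2 * W.dim X + 1), u i = W.diag X :=
  ⟨fun i => W.kcomp i (2 * W.dim X - i) (W.diag X), fun i hi =>
    ⟨h i _ (by omega), W.kcomp_mem_box i _ _⟩, W.sum_kcomp_diag⟩

/-- An operator is given by a correspondence. -/
theorem eq_op_iff {u : W.H (X ⊗ Y)} {φ : W.H Y →ₗ[K] W.H X} :
    φ = W.op u ↔ ∀ v w, W.tr X (φ v * w) =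
      W.tr (X ⊗ Y) (u * W.pull (snd X Y) v * W.pull (fst X Y) w) := by
  constructor
  · rintro rfl v w
    exact W.op_spec u v w
  · intro h
    refine LinearMap.ext fun v => W.ext_tr fun w => ?_
    rw [op_spec]
    exact h v w

end WeilCohomology

variable {K : Type} [Field K] [CharZero K] {𝒱 : Type u} [Category.{v} 𝒱]
  [CartesianMonoidalCategory 𝒱]

open WeilCohomology Sign

variable {W : WeilCohomology K 𝒱} {X : 𝒱}

/-- The operator `Λ`, in terms of the cohomology ring. -/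
def IsLambda (W : WeilCohomology K 𝒱) (X : 𝒱) (h : W.H X) (Λ : W.H X →ₗ[K] W.H X) : Prop :=
  ∀ i ≤ W.dim X, ∀ x ∈ W.gr X i, h ^ (W.dim X - i + 1) * x = 0 → ∀ j ≤ W.dim X - i,
    Λ (h ^ j * x) = if j = 0 then 0 else h ^ (j - 1) * x

theorem isLambda_iff {h : W.H X} {Λ : W.H X →ₗ[K] W.H X} : IsLambda W X h Λ ↔
    IsLam (W.dim X) (pr W X) (LinearMap.mulLeft K h : W.E X) Λ := by
  have hp : ∀ (j : ℕ) (x : W.H X), ((LinearMap.mulLeft K h : W.E X) ^ j) x = h ^ j * x := by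
    intro j x
    rw [LinearMap.pow_mulLeft]
    rfl
  constructor
  · intro H i hi x hx h0 j hj
    rw [← mem_iff_pr] at hx
    rw [hp] at h0 ⊢
    rw [hp]
    exact H i hi x hx h0 j hj
  · intro H i hi x hx h0 j hj
    have h1 := H i hi x (mem_iff_pr.1 hx) (by rw [hp]; exact h0) j hj
    rw [hp, hp] at h1
    exact h1

/-- conjecture B: the operator `Λ` is algebraic -/
def LambdaConj (W : WeilCohomology K 𝒱) (X : 𝒱) (h : W.H X) : Prop :=
  ∃ Λ ∈ W.Cor X X (-1), IsLambda W X h Λ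

/-- dimension zero -/
theorem kunneth_lefschetz_zero (hn : W.dim X = 0) (h : W.H X) :
    W.Kunneth X ∧ W.Lefschetz X h := by
  have h0 : ∀ (l : ℕ) (z : W.H X), z ∈ W.gr X l → l ≠ 0 → z = 0 := by
    intro l z hz hl
    exact W.gr_top hz (by omega)
  constructor
  · rw [W.kunneth_iff]
    intro i
    by_cases hi : i = 0
    · have h1 : W.pi X i = LinearMap.id := by
        refine W.hom_ext fun l z hz => ?_
        by_cases hl : l = 0
        · rw [LinearMap.id_apply]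
          exact W.pi_same (by rw [hi]; exact hl ▸ hz)
        · rw [h0 l z hz hl, map_zero, map_zero]
      rw [h1]
      exact W.cor_id _
    · have h1 : W.pi X i = 0 := by
        refine LinearMap.ext fun z => ?_
        exact h0 i _ (W.pi_mem i z) hi
      rw [h1]
      exact AddSubgroup.zero_mem _
  · rw [W.lefschetz_iff]
    intro i j hij
    have hj : j = 0 := by omega
    subst hj
    refine ⟨LinearMap.id, ?_, fun x _ => ?_⟩
    · have h1 : (-((0 : ℕ) : ℤ)) = 0 := by norm_num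
      rw [h1]
      exact W.cor_id _
    · rw [pow_zero, one_mul]
      rfl

/-- **The theorem for `X`, from the relation on `X × X`**, with the relation expressed by
Poincaré duality. -/
theorem conj_of_relation {h : W.H X} (hh : h ∈ W.Alg X 1)
    (hardX : ∀ i j : ℕ, i + j = W.dim X →
      Set.BijOn (fun x => h ^ j * x) (W.gr X i) (W.gr X (i + 2 * j)))
    {H : W.H (X ⊗ X)} (hH : W.tm h 1 + W.tm 1 h = H) {N : ℕ} (hN : N + 1 = W.dim (X ⊗ X))
    {w : W.H ((X ⊗ X) ⊗ (X ⊗ X))} (hw : w ∈ W.Alg ((X ⊗ X) ⊗ (X ⊗ X)) N)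
    (hrel : ∀ (i : ℕ) (z : W.H (X ⊗ X)), z ∈ W.gr (X ⊗ X) i → ∀ z',
      W.tr ((X ⊗ X) ⊗ (X ⊗ X)) (w * W.pull (snd (X ⊗ X) (X ⊗ X)) (H * z) *
        W.pull (fst (X ⊗ X) (X ⊗ X)) (H * z')) =
        if Even i then W.tr (X ⊗ X) (H * z * z') else 0) :
    W.Kunneth X ∧ W.Lefschetz X h := by
  have hwA : W.op w ∈ W.Cor (X ⊗ X) (X ⊗ X) (-1) :=
    W.mem_cor.2 (Or.inr ⟨N, w, by omega, hw, rfl⟩)
  refine kunneth_lefschetz hh hardX hwA fun i x hx => ?_
  rw [hH]
  have hHg : H ∈ W.gr (X ⊗ X) 2 := by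
    rw [← hH]
    refine Submodule.add_mem _ (W.tm_gr (W.alg_gr hh) (SetLike.one_mem_graded (W.gr X))) ?_
    have h3 := W.tm_gr (SetLike.one_mem_graded (W.gr X)) (W.alg_gr hh)
    rwa [zero_add] at h3
  have hcomm : ∀ y : W.H (X ⊗ X), H * y = y * H := by
    intro y
    refine W.ind (P := fun y => H * y = y * H) y
      (by rw [mul_zero, zero_mul]) (fun j y hy => ?_)
      (fun r s hr hs => by rw [mul_add, add_mul, hr, hs])
    rw [W.comm_smul hHg hy, (even_two_mul j).neg_one_pow, one_smul]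
  refine W.ext_tr fun z' => ?_
  rw [hcomm (W.op w (H * x)), mul_assoc, W.op_spec, hrel i x hx z']
  split_ifs
  · rfl
  · rw [zero_mul, map_zero]

end Pool.Agent.Lib.MP_4ca46c_ag.Geo
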