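import Pool.Agent.Lib.MP_4ca46c_ag.Geo.Push

/-!
# Algebraic correspondences: composition, degrees, graphs
-/

set_option autoImplicit false

open CategoryTheory MonoidalCategory CartesianMonoidalCategory TensorProduct

namespace Pool.Agent.Lib.MP_4ca46c_ag.Geo

universe v u w

namespace WeilCohomology

variable {K : Type w} [Field K] [CharZero K] {𝒱 : Type u} [Category.{v} 𝒱]
  [CartesianMonoidalCategory 𝒱] (W : WeilCohomology K 𝒱) {X Y Z : 𝒱}

theorem neg_pow_mul (k : ℕ) (x : W.H X) : (-1 : W.H X) ^ k * x = ((-1 : K) ^ k) • x := by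
  rcases Nat.even_or_odd k with h2 | h2
  · rw [h2.neg_one_pow, h2.neg_one_pow, one_mul, one_smul]
  · rw [h2.neg_one_pow, h2.neg_one_pow, neg_one_mul, neg_one_smul]

theorem comm_smul {i j : ℕ} {x y : W.H X} (hx : x ∈ W.gr X i) (hy : y ∈ W.gr X j) :
    x * y = ((-1 : K) ^ (i * j)) • (y * x) := by
  rw [W.comm hx hy, neg_pow_mul]

/-- four factors -/
theorem tr_four {i j : ℕ} (a r : W.H X) (d s : W.H Y) (hr : r ∈ W.gr X j) (hd : d ∈ W.gr Y i) :
    W.tr (X ⊗ Y) (W.tm a d * W.tm r s) = (-1) ^ (i * j) * (W.tr X (a * r) * W.tr Y (d * s)) := by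
  have h1 : W.pull (snd X Y) d * W.pull (fst X Y) r =
      ((-1 : K) ^ (i * j)) • (W.pull (fst X Y) r * W.pull (snd X Y) d) :=
    W.comm_smul (W.pull_gr _ hd) (W.pull_gr _ hr)
  have h2 : W.tm a d * W.tm r s = ((-1 : K) ^ (i * j)) •
      (W.pull (fst X Y) (a * r) * W.pull (snd X Y) (d * s)) := by
    have h3 : W.tm a d * W.tm r s = W.pull (fst X Y) a *
        (W.pull (snd X Y) d * W.pull (fst X Y) r) * W.pull (snd X Y) s := by
      simp only [tm, mul_assoc]
    rw [h3, h1, map_mul, map_mul, mul_smul_comm, smul_mul_assoc]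
    simp only [mul_assoc]
  rw [h2, map_smul, W.tr_tensor, smul_eq_mul]

theorem pull_tm {T : 𝒱} (f : T ⟶ X) (g : T ⟶ Y) (a : W.H X) (b : W.H Y) :
    W.pull (lift f g) (W.tm a b) = W.pull f a * W.pull g b := by
  rw [tm, map_mul, ← W.pull_comp, ← W.pull_comp, lift_fst, lift_snd]

theorem pull_tm' {T : 𝒱} (f : T ⟶ X ⊗ Y) (a : W.H X) (b : W.H Y) :
    W.pull f (W.tm a b) = W.pull (f ≫ fst X Y) a * W.pull (f ≫ snd X Y) b := by
  rw [tm, map_mul, ← W.pull_comp, ← W.pull_comp]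

/-- projections of the triple product -/
abbrev p12 (X Y Z : 𝒱) : X ⊗ (Y ⊗ Z) ⟶ X ⊗ Y := lift (fst X (Y ⊗ Z)) (snd X (Y ⊗ Z) ≫ fst Y Z)

abbrev p23 (X Y Z : 𝒱) : X ⊗ (Y ⊗ Z) ⟶ Y ⊗ Z := snd X (Y ⊗ Z)

abbrev p13 (X Y Z : 𝒱) : X ⊗ (Y ⊗ Z) ⟶ X ⊗ Z := lift (fst X (Y ⊗ Z)) (snd X (Y ⊗ Z) ≫ snd Y Z)

/-- composition of correspondences -/
noncomputable def comp (u : W.H (X ⊗ Y)) (v : W.H (Y ⊗ Z)) : W.H (X ⊗ Z) :=
  W.push (p13 X Y Z) (W.pull (p12 X Y Z) u * W.pull (p23 X Y Z) v)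

/-- integration over the middle factor -/
theorem push_mid (a : W.H X) (q : W.H Y) (d : W.H Z) :
    W.push (p13 X Y Z) (W.tm a (W.tm q d)) = W.tr Y q • W.tm a d := by
  refine W.push_eq _ _ _ fun r => ?_
  refine W.ind_tm (P := fun r => W.tr (X ⊗ Z) (W.tr Y q • W.tm a d * r) =
    W.tr (X ⊗ (Y ⊗ Z)) (W.tm a (W.tm q d) * W.pull (p13 X Y Z) r)) r (by simp) (fun r1 r3 => ?_)
    (fun r s hr hs => by simp only [map_add, mul_add, hr, hs])
  have e1 : W.pull (p13 X Y Z) (W.tm r1 r3) = W.tm r1 (W.tm (1 : W.H Y) r3) := by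
    rw [pull_tm, W.pull_comp]
    show _ * _ = W.pull (fst X (Y ⊗ Z)) r1 * W.pull (snd X (Y ⊗ Z))
      (W.pull (fst Y Z) 1 * W.pull (snd Y Z) r3)
    rw [map_one, one_mul]
  rw [e1]
  refine W.ind (P := fun r1 => W.tr (X ⊗ Z) (W.tr Y q • W.tm a d * W.tm r1 r3) =
    W.tr (X ⊗ (Y ⊗ Z)) (W.tm a (W.tm q d) * W.tm r1 (W.tm (1 : W.H Y) r3))) r1 (by simp [tm])
    (fun j r1 hr1 => ?_) (fun r s hr hs => by
      simp only [tm, map_add, add_mul, mul_add] at hr hs ⊢
      rw [hr, hs])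
  refine W.ind (P := fun q => W.tr (X ⊗ Z) (W.tr Y q • W.tm a d * W.tm r1 r3) =
    W.tr (X ⊗ (Y ⊗ Z)) (W.tm a (W.tm q d) * W.tm r1 (W.tm (1 : W.H Y) r3))) q (by simp [tm])
    (fun m q hq => ?_) (fun r s hr hs => by
      simp only [tm, map_add, add_mul, mul_add, add_smul, map_mul, mul_assoc] at hr hs ⊢
      rw [hr, hs])
  refine W.ind (P := fun d => W.tr (X ⊗ Z) (W.tr Y q • W.tm a d * W.tm r1 r3) =
    W.tr (X ⊗ (Y ⊗ Z)) (W.tm a (W.tm q d) * W.tm r1 (W.tm (1 : W.H Y) r3))) d (by simp [tm])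
    (fun l d hd => ?_) (fun r s hr hs => by
      simp only [tm, map_add, add_mul, mul_add, smul_add, map_mul, mul_assoc] at hr hs ⊢
      rw [hr, hs])
  have h1 : W.tm q d ∈ W.gr (Y ⊗ Z) (m + l) :=
    SetLike.mul_mem_graded (W.pull_gr _ hq) (W.pull_gr _ hd)
  rw [smul_mul_assoc, map_smul, smul_eq_mul, W.tr_four a r1 d r3 hr1 hd,
    W.tr_four a r1 _ _ hr1 h1]
  have h2 : W.tr (Y ⊗ Z) (W.tm q d * W.tm 1 r3) = W.tr Y q * W.tr Z (d * r3) := by
    have h3 : W.tm q d * W.tm (1 : W.H Y) r3 = W.pull (fst Y Z) q * W.pull (snd Y Z) (d * r3) := by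
      simp only [tm, map_one, one_mul, map_mul, mul_assoc]
    rw [h3, W.tr_tensor]
  rw [h2]
  by_cases hm : m = 2 * W.dim Y
  · have h4 : ((-1 : K)) ^ ((m + l) * j) = (-1) ^ (l * j) := by
      rw [hm, add_mul, pow_add]
      have h5 : Even (2 * W.dim Y * j) := ⟨W.dim Y * j, by ring⟩
      rw [h5.neg_one_pow, one_mul]
    rw [h4]
    ring
  · rw [W.tr_gr hq hm]
    ring

theorem comp_tm (a : W.H X) (b c : W.H Y) (d : W.H Z) :
    W.comp (W.tm a b) (W.tm c d) = W.tr Y (b * c) • W.tm a d := by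
  have h : W.pull (p12 X Y Z) (W.tm a b) * W.pull (p23 X Y Z) (W.tm c d) =
      W.tm a (W.tm (b * c) d) := by
    rw [pull_tm, W.pull_comp]
    simp only [tm, map_mul, mul_assoc]
  rw [comp, h, push_mid]

theorem comp_add_left (u u' : W.H (X ⊗ Y)) (v : W.H (Y ⊗ Z)) :
    W.comp (u + u') v = W.comp u v + W.comp u' v := by
  simp only [comp, map_add, add_mul]

theorem comp_add_right (u : W.H (X ⊗ Y)) (v v' : W.H (Y ⊗ Z)) :
    W.comp u (v + v') = W.comp u v + W.comp u v' := by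
  simp only [comp, map_add, mul_add]

/-- the action is compatible with composition -/
theorem op_comp (u : W.H (X ⊗ Y)) (v : W.H (Y ⊗ Z)) :
    W.op (W.comp u v) = W.op u ∘ₗ W.op v := by
  refine W.ind_tm (P := fun u => W.op (W.comp u v) = W.op u ∘ₗ W.op v) u ?_ (fun a b => ?_)
    (fun u u' h h' => ?_)
  · rw [comp, map_zero, zero_mul, map_zero, op_zero, op_zero, LinearMap.zero_comp]
  · refine W.ind_tm (P := fun v => W.op (W.comp (W.tm a b) v) = W.op (W.tm a b) ∘ₗ W.op v) v ?_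
      (fun c d => ?_) (fun v v' h h' => ?_)
    · rw [comp, map_zero, mul_zero, map_zero, op_zero, op_zero, LinearMap.comp_zero]
    · rw [comp_tm, op_smul]
      ext x
      rw [LinearMap.smul_apply, op_tm, LinearMap.comp_apply, op_tm, op_tm, mul_smul_comm,
        map_smul, smul_eq_mul, smul_smul, mul_comm]
    · rw [comp_add_right, op_add, op_add, LinearMap.comp_add, h, h']
  · rw [comp_add_left, op_add, op_add, LinearMap.add_comp, h, h']

/-- degrees -/
theorem mem_gr_of_tr {m : ℕ} {x : W.H X}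
    (h : ∀ (j : ℕ) (y : W.H X), y ∈ W.gr X j → j + m ≠ 2 * W.dim X → W.tr X (x * y) = 0) :
    x ∈ W.gr X m := by
  classical
  have h1 : x = GradedRing.proj (W.gr X) m x := by
    refine W.ext_tr fun y => ?_
    refine W.ind (P := fun y => W.tr X (x * y) = W.tr X (GradedRing.proj (W.gr X) m x * y)) y
      (by simp) (fun j y hy => ?_) (fun r s hr hs => by simp only [mul_add, map_add, hr, hs])
    have h2 : ∀ i, GradedRing.proj (W.gr X) i x ∈ W.gr X i := fun i => by
      rw [GradedRing.proj_apply]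
      exact SetLike.coe_mem _
    by_cases hj : j + m = 2 * W.dim X
    · -- only the component of degree m contributes
      have h3 : x = ∑ i ∈ (DirectSum.decompose (W.gr X) x).support,
          GradedRing.proj (W.gr X) i x := by
        conv_lhs => rw [← DirectSum.sum_support_decompose (W.gr X) x]
        rfl
      have h4 : ∀ i, i ≠ m → W.tr X (GradedRing.proj (W.gr X) i x * y) = 0 := by
        intro i hi
        exact W.tr_gr (SetLike.mul_mem_graded (h2 i) hy) (by omega)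
      conv_lhs => rw [h3]
      rw [Finset.sum_mul, map_sum]
      by_cases hs : m ∈ (DirectSum.decompose (W.gr X) x).support
      · rw [Finset.sum_eq_single_of_mem m hs fun i _ hi => h4 i hi]
      · rw [Finset.sum_eq_zero fun i hi => h4 i fun e => hs (e ▸ hi)]
        have h5 : GradedRing.proj (W.gr X) m x = 0 := by
          rw [GradedRing.proj_apply]
          rw [DFinsupp.mem_support_iff, not_not] at hs
          rw [hs]
          rfl
        rw [h5, zero_mul, map_zero]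
    · rw [h j y hy hj, W.tr_gr (SetLike.mul_mem_graded (h2 m) hy) (by omega)]
  rw [h1, GradedRing.proj_apply]
  exact SetLike.coe_mem _

end WeilCohomology

end Pool.Agent.Lib.MP_4ca46c_ag.Geo
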