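import Pool.Agent.Lib.MP_4ca46c_ag.Geo.Spread

/-!
# Generic hyperplane sections and cycles on their squares
-/

set_option autoImplicit false

open CategoryTheory MonoidalCategory CartesianMonoidalCategory TensorProduct

namespace Pool.Agent.Lib.MP_4ca46c_ag.Geo

universe v u w v' u' t

variable {K : Type w} [Field K] [CharZero K] {𝒱 𝒱' : Type u} [Category.{v} 𝒱]
  [CartesianMonoidalCategory 𝒱] [Category.{v} 𝒱'] [CartesianMonoidalCategory 𝒱']
  {𝒮 : Type u'} [Category.{v'} 𝒮] {T : ChowTheory.{v', u', t} 𝒮}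
  {W : WeilCohomology K 𝒱} {W' : WeilCohomology K 𝒱'}

/-- The generic hyperplane section of `Z` for the embedding by a large multiple `mh` of an ample
class `h`: `Z` is a variety over the algebraically closed field `k`, `F` is the function field of
the dual projective space, `Ω` its algebraic closure, `Y_F ⊆ Z_F` the generic hyperplane section. -/
structure GenericSection (C : CycleMap T W) (C' : CycleMap T W') (Z : 𝒱) (h : W.H Z) where
  /-- the variety `Z_Ω` -/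
  ZΩ : 𝒱'
  /-- invariance of cohomology under extension of algebraically closed fields -/
  base : W.H Z ≃ₐ[K] W'.H ZΩ
  base_gr : ∀ {i : ℕ} {z : W.H Z}, z ∈ W.gr Z i → base z ∈ W'.gr ZΩ i
  base_tr : ∀ z, W'.tr ZΩ (base z) = W.tr Z z
  dim_Z : W'.dim ZΩ = W.dim Z
  /-- the hyperplane section `Y = Y_Ω` -/
  Y : 𝒱'
  i : Y ⟶ ZΩ
  dim_Y : W'.dim Y + 1 = W.dim Z
  m : ℕ
  m_pos : 0 < m
  /-- the class of `Y` is `mh` -/
  cl_Y : W'.push i 1 = base (m • h)
  /-- the multiple `m` is large: the middle Betti number of `Y` tends to infinity with `m` -/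
  betti : Module.finrank K (W.gr Z (W.dim Z + 1)) < Module.finrank K (W'.gr Y (W'.dim Y))
  /-- the scheme `Y_F × Y_F` -/
  YY : 𝒮
  /-- the projection `Y_Ω × Y_Ω → Y_F × Y_F` -/
  b : C'.sch.obj (Y ⊗ Y) ⟶ YY
  /-- the map `Y_F × Y_F → Z × Z` -/
  ii : YY ⟶ C.sch.obj (Z ⊗ Z)
  /-- the projection `Z_Ω × Z_Ω → Z × Z` -/
  c : C'.sch.obj (ZΩ ⊗ ZΩ) ⟶ C.sch.obj (Z ⊗ Z)
  square : C'.sch.map (WeilCohomology.prodMap i i) ≫ c = b ≫ ii
  /-- cycle classes are compatible with extension of algebraically closed fields -/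
  base_cl : ∀ a : T.CH (C.sch.obj (Z ⊗ Z)), C'.cl (ZΩ ⊗ ZΩ) (T.pull c a) =
    W'.kun ZΩ ZΩ (TensorProduct.map base.toLinearMap base.toLinearMap
      ((W.kun Z Z).symm (C.cl (Z ⊗ Z) a)))
  /-- the diagonal of `Y_F` -/
  Δ : T.CH YY
  cl_Δ : C'.cl (Y ⊗ Y) (T.pull b Δ) = W'.diag Y
  /-- the group `Aut(Ω/F)` -/
  G : Type t
  [group : Group G]
  /-- the action of `Aut(Ω/F)` on `Y_Ω × Y_Ω` -/
  act : G → (C'.sch.obj (Y ⊗ Y) ⟶ C'.sch.obj (Y ⊗ Y))
  act_one : act 1 = 𝟙 _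
  act_mul : ∀ g g', act (g * g') = act g ≫ act g'
  /-- the action of `Aut(Ω/F)` on `H(Y)` -/
  galois : G → (W'.H Y ≃ₐ[K] W'.H Y)
  galois_gr : ∀ (g : G) {i : ℕ} {y : W'.H Y}, y ∈ W'.gr Y i → galois g y ∈ W'.gr Y i
  galois_tr : ∀ (g : G) (y : W'.H Y), W'.tr Y (galois g y) = W'.tr Y y
  galois_cl : ∀ (g : G) (a : T.CH (C'.sch.obj (Y ⊗ Y))),
    C'.cl (Y ⊗ Y) (T.pull (act g) a) = W'.kun Y Y (TensorProduct.map (galois g).toLinearMap
      (galois g).toLinearMap ((W'.kun Y Y).symm (C'.cl (Y ⊗ Y) a)))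
  /-- cycles on `Y_Ω × Y_Ω` are defined over finite extensions of `F` -/
  orbit : ∀ a : T.CH (C'.sch.obj (Y ⊗ Y)), (Set.range fun g => T.pull (act g) a).Finite
  /-- Galois descent -/
  descent : ∀ {d : ℕ} {a : T.CH (C'.sch.obj (Y ⊗ Y))}, a ∈ T.gr _ d →
    (∀ g, T.pull (act g) a = a) → ∃ a' ∈ T.gr YY d, T.pull b a' = a
  /-- the complement of the diagonal in `Y_F × Y_F` -/
  YYo : 𝒮
  jY : YYo ⟶ YY
  /-- localization, and `CH_{dim Y}` of the diagonal is spanned by its class -/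
  localization : ∀ {a : T.CH YY}, a ∈ T.gr YY (W'.dim Y) → T.pull jY a = 0 →
    ∃ q : ℚ, a = q • Δ
  /-- the complement of the diagonal in `Z × Z` -/
  U : 𝒮
  jZ : U ⟶ C.sch.obj (Z ⊗ Z)
  jZ_surj : ∀ {a : T.CH U} {d : ℕ}, a ∈ T.gr U d →
    ∃ a' ∈ T.gr (C.sch.obj (Z ⊗ Z)) d, T.pull jZ a' = a
  /-- the variety of triples `(z, z', P)`, `z ≠ z'` points of the hyperplane `P` -/
  P : 𝒮
  q : P ⟶ U
  /-- the dual projective space and its hyperplane class -/
  S : 𝒮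
  p : P ⟶ S
  ξ : T.CH S
  ξ_gr : ξ ∈ T.gr S 1
  /-- `P → U` is a projective bundle -/
  bundle : ∀ {a : T.CH P} {d : ℕ}, a ∈ T.gr P d → ∃ u : ℕ → T.CH U,
    (∀ j ≤ d, u j ∈ T.gr U (d - j)) ∧
      a = ∑ j ∈ Finset.range (d + 1), T.pull p ξ ^ j * T.pull q (u j)
  /-- the map of `Y_F × Y_F ∖ Δ` to `P`: the generic fibre of `P → S` -/
  g : YYo ⟶ P
  g_surj : ∀ {a : T.CH YYo} {d : ℕ}, a ∈ T.gr YYo d → ∃ a' ∈ T.gr P d, T.pull g a' = a
  comm : g ≫ q ≫ jZ = jY ≫ ii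
  /-- the generic point of `S` -/
  η : 𝒮
  η_zero : ∀ a ∈ T.gr η 1, a = 0
  s : YYo ⟶ η
  e : η ⟶ S
  comm' : g ≫ p = s ≫ e

/-- the cycle class is rational -/
theorem CycleMap.cl_smul (C : CycleMap T W) {X : 𝒱} (q : ℚ) (a : T.CH (C.sch.obj X)) :
    C.cl X (q • a) = (q : K) • C.cl X a := by
  have hd : (q.den : K) ≠ 0 := Nat.cast_ne_zero.2 q.den_nz
  have h1 : (q.den : ℚ) • (q • a) = (q.num : ℚ) • a := by
    rw [smul_smul, Rat.den_mul_eq_num]
  rw [Nat.cast_smul_eq_nsmul, Int.cast_smul_eq_zsmul] at h1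
  have h2 := congrArg (C.cl X) h1
  rw [map_nsmul, map_zsmul, ← Nat.cast_smul_eq_nsmul K, ← Int.cast_smul_eq_zsmul K] at h2
  have h3 : C.cl X (q • a) = ((q.den : K)⁻¹ * (q.num : K)) • C.cl X a := by
    rw [mul_smul, ← h2, smul_smul, inv_mul_cancel₀ hd, one_smul]
  rw [h3]
  congr 1
  rw [Rat.cast_def, div_eq_mul_inv, mul_comm]

namespace GenericSection

variable {C : CycleMap T W} {C' : CycleMap T W'} {Z : 𝒱} {h : W.H Z}
  (D : GenericSection C C' Z h)

attribute [instance] GenericSection.group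

/-- cycles on `Y_F × Y_F` -/
theorem spread {a : T.CH D.YY} (ha : a ∈ T.gr D.YY (W'.dim D.Y)) :
    ∃ κ : ℚ, ∃ w ∈ T.gr (C.sch.obj (Z ⊗ Z)) (W'.dim D.Y), a = κ • D.Δ + T.pull D.ii w := by
  obtain ⟨a1, ha1, h1⟩ := D.g_surj (T.pull_gr D.jY ha)
  obtain ⟨u, hu, h2⟩ := D.bundle ha1
  obtain ⟨w, hw, h3⟩ := D.jZ_surj (hu 0 (Nat.zero_le _))
  rw [Nat.sub_zero] at hw
  have hξ : T.pull D.g (T.pull D.p D.ξ) = 0 := by
    rw [← T.pull_comp, D.comm', T.pull_comp, D.η_zero _ (T.pull_gr D.e D.ξ_gr), map_zero]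
  have h4 : T.pull D.jY a = T.pull D.jY (T.pull D.ii w) := by
    rw [← h1, h2, map_sum, Finset.sum_range_succ', Finset.sum_eq_zero, zero_add, pow_zero, one_mul,
      ← h3, ← T.pull_comp, ← T.pull_comp, ← T.pull_comp, Category.assoc, D.comm]
    intro j _
    rw [map_mul, map_pow, hξ, pow_succ, mul_zero, zero_mul]
  obtain ⟨κ, h5⟩ := D.localization (a := a - T.pull D.ii w)
    (Submodule.sub_mem _ ha (T.pull_gr D.ii hw)) (by rw [map_sub, h4, sub_self])
  exact ⟨κ, w, hw, by rw [← h5, sub_add_cancel]⟩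

/-- restriction to the hyperplane section -/
noncomputable def res : W.H Z →ₗ[K] W'.H D.Y :=
  (W'.pull D.i).toLinearMap ∘ₗ D.base.toLinearMap

/-- the Gysin map -/
noncomputable def gys : W'.H D.Y →ₗ[K] W.H Z :=
  D.base.symm.toLinearMap ∘ₗ W'.push D.i

theorem gys_res (z : W.H Z) : D.gys (D.res z) = (D.m • h) * z := by
  show D.base.symm (W'.push D.i (W'.pull D.i (D.base z))) = _
  rw [W'.push_pull, D.cl_Y, ← map_mul, AlgEquiv.symm_apply_apply]

theorem res_gr {i : ℕ} {z : W.H Z} (hz : z ∈ W.gr Z i) : D.res z ∈ W'.gr D.Y i :=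
  W'.pull_gr _ (D.base_gr hz)

/-- the inverse of the base change isomorphism is graded -/
theorem base_symm_gr {i : ℕ} {z : W'.H D.ZΩ} (hz : z ∈ W'.gr D.ZΩ i) :
    D.base.symm z ∈ W.gr Z i := by
  have h1 : W.pi Z i (D.base.symm z) = D.base.symm z := by
    apply D.base.injective
    rw [AlgEquiv.apply_symm_apply]
    have h2 : ∀ x : W.H Z, D.base (W.pi Z i x) = W'.pi D.ZΩ i (D.base x) := by
      intro x
      refine W.ind (P := fun x => D.base (W.pi Z i x) = W'.pi D.ZΩ i (D.base x)) x (by simp)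
        (fun j x hx => ?_) (fun r s hr hs => by simp only [map_add, hr, hs])
      by_cases hij : j = i
      · subst hij
        rw [W.pi_same hx, W'.pi_same (D.base_gr hx)]
      · rw [W.pi_ne hx hij, W'.pi_ne (D.base_gr hx) hij, map_zero]
    rw [h2, AlgEquiv.apply_symm_apply, W'.pi_same hz]
  rw [← h1]
  exact W.pi_mem _ _

theorem gys_gr {i : ℕ} {y : W'.H D.Y} (hy : y ∈ W'.gr D.Y i) : D.gys y ∈ W.gr Z (i + 2) := by
  have hd := D.dim_Y
  have hz := D.dim_Z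
  exact D.base_symm_gr (W'.push_gr D.i hy (by omega))

theorem op_base (u : W.H (Z ⊗ Z)) : W'.op (W'.kun D.ZΩ D.ZΩ (TensorProduct.map
    D.base.toLinearMap D.base.toLinearMap ((W.kun Z Z).symm u))) =
      D.base.toLinearMap ∘ₗ W.op u ∘ₗ D.base.symm.toLinearMap := by
  refine W.ind_tm (P := fun u => W'.op (W'.kun D.ZΩ D.ZΩ (TensorProduct.map
    D.base.toLinearMap D.base.toLinearMap ((W.kun Z Z).symm u))) =
      D.base.toLinearMap ∘ₗ W.op u ∘ₗ D.base.symm.toLinearMap) u ?_ (fun a b => ?_)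
      (fun u v hu hv => ?_)
  · rw [map_zero, map_zero, map_zero, W'.op_zero, W.op_zero, LinearMap.zero_comp,
      LinearMap.comp_zero]
  · rw [W.kun_symm_tm, TensorProduct.map_tmul, W'.kun_tmul]
    ext y
    rw [W'.op_tm, LinearMap.comp_apply, LinearMap.comp_apply, W.op_tm, map_smul]
    congr 1
    show W'.tr D.ZΩ (D.base b * y) = W.tr Z (b * D.base.symm y)
    rw [← D.base_tr (b * D.base.symm y), map_mul D.base, AlgEquiv.apply_symm_apply]
  · rw [map_add, map_add, map_add, W'.op_add, W.op_add, hu, hv, LinearMap.add_comp,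
      LinearMap.comp_add]

/-- Galois invariant algebraic classes on `Y × Y` -/
theorem classes {a : W'.H (D.Y ⊗ D.Y)} (ha : a ∈ W'.Alg (D.Y ⊗ D.Y) (W'.dim D.Y))
    (hG : ∀ g, W'.tens (D.galois g).toLinearMap (D.galois g).toLinearMap a = a) :
    ∃ κ : ℚ, ∃ w ∈ W.Alg (Z ⊗ Z) (W'.dim D.Y),
      W'.op a = (κ : K) • LinearMap.id + D.res ∘ₗ W.op w ∘ₗ D.gys := by
  classical
  obtain ⟨A, hA, rfl⟩ := C'.cl_alg.1 ha
  -- average over the orbit
  set O : Finset (T.CH (C'.sch.obj (D.Y ⊗ D.Y))) := (D.orbit A).toFinset with hO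
  have hmem : ∀ x, x ∈ O ↔ ∃ g, T.pull (D.act g) A = x := by
    intro x
    rw [hO, Set.Finite.mem_toFinset, Set.mem_range]
  have hA1 : A ∈ O := (hmem A).2 ⟨1, by rw [D.act_one, T.pull_id]⟩
  have hcl : ∀ x ∈ O, C'.cl (D.Y ⊗ D.Y) x = C'.cl (D.Y ⊗ D.Y) A := by
    intro x hx
    obtain ⟨g, rfl⟩ := (hmem x).1 hx
    rw [D.galois_cl]
    exact hG g
  have hgr : ∀ x ∈ O, x ∈ T.gr _ (W'.dim D.Y) := by
    intro x hx
    obtain ⟨g, rfl⟩ := (hmem x).1 hx
    exact T.pull_gr _ hA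
  have hinj : ∀ g, Function.Injective (T.pull (D.act g)) := by
    intro g x y hxy
    have h1 : ∀ z, T.pull (D.act g⁻¹) (T.pull (D.act g) z) = z := by
      intro z
      rw [← T.pull_comp, ← D.act_mul, inv_mul_cancel, D.act_one, T.pull_id]
    rw [← h1 x, ← h1 y, hxy]
  have hinv : ∀ g, T.pull (D.act g) (∑ x ∈ O, x) = ∑ x ∈ O, x := by
    intro g
    rw [map_sum]
    refine Finset.sum_bij (fun x _ => T.pull (D.act g) x) (fun x hx => ?_)
      (fun x _ y _ hxy => hinj g hxy) (fun y hy => ?_) (fun x _ => rfl)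
    · obtain ⟨g', rfl⟩ := (hmem x).1 hx
      exact (hmem _).2 ⟨g * g', by rw [D.act_mul, T.pull_comp]⟩
    · obtain ⟨g', rfl⟩ := (hmem y).1 hy
      refine ⟨T.pull (D.act (g⁻¹ * g')) A, (hmem _).2 ⟨_, rfl⟩, ?_⟩
      rw [← T.pull_comp, ← D.act_mul, mul_inv_cancel_left]
  obtain ⟨B, hB, hB1⟩ := D.descent (Submodule.sum_mem _ hgr) hinv
  obtain ⟨κ, w, hw, hBw⟩ := D.spread hB
  -- the classes
  have hn : (O.card : K) ≠ 0 := Nat.cast_ne_zero.2 (Finset.card_ne_zero.2 ⟨A, hA1⟩)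
  have e1 : C'.cl (D.Y ⊗ D.Y) (∑ x ∈ O, x) = (O.card : K) • C'.cl (D.Y ⊗ D.Y) A := by
    rw [map_sum, Finset.sum_congr rfl hcl, Finset.sum_const, Nat.cast_smul_eq_nsmul]
  have e2 : W'.op (C'.cl (D.Y ⊗ D.Y) (∑ x ∈ O, x)) =
      (κ : K) • LinearMap.id + D.res ∘ₗ W.op (C.cl (Z ⊗ Z) w) ∘ₗ D.gys := by
    have e3 : C'.cl (D.Y ⊗ D.Y) (T.pull D.b (T.pull D.ii w)) =
        W'.pull (WeilCohomology.prodMap D.i D.i) (W'.kun D.ZΩ D.ZΩ (TensorProduct.map
          D.base.toLinearMap D.base.toLinearMap ((W.kun Z Z).symm (C.cl (Z ⊗ Z) w)))) := by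
      rw [← T.pull_comp, ← D.square, T.pull_comp, C'.cl_pull, D.base_cl]
    rw [← hB1, hBw, map_add, map_smul, map_add, C'.cl_smul, D.cl_Δ, W'.op_add, W'.op_smul,
      W'.op_diag_id, e3, W'.op_pull, D.op_base]
    rfl
  rw [e1, W'.op_smul] at e2
  refine ⟨(O.card : ℚ)⁻¹ * κ, (((O.card : ℚ)⁻¹ : ℚ) : K) • C.cl (Z ⊗ Z) w,
    W.alg_rat _ (C.cl_alg.2 ⟨w, hw, rfl⟩), ?_⟩
  rw [W.op_smul, LinearMap.smul_comp, LinearMap.comp_smul, Rat.cast_mul, mul_smul, ← smul_add,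
    ← e2, Rat.cast_inv, Rat.cast_natCast, smul_smul, inv_mul_cancel₀ hn, one_smul]

/-- the sign conjecture for `Y` gives a partial inverse of the Lefschetz operator of `Z` -/
theorem exists_inverse (hZ : Even (W.dim Z)) (hs : W'.Sign D.Y) :
    ∃ w ∈ W.Cor Z Z (-1), ∀ (i : ℕ) (x : W.H Z), x ∈ W.gr Z i →
      h * w (h * x) = if Even i then h * x else 0 := by
  obtain ⟨a, ha, hea⟩ := (W'.mem_cor_zero).1 ((W'.sign_iff).1 hs)
  -- the class of the even projector is Galois invariant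
  have hG : ∀ g, W'.tens (D.galois g).toLinearMap (D.galois g).toLinearMap a = a := by
    intro g
    refine W'.op_inj ?_
    rw [W'.op_conj (D.galois g) (D.galois_tr g), ← hea]
    refine LinearMap.ext fun y => ?_
    show D.galois g (W'.even D.Y ((D.galois g).symm y)) = W'.even D.Y y
    obtain ⟨y, rfl⟩ := (D.galois g).surjective y
    rw [AlgEquiv.symm_apply_apply]
    refine W'.ind (P := fun y => D.galois g (W'.even D.Y y) = W'.even D.Y (D.galois g y)) y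
      (by simp) (fun i y hy => ?_) (fun r s hr hs => by simp only [map_add, hr, hs])
    rcases Nat.even_or_odd i with hi | hi
    · rw [W'.even_even hy hi, W'.even_even (D.galois_gr g hy) hi]
    · rw [W'.even_odd hy hi, W'.even_odd (D.galois_gr g hy) hi, map_zero]
  obtain ⟨κ, w, hw, hκ⟩ := D.classes ha hG
  rw [← hea] at hκ
  have hd := D.dim_Y
  have hodd : Odd (W'.dim D.Y) := by
    rw [← hd] at hZ
    rcases Nat.even_or_odd (W'.dim D.Y) with h1 | h1
    · exact absurd hZ (Nat.not_even_iff_odd.2 h1.add_one)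
    · exact h1
  -- a vanishing class
  obtain ⟨y, hy, hy0, hgy⟩ : ∃ y ∈ W'.gr D.Y (W'.dim D.Y), y ≠ 0 ∧ D.gys y = 0 := by
    by_contra hcon
    push Not at hcon
    have hr : ∀ y : W'.gr D.Y (W'.dim D.Y), D.gys y ∈ W.gr Z (W.dim Z + 1) := by
      intro y
      have h1 := D.gys_gr y.2
      have h2 : W'.dim D.Y + 2 = W.dim Z + 1 := by omega
      rwa [h2] at h1
    have h1 : Function.Injective
        ((D.gys ∘ₗ (W'.gr D.Y (W'.dim D.Y)).subtype).codRestrict (W.gr Z (W.dim Z + 1)) hr) := by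
      rw [injective_iff_map_eq_zero]
      intro y hy
      have h2 : D.gys y = 0 := congrArg Subtype.val hy
      by_contra h3
      exact hcon y.1 y.2 (fun h4 => h3 (Subtype.ext h4)) h2
    exact absurd (LinearMap.finrank_le_finrank_of_injective h1) (not_le.2 D.betti)
  have hκ0 : (κ : K) = 0 := by
    have h1 := LinearMap.congr_fun hκ y
    rw [W'.even_odd hy hodd, LinearMap.add_apply, LinearMap.smul_apply, LinearMap.id_apply,
      LinearMap.comp_apply, LinearMap.comp_apply, hgy, map_zero, map_zero, add_zero] at h1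
    rcases smul_eq_zero.1 h1.symm with h2 | h2
    · exact h2
    · exact absurd h2 hy0
  rw [hκ0, zero_smul, zero_add] at hκ
  have hm : (D.m : K) ≠ 0 := Nat.cast_ne_zero.2 D.m_pos.ne'
  refine ⟨((D.m : ℚ) : K) • W.op w, W.cor_rat (W.mem_cor.2 (Or.inr ⟨_, w, by omega, hw, rfl⟩)) _,
    fun i x hx => ?_⟩
  have h1 : W'.even D.Y (D.res x) = if Even i then D.res x else 0 := by
    split_ifs with hi
    · exact W'.even_even (D.res_gr hx) hi
    · exact W'.even_odd (D.res_gr hx) (Nat.not_even_iff_odd.1 hi)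
  have h2 : D.gys (W'.even D.Y (D.res x)) = if Even i then (D.m • h) * x else 0 := by
    rw [h1]
    split_ifs
    · exact D.gys_res x
    · exact map_zero _
  rw [hκ] at h2
  change D.gys (D.res (W.op w (D.gys (D.res x)))) = _ at h2
  rw [D.gys_res, D.gys_res] at h2
  simp only [smul_mul_assoc, ← Nat.cast_smul_eq_nsmul K, map_smul, mul_smul_comm] at h2
  rw [Rat.cast_natCast, LinearMap.smul_apply, mul_smul_comm]
  have h3 : (D.m : K) • ((D.m : K) • (h * W.op w (h * x))) =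
      (D.m : K) • (if Even i then h * x else 0) := by
    rw [h2]
    split_ifs
    · rfl
    · rw [smul_zero]
  have h4 := congrArg (fun z => (D.m : K)⁻¹ • z) h3
  simp only [smul_smul, inv_mul_cancel₀ hm, one_smul] at h4
  rw [← mul_assoc, inv_mul_cancel₀ hm, one_mul] at h4
  exact h4

end GenericSection

end Pool.Agent.Lib.MP_4ca46c_ag.Geo
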