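import Pool.Agent.Lib.MP_4ca46c_ag.Geo.Box
import Pool.Agent.Lib.MP_4ca46c_ag.Geo.Section

/-!
# The theorem for an abstract family of Weil cohomology theories
-/

set_option autoImplicit false

open CategoryTheory MonoidalCategory CartesianMonoidalCategory TensorProduct

namespace Pool.Agent.Lib.MP_4ca46c_ag.Geo

universe v u v' u' t

open WeilCohomology

variable {K : Type} [Field K] [CharZero K]

/-- **Local theorem.** -/
theorem conj_of_section {𝒱 𝒱' : Type u} [Category.{v} 𝒱] [CartesianMonoidalCategory 𝒱]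
    [Category.{v} 𝒱'] [CartesianMonoidalCategory 𝒱'] {𝒮 : Type u'} [Category.{v'} 𝒮]
    {T : ChowTheory.{v', u', t} 𝒮} {W : WeilCohomology K 𝒱} {W' : WeilCohomology K 𝒱'}
    {C : CycleMap T W} {C' : CycleMap T W'} {X : 𝒱} {h : W.H X} (hh : h ∈ W.Alg X 1)
    (hardX : ∀ i j : ℕ, i + j = W.dim X →
      Set.BijOn (fun x => h ^ j * x) (W.gr X i) (W.gr X (i + 2 * j)))
    (D : GenericSection C C' (X ⊗ X) (W.tm h 1 + W.tm 1 h)) (hs : W'.Sign D.Y) :
    W.Kunneth X ∧ W.Lefschetz X h := by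
  have hE : Even (W.dim (X ⊗ X)) := by rw [W.dim_tensor]; exact ⟨_, rfl⟩
  obtain ⟨w, hw, h1⟩ := D.exists_inverse hE hs
  exact kunneth_lefschetz hh hardX hw h1

/-- A family of Weil cohomology theories, one for every algebraically closed field `k` of some
class, with ample classes, hard Lefschetz and generic hyperplane sections. -/
structure Family (K : Type) [Field K] [CharZero K] where
  /-- regular schemes -/
  𝒮 : Type u'
  [catS : Category.{v'} 𝒮]
  T : ChowTheory.{v', u', t} 𝒮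
  /-- the algebraically closed fields -/
  ι : Type*
  /-- smooth projective varieties over `k` -/
  𝒱 : ι → Type u
  [cat : ∀ k, Category.{v} (𝒱 k)]
  [cart : ∀ k, CartesianMonoidalCategory (𝒱 k)]
  W : ∀ k, WeilCohomology K (𝒱 k)
  C : ∀ k, CycleMap T (W k)
  /-- ample classes -/
  Amp : ∀ {k : ι} (X : 𝒱 k), Set ((W k).H X)
  amp_nonempty : ∀ {k : ι} (X : 𝒱 k), (Amp X).Nonempty
  amp_alg : ∀ {k : ι} {X : 𝒱 k} {h : (W k).H X}, h ∈ Amp X → h ∈ (W k).Alg X 1
  hard : ∀ {k : ι} {X : 𝒱 k} {h : (W k).H X}, h ∈ Amp X → ∀ i j : ℕ, i + j = (W k).dim X →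
    Set.BijOn (fun x => h ^ j * x) ((W k).gr X i) ((W k).gr X (i + 2 * j))
  generic : ∀ {k : ι} {X : 𝒱 k} {h : (W k).H X}, h ∈ Amp X → 0 < (W k).dim X → ∃ k' : ι,
    Nonempty (GenericSection (C k) (C k') (X ⊗ X) ((W k).tm h 1 + (W k).tm 1 h))

attribute [instance] Family.catS Family.cat Family.cart

/-- **The sign conjecture, the Künneth conjecture and the Lefschetz conjecture are
equivalent.** -/
theorem tfae (F : Family.{v, u, v', u', t} K) : List.TFAE [
    ∀ (k : F.ι) (X : F.𝒱 k), (F.W k).Sign X,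
    ∀ (k : F.ι) (X : F.𝒱 k), (F.W k).Kunneth X,
    ∀ (k : F.ι) (X : F.𝒱 k), ∀ h ∈ F.Amp X, (F.W k).Lefschetz X h,
    ∀ (k : F.ι) (X : F.𝒱 k), ∀ h ∈ F.Amp X, LambdaConj (F.W k) X h,
    ∀ (k : F.ι) (X : F.𝒱 k), ∃ h ∈ F.Amp X, LambdaConj (F.W k) X h] := by
  have main : (∀ (k : F.ι) (X : F.𝒱 k), (F.W k).Sign X) → ∀ (k : F.ι) (X : F.𝒱 k),
      ∀ h ∈ F.Amp X, (F.W k).Kunneth X ∧ (F.W k).Lefschetz X h := by
    intro H k X h hh
    rcases Nat.eq_zero_or_pos ((F.W k).dim X) with h0 | h0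
    · exact kunneth_lefschetz_zero h0 h
    · obtain ⟨k', ⟨D⟩⟩ := F.generic hh h0
      exact conj_of_section (F.amp_alg hh) (F.hard hh) D (H k' D.Y)
  tfae_have 1 → 3 := fun H k X h hh => (main H k X h hh).2
  tfae_have 1 → 4 := fun H k X h hh => by
    obtain ⟨Λ, hΛ, h1⟩ := exists_lambda (F.amp_alg hh) (F.hard hh) (main H k X h hh).1
      (main H k X h hh).2
    exact ⟨Λ, hΛ, isLambda_iff.2 h1⟩
  tfae_have 3 → 2 := fun H k X => by
    obtain ⟨h, hh⟩ := F.amp_nonempty X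
    exact Lefschetz.kunneth (F.amp_alg hh) (F.hard hh) (H k X h hh)
  tfae_have 4 → 5 := fun H k X => by
    obtain ⟨h, hh⟩ := F.amp_nonempty X
    exact ⟨h, hh, H k X h hh⟩
  tfae_have 5 → 2 := fun H k X => by
    obtain ⟨h, hh, Λ, hΛ, h1⟩ := H k X
    exact kunneth_of_lambda (F.amp_alg hh) (F.hard hh) hΛ (isLambda_iff.1 h1)
  tfae_have 2 → 1 := fun H k X => (H k X).sign
  tfae_finish

end Pool.Agent.Lib.MP_4ca46c_ag.Geo
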