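import Pool.Agent.Lib.MP_4ca46c_ag.Geo.Four

/-!
# The inverses of the Lefschetz operators are combinations of algebraic correspondences
-/

set_option autoImplicit false

open CategoryTheory MonoidalCategory CartesianMonoidalCategory TensorProduct

namespace Pool.Agent.Lib.MP_4ca46c_ag.Geo

universe v u w

variable {K : Type w} [Field K] [CharZero K] {𝒱 : Type u} [Category.{v} 𝒱]
  [CartesianMonoidalCategory 𝒱]

namespace Data

open WeilCohomology

variable {W : WeilCohomology K 𝒱} {X : 𝒱} (D : Data W X)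

/-- one step of the injectivity of `h` modulo the numerical ideal -/
theorem inj_step {d r : ℕ} (hd : d + r < W.dim X) {f : W.E X} (hf : f ∈ W.R X 0)
    (hdf : f * W.pi X d = f) (hN : D.L ^ (r + 1) * f ∈ W.N X (r + 1)) :
    D.L ^ r * f ∈ W.N X r := by
  have hdf' : W.pi X d * f = f := by rw [pi_comm hf, hdf]
  -- `Om` is concentrated in degree `2 d`
  have h1 : D.Om r f = D.Om r f * W.tens (W.pi X d) (W.pi X d) := by
    rw [Om, Finset.sum_mul]
    refine Finset.sum_congr rfl fun a _ => ?_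
    rw [smul_mul_assoc, ← tens_mul, mul_assoc, mul_assoc, hdf]
  have h2 : ∀ z : W.H (X ⊗ X), (W.tens (W.pi X d) (W.pi X d) : W.E (X ⊗ X)) z ∈
      W.gr (X ⊗ X) (2 * d) := by
    intro z
    refine W.ind_tm (P := fun z => (W.tens (W.pi X d) (W.pi X d) : W.E (X ⊗ X)) z ∈
      W.gr (X ⊗ X) (2 * d)) z (by rw [map_zero]; exact Submodule.zero_mem _) (fun a b => ?_)
      (fun u v hu hv => by rw [map_add]; exact Submodule.add_mem _ hu hv)
    rw [W.tens_tm, two_mul]
    exact W.tm_gr (W.pi_mem d a) (W.pi_mem d b)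
  have h3 : D.Om r f = (D.w : W.E (X ⊗ X)) * (D.HH * D.Om r f) := by
    refine LinearMap.ext fun z => ?_
    have h4 : D.Om r f z ∈ W.gr (X ⊗ X) (2 * d + 2 * r) := by
      rw [h1, Module.End.mul_apply]
      exact R_gr (D.Om_mem r hf) (h2 z) (by push_cast; ring)
    have hE : Even (2 * d + 2 * r) := ⟨d + r, by ring⟩
    simp only [Module.End.mul_apply]
    rw [← sub_eq_zero]
    refine D.HH_inj (i := 2 * d + 2 * r) (by rw [W.dim_tensor]; omega)
      (Submodule.sub_mem _ h4 ?_) ?_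
    · have h5 := R_gr D.HH_mem h4 (m := 2 * d + 2 * r + 2) (by push_cast; ring)
      exact R_gr D.w_mem h5 (by push_cast; ring)
    · rw [map_sub, D.w_spec hE h4, sub_self]
  have h6 : D.Om r f ∈ W.N (X ⊗ X) r := by
    rw [h3]
    exact N_cast (N_mul_left (D.HH_Om_N r hf hN) D.w_mem) (by ring)
  -- project to the component `a = r`
  have h7 : W.tens (W.pi X (d + 2 * r)) (W.pi X d) * D.Om r f =
      ((-1 : K) ^ r) • W.tens (D.L ^ r * f) f := by
    have h8 : ∀ (a m : ℕ), W.pi X m * (D.L ^ a * f) = if m = d + 2 * a then D.L ^ a * f else 0 := by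
      intro a m
      have h9 : D.L ^ a * f = W.pi X (d + 2 * a) * (D.L ^ a * f) := by
        have h10 : W.pi X (d + 2 * a) * D.L ^ a = D.L ^ a * W.pi X d :=
          R_pi (D.L_pow_mem a) (by push_cast; ring)
        rw [← mul_assoc, h10, mul_assoc, hdf']
      split_ifs with hm
      · rw [hm, ← h9]
      · rw [h9, ← mul_assoc, pi_mul_ne hm, zero_mul]
    rw [Om, Finset.mul_sum, Finset.sum_eq_single_of_mem r (Finset.mem_range.2 (Nat.lt_succ_self r))]
    · rw [mul_smul_comm, ← tens_mul, h8, h8, Nat.sub_self, if_pos rfl, if_pos (by ring), pow_zero,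
        one_mul]
    · intro a ha hne
      rw [mul_smul_comm, ← tens_mul, h8, if_neg (by omega), W.tens_zero_left, smul_zero]
  have h11 : (W.tens (D.L ^ r * f) f : W.E (X ⊗ X)) ∈ W.N (X ⊗ X) (r + 0) := by
    have h12 : (W.tens (D.L ^ r * f) f : W.E (X ⊗ X)) =
        ((-1 : K) ^ r) • (W.tens (W.pi X (d + 2 * r)) (W.pi X d) * D.Om r f) := by
      rw [h7, smul_smul, ← pow_add, Even.neg_one_pow ⟨r, rfl⟩, one_smul]
    rw [h12]
    exact Submodule.smul_mem _ _ (N_cast (N_mul_left h6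
      (R_tens (D.pi_mem_R (d + 2 * r)) (D.pi_mem_R d))) (by ring))
  rcases N_of_tens (R_cast (WeilCohomology.R_mul (D.L_pow_mem r) hf) (by ring)) hf h11 with h12 | h12
  · exact h12
  · exact N_cast (N_mul_left h12 (D.L_pow_mem r)) (by ring)

/-- injectivity of `h^(n-d)` modulo the numerical ideal -/
theorem inj_all {d m : ℕ} (hd : d + m ≤ W.dim X) {f : W.E X} (hf : f ∈ W.R X 0)
    (hdf : f * W.pi X d = f) (hN : D.L ^ m * f ∈ W.N X m) : f ∈ W.N X 0 := by
  induction m with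
  | zero =>
    rw [pow_zero, one_mul] at hN
    exact N_cast hN (by simp)
  | succ m ih =>
    refine ih (by omega) (D.inj_step (by omega) hf hdf (N_cast hN (by push_cast; ring)))

/-- a left inverse of `h^(n-d)` on `H^d` modulo nilpotents -/
theorem exists_g {d m : ℕ} (hd : d + m = W.dim X) : ∃ g ∈ W.R X (-m), ∃ ν ∈ W.N X 0,
    W.pi X d = W.pi X d * g * D.L ^ m * W.pi X d + ν := by
  -- the algebra of the part
  let B : Submodule K (W.E X) := (W.R X 0).map
    (LinearMap.mulLeft K (W.pi X d : W.E X) ∘ₗ LinearMap.mulRight K (W.pi X d : W.E X))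
  let J : Submodule K (W.E X) := (W.R X (-m)).map
    (LinearMap.mulLeft K (W.pi X d : W.E X) ∘ₗ LinearMap.mulRight K (D.L ^ m * W.pi X d))
  let Nd : Submodule K (W.E X) := W.N X 0 ⊓ B
  have hB : ∀ x, x ∈ B ↔ x ∈ W.R X 0 ∧ x * W.pi X d = x := by
    intro x
    constructor
    · rintro ⟨y, hy, rfl⟩
      show W.pi X d * (y * W.pi X d) ∈ W.R X 0 ∧ W.pi X d * (y * W.pi X d) * W.pi X d = _
      refine ⟨R_cast (WeilCohomology.R_mul (D.pi_mem_R d)
        (WeilCohomology.R_mul hy (D.pi_mem_R d))) (by ring), ?_⟩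
      show W.pi X d * (y * W.pi X d) * W.pi X d = W.pi X d * (y * W.pi X d)
      rw [mul_assoc, mul_assoc, pi_mul_self]
    · rintro ⟨hx, hx1⟩
      refine ⟨x, hx, ?_⟩
      show W.pi X d * (x * W.pi X d) = x
      rw [hx1, pi_comm hx, hx1]
  have hJ : ∀ x, x ∈ J ↔ ∃ g ∈ W.R X (-m), x = W.pi X d * g * D.L ^ m * W.pi X d := by
    intro x
    constructor
    · rintro ⟨g, hg, rfl⟩
      refine ⟨g, hg, ?_⟩
      show W.pi X d * (g * (D.L ^ m * W.pi X d)) = _
      simp only [mul_assoc]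
    · rintro ⟨g, hg, rfl⟩
      refine ⟨g, hg, ?_⟩
      show W.pi X d * (g * (D.L ^ m * W.pi X d)) = _
      simp only [mul_assoc]
  have hJB : J ≤ B := by
    intro x hx
    obtain ⟨g, hg, rfl⟩ := (hJ x).1 hx
    rw [hB]
    refine ⟨R_cast (WeilCohomology.R_mul (WeilCohomology.R_mul (WeilCohomology.R_mul
      (D.pi_mem_R d) hg) (D.L_pow_mem m)) (D.pi_mem_R d)) (by ring), ?_⟩
    rw [mul_assoc, pi_mul_self]
  have hmem : W.pi X d ∈ J ⊔ Nd := by
    by_contra hcon
    have hcon' : ¬ B ≤ J ⊔ Nd := fun h => hcon (h ((hB _).2 ⟨D.pi_mem_R d, pi_mul_self d⟩))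
    obtain ⟨f, hf, ⟨y, hy, hyf⟩, hfJ⟩ := exists_orth_alg (W.t X) t_comm B (J ⊔ Nd)
      (fun x hx h => by
        refine le_sup_right (a := J) (show x ∈ Nd from ⟨⟨((hB x).1 hx).1, fun g hg => ?_⟩, hx⟩)
        rw [neg_zero] at hg
        have h1 := h (W.pi X d * g * W.pi X d) ((hB _).2 ⟨R_cast (WeilCohomology.R_mul
          (WeilCohomology.R_mul (D.pi_mem_R d) hg) (D.pi_mem_R d)) (by ring), by
            rw [mul_assoc, pi_mul_self]⟩)
        have h2 : W.pi X d * x = x := by rw [pi_comm ((hB x).1 hx).1, ((hB x).1 hx).2]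
        have h3 : W.pi X d * g * W.pi X d * x = W.pi X d * (g * x) := by
          rw [mul_assoc, h2, mul_assoc]
        rw [h3, t_comm, mul_assoc, ((hB x).1 hx).2] at h1
        exact h1) hcon' (sup_le hJB inf_le_right)
    obtain ⟨hfR, hfd⟩ := (hB f).1 hf
    have hN : D.L ^ m * f ∈ W.N X m := by
      refine ⟨R_cast (WeilCohomology.R_mul (D.L_pow_mem m) hfR) (by ring), fun g hg => ?_⟩
      have h1 := hfJ _ (le_sup_left (b := Nd) ((hJ _).2 ⟨g, hg, rfl⟩))
      have h2 : W.pi X d * f = f := by rw [pi_comm hfR, hfd]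
      have h3 : W.pi X d * g * D.L ^ m * W.pi X d * f = W.pi X d * (g * (D.L ^ m * f)) := by
        rw [mul_assoc _ (W.pi X d : W.E X) f, h2]
        simp only [mul_assoc]
      rw [h3, t_comm] at h1
      have h4 : g * (D.L ^ m * f) * W.pi X d = g * (D.L ^ m * f) := by
        simp only [mul_assoc]
        rw [hfd]
      rwa [h4] at h1
    have hfN := D.inj_all (le_of_eq hd) hfR hfd hN
    exact hyf (hfN.2 y (by rw [neg_zero]; exact ((hB y).1 hy).1))
  obtain ⟨x, hx, ν, hν, hxν⟩ := Submodule.mem_sup.1 hmem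
  obtain ⟨g, hg, rfl⟩ := (hJ x).1 hx
  exact ⟨g, hg, ν, hν.1, hxν.symm⟩

/-- the inverse of `h^(n-d)` on `H^d` is a combination of algebraic correspondences -/
theorem exists_theta {d m : ℕ} (hd : d + m = W.dim X) : ∃ g ∈ W.R X (-m),
    g * D.L ^ m * W.pi X d = W.pi X d := by
  obtain ⟨g, hg, ν, hν, h⟩ := D.exists_g hd
  obtain ⟨k, hk⟩ := N_nilpotent hν
  have hνR := hν.1
  have h1 : W.pi X d * g * D.L ^ m * W.pi X d = (1 - ν) * W.pi X d := by
    have h2 : W.pi X d * ν = ν * W.pi X d := pi_comm hνR d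
    have h3 := congrArg (fun z => z * W.pi X d) h
    simp only [add_mul, pi_mul_self] at h3
    have h4 : W.pi X d * g * D.L ^ m * W.pi X d * W.pi X d =
        W.pi X d * g * D.L ^ m * W.pi X d := by rw [mul_assoc _ (W.pi X d : W.E X), pi_mul_self]
    rw [h4] at h3
    rw [sub_mul, one_mul, eq_sub_iff_add_eq]
    exact h3.symm
  have hS : (∑ i ∈ Finset.range k, ν ^ i) ∈ W.R X 0 :=
    Submodule.sum_mem _ fun i _ => R_pow hνR i
  refine ⟨(∑ i ∈ Finset.range k, ν ^ i) * (W.pi X d * g), R_cast (WeilCohomology.R_mul hS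
    (WeilCohomology.R_mul (D.pi_mem_R d) hg)) (by ring), ?_⟩
  have h2 : (∑ i ∈ Finset.range k, ν ^ i) * (W.pi X d * g) * D.L ^ m * W.pi X d =
      (∑ i ∈ Finset.range k, ν ^ i) * (W.pi X d * g * D.L ^ m * W.pi X d) := by
    simp only [mul_assoc]
  rw [h2, h1, ← mul_assoc, geom_sum_mul_neg, hk, sub_zero, one_mul]

end Data

end Pool.Agent.Lib.MP_4ca46c_ag.Geo
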