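import Pool.Agent.Lib.MP_4ca46c_ag.Geo.Poly

/-!
# The projectors are combinations of algebraic correspondences
-/

set_option autoImplicit false

open CategoryTheory MonoidalCategory CartesianMonoidalCategory TensorProduct

namespace Pool.Agent.Lib.MP_4ca46c_ag.Geo

universe v u w

/-- a proper subspace containing the radical of a symmetric form has a nontrivial orthogonal
vector -/
theorem exists_orth {K V : Type*} [Field K] [AddCommGroup V] [Module K V] [FiniteDimensional K V]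
    (B : LinearMap.BilinForm K V) (hB : ∀ x y, B x y = B y x) (p : Submodule K V)
    (hrad : ∀ x, (∀ y, B y x = 0) → x ∈ p) (hp : p ≠ ⊤) :
    ∃ e, (∃ y, B y e ≠ 0) ∧ ∀ l ∈ p, B l e = 0 := by
  have hrefl : B.IsRefl := fun x y h => by rw [hB, h]
  have h1 := LinearMap.BilinForm.finrank_add_finrank_orthogonal hrefl p
  have h2 : p ⊓ B.orthogonal ⊤ = B.orthogonal ⊤ := by
    refine inf_eq_right.2 fun x hx => hrad x fun y => ?_
    exact (LinearMap.BilinForm.mem_orthogonal_iff.1 hx) y Submodule.mem_top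
  rw [h2] at h1
  have h3 := Submodule.finrank_lt hp
  have h4 : ¬ B.orthogonal p ≤ B.orthogonal ⊤ := by
    intro hle
    have := Submodule.finrank_mono hle
    omega
  rw [SetLike.not_le_iff_exists] at h4
  obtain ⟨e, he, he'⟩ := h4
  refine ⟨e, ?_, fun l hl => (LinearMap.BilinForm.mem_orthogonal_iff.1 he) l hl⟩
  by_contra hcon
  push Not at hcon
  exact he' (LinearMap.BilinForm.mem_orthogonal_iff.2 fun y _ => hcon y)

/-- the same for the form `t (x * y)` on a subspace of an algebra -/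
theorem exists_orth_alg {K A : Type*} [Field K] [Ring A] [Algebra K A] [FiniteDimensional K A]
    (t : A →ₗ[K] K) (ht : ∀ x y, t (x * y) = t (y * x)) (R p : Submodule K A)
    (hrad : ∀ x ∈ R, (∀ y ∈ R, t (y * x) = 0) → x ∈ p) (hp : ¬ R ≤ p) (hpR : p ≤ R) :
    ∃ e ∈ R, (∃ y ∈ R, t (y * e) ≠ 0) ∧ ∀ l ∈ p, t (l * e) = 0 := by
  obtain ⟨e, ⟨y, hy⟩, h1⟩ := exists_orth (V := R)
    (LinearMap.mk₂ K (fun x y : R => t (x.1 * y.1))
      (fun a b c => by rw [Submodule.coe_add, add_mul, map_add])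
      (fun a b c => by rw [Submodule.coe_smul, smul_mul_assoc, map_smul])
      (fun a b c => by rw [Submodule.coe_add, mul_add, map_add])
      (fun a b c => by rw [Submodule.coe_smul, mul_smul_comm, map_smul]))
    (fun x y => ht _ _) (p.comap R.subtype) (fun x hx => hrad x.1 x.2 fun y hy => hx ⟨y, hy⟩)
    (fun htop => hp fun x hx => by
      have : (⟨x, hx⟩ : R) ∈ p.comap R.subtype := by rw [htop]; trivial
      exact this)
  exact ⟨e.1, e.2, ⟨y.1, y.2, hy⟩, fun l hl => h1 ⟨l, hpR hl⟩ hl⟩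

variable {K : Type w} [Field K] [CharZero K] {𝒱 : Type u} [Category.{v} 𝒱]
  [CartesianMonoidalCategory 𝒱]

namespace Data

open WeilCohomology

variable {W : WeilCohomology K 𝒱} {X : 𝒱} (D : Data W X)

/-- operators of degree zero numerically trivial on `H^j` -/
def S (W : WeilCohomology K 𝒱) (X : 𝒱) (j : ℕ) : Submodule K (W.E X) where
  carrier := {x | x ∈ W.R X 0 ∧ ∀ a ∈ W.R X 0, W.t X (x * a * W.pi X j) = 0}
  add_mem' := fun {f g} hf hg => ⟨Submodule.add_mem _ hf.1 hg.1, fun k hk => by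
    rw [add_mul, add_mul, map_add, hf.2 k hk, hg.2 k hk, add_zero]⟩
  zero_mem' := ⟨Submodule.zero_mem _, fun k _ => by rw [zero_mul, zero_mul, map_zero]⟩
  smul_mem' := fun a f hf => ⟨Submodule.smul_mem _ a hf.1, fun k hk => by
    rw [smul_mul_assoc, smul_mul_assoc, map_smul, hf.2 k hk, smul_zero]⟩

/-- operators of degree zero numerically trivial away from `H^i` -/
def P (W : WeilCohomology K 𝒱) (X : 𝒱) (i : ℕ) : Submodule K (W.E X) :=
  W.R X 0 ⊓ ⨅ j, ⨅ (_ : j ≠ i), S W X j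

theorem mem_S {j : ℕ} {x : W.E X} : x ∈ S W X j ↔ x ∈ W.R X 0 ∧
    ∀ a ∈ W.R X 0, W.t X (x * a * W.pi X j) = 0 := Iff.rfl

theorem mem_P {i : ℕ} {x : W.E X} : x ∈ P W X i ↔ x ∈ W.R X 0 ∧
    ∀ j ≠ i, ∀ a ∈ W.R X 0, W.t X (x * a * W.pi X j) = 0 := by
  simp only [P, Submodule.mem_inf, Submodule.mem_iInf, mem_S]
  constructor
  · exact fun h => ⟨h.1, fun j hj a ha => (h.2 j hj).2 a ha⟩
  · exact fun h => ⟨h.1, fun j hj => ⟨h.1, fun a ha => h.2 j hj a ha⟩⟩

theorem P_le_S {i j : ℕ} (h : i ≠ j) : P W X i ≤ S W X j :=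
  fun _ hx => mem_S.2 ⟨(mem_P.1 hx).1, (mem_P.1 hx).2 j h.symm⟩

/-- the trace on a part is cyclic in degree zero -/
theorem t_pi_comm {a b : W.E X} (ha : a ∈ W.R X 0) (j : ℕ) :
    W.t X (a * b * W.pi X j) = W.t X (b * a * W.pi X j) := by
  rw [mul_assoc, t_comm, mul_assoc, pi_comm ha, mul_assoc]

theorem P_mul {i : ℕ} {x b : W.E X} (hx : x ∈ P W X i) (hb : b ∈ W.R X 0) : x * b ∈ P W X i := by
  rw [mem_P] at hx ⊢
  refine ⟨R_cast (R_mul hx.1 hb) (by ring), fun j hj a ha => ?_⟩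
  rw [mul_assoc x]
  exact hx.2 j hj _ (R_cast (R_mul hb ha) (by ring))

theorem mul_P {i : ℕ} {x b : W.E X} (hx : x ∈ P W X i) (hb : b ∈ W.R X 0) : b * x ∈ P W X i := by
  rw [mem_P] at hx ⊢
  refine ⟨R_cast (R_mul hb hx.1) (by ring), fun j hj a ha => ?_⟩
  rw [mul_assoc b, t_pi_comm hb, mul_assoc x]
  exact hx.2 j hj _ (R_cast (R_mul ha hb) (by ring))

theorem N_le_P (i : ℕ) : W.N X 0 ≤ P W X i := by
  intro x hx
  rw [mem_P]
  refine ⟨hx.1, fun j _ a ha => ?_⟩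
  exact N_t_pi (N_cast (N_mul_right hx ha) (by ring)) j

/-- the sum of the ideals -/
def p (W : WeilCohomology K 𝒱) (X : 𝒱) : Submodule K (W.E X) := ⨆ i, P W X i

theorem p_le : p W X ≤ W.R X 0 := iSup_le fun _ _ hx => (mem_P.1 hx).1

theorem N_le_p : W.N X 0 ≤ p W X := (N_le_P 0).trans (le_iSup (P W X) 0)

theorem mul_p {x b : W.E X} (hx : x ∈ p W X) (hb : b ∈ W.R X 0) : b * x ∈ p W X := by
  refine Submodule.iSup_induction (P W X) (motive := fun x => b * x ∈ p W X) hx (fun i x hx => ?_)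
    (by rw [mul_zero]; exact Submodule.zero_mem _) (fun x y hx hy => by
      rw [mul_add]; exact Submodule.add_mem _ hx hy)
  exact Submodule.mem_iSup_of_mem i (mul_P hx hb)

/-- powers of `h` vanish -/
theorem L_pow_zero {r : ℕ} (hr : W.dim X < r) : D.L ^ r = 0 := by
  refine W.hom_ext fun i x hx => ?_
  exact W.gr_top (R_gr (D.L_pow_mem r) hx (m := i + 2 * r) (by push_cast; ring)) (by omega)

/-- an operator orthogonal to `p` -/
theorem exists_e (hcon : ¬ W.R X 0 ≤ p W X) : ∃ e ∈ W.R X 0, e ∉ W.N X 0 ∧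
    ∀ l ∈ p W X, l * e ∈ W.N X 0 := by
  obtain ⟨e, he, ⟨y, hy, hye⟩, hep⟩ := exists_orth_alg (W.t X) t_comm (W.R X 0) (p W X)
    (fun x hx h => N_le_p ⟨hx, fun g hg => h g (by rwa [neg_zero] at hg)⟩) hcon p_le
  have heN : e ∉ W.N X 0 := fun h => hye (h.2 y (by rwa [neg_zero]))
  refine ⟨e, he, heN, fun l hl => ⟨R_cast (WeilCohomology.R_mul (p_le hl) he) (by ring),
    fun g hg => ?_⟩⟩
  rw [← mul_assoc]
  exact hep _ (mul_p hl (by rwa [neg_zero] at hg))

/-- the maximal power of `h` -/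
theorem exists_max {e : W.E X} (heN : e ∉ W.N X 0) : ∃ (r : ℕ) (s : ℤ) (x : W.E X), x ∈ W.R X s ∧
    D.L ^ r * x * e ∉ W.N X (r + s) ∧ ∀ (s' : ℤ) (z : W.E X), z ∈ W.R X s' →
      D.L ^ (r + 1) * z * e ∈ W.N X ((r + 1 : ℕ) + s') := by
  classical
  have hex : ∃ r : ℕ, ∃ (s : ℤ) (x' : W.E X), x' ∈ W.R X s ∧
      D.L ^ r * x' * e ∉ W.N X (r + s) := by
    refine ⟨0, 0, 1, R_one, ?_⟩
    rw [pow_zero, one_mul, one_mul]
    simpa using heN
  have hbd : ∀ r : ℕ, (∃ (s : ℤ) (x' : W.E X), x' ∈ W.R X s ∧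
      D.L ^ r * x' * e ∉ W.N X (r + s)) → r ≤ W.dim X := by
    rintro r ⟨s, x', _, h⟩
    by_contra hr
    rw [D.L_pow_zero (by omega), zero_mul, zero_mul] at h
    exact h (Submodule.zero_mem _)
  obtain ⟨r0, hr0⟩ := hex
  obtain ⟨s, x', hx', hxN⟩ := Nat.findGreatest_spec (P := fun r => ∃ (s : ℤ) (x' : W.E X),
    x' ∈ W.R X s ∧ D.L ^ r * x' * e ∉ W.N X (r + s)) (hbd r0 hr0) hr0
  refine ⟨_, s, x', hx', hxN, fun s' z hz => ?_⟩
  by_contra hcon2
  have h1 := Nat.le_findGreatest (P := fun r => ∃ (s : ℤ) (x' : W.E X), x' ∈ W.R X s ∧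
      D.L ^ r * x' * e ∉ W.N X (r + s)) (hbd _ ⟨s', z, hz, hcon2⟩) ⟨s', z, hz, hcon2⟩
  omega

section step

variable {r : ℕ} {s : ℤ} {x e c : W.E X}

theorem step_g (hx : x ∈ W.R X s) (he : e ∈ W.R X 0) (hc : c ∈ W.R X (-(r + s))) :
    x * e * c ∈ W.R X (-r) :=
  R_cast (WeilCohomology.R_mul (WeilCohomology.R_mul hx he) hc) (by ring)

theorem step_b (hc : c ∈ W.R X (-(r + s))) : c * D.L ^ r ∈ W.R X (-s) :=
  R_cast (WeilCohomology.R_mul hc (D.L_pow_mem r)) (by ring)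

theorem step_f (hx : x ∈ W.R X s) (he : e ∈ W.R X 0) (hc : c ∈ W.R X (-(r + s))) :
    x * e * c * D.L ^ r ∈ W.R X 0 :=
  R_cast (WeilCohomology.R_mul (step_g hx he hc) (D.L_pow_mem r)) (by ring)

theorem step_fN (hx : x ∈ W.R X s) (hc : c ∈ W.R X (-(r + s)))
    (hmax : ∀ (s' : ℤ) (z : W.E X), z ∈ W.R X s' →
      D.L ^ (r + 1) * z * e ∈ W.N X ((r + 1 : ℕ) + s')) {z : W.E X} (hz : z ∈ W.R X 0) :
    D.L ^ (r + 1) * (x * e * c * D.L ^ r * z) ∈ W.N X (r + 1) := by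
  have e1 : D.L ^ (r + 1) * (x * e * c * D.L ^ r * z) =
      (D.L ^ (r + 1) * x * e) * (c * D.L ^ r * z) := by simp only [mul_assoc]
  rw [e1]
  exact N_cast (N_mul_right (hmax s x hx) (WeilCohomology.R_mul (D.step_b hc) hz))
    (by push_cast; ring)

theorem step_gN (hx : x ∈ W.R X s) (he : e ∈ W.R X 0) (hc : c ∈ W.R X (-(r + s)))
    (hmax : ∀ (s' : ℤ) (z : W.E X), z ∈ W.R X s' →
      D.L ^ (r + 1) * z * e ∈ W.N X ((r + 1 : ℕ) + s')) :
    x * e * c * D.L ^ (r + 1) ∈ W.N X 1 := by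
  refine ⟨R_cast (WeilCohomology.R_mul (step_g hx he hc) (D.L_pow_mem (r + 1)))
    (by push_cast; ring), fun z hz => ?_⟩
  have e1 : z * (x * e * c * D.L ^ (r + 1)) = (z * x * e * c) * D.L ^ (r + 1) := by
    simp only [mul_assoc]
  have e2 : D.L ^ (r + 1) * (z * x * e * c) = (D.L ^ (r + 1) * (z * x) * e) * c := by
    simp only [mul_assoc]
  rw [e1, t_comm, e2, t_comm]
  exact (hmax (-1 + s) (z * x) (WeilCohomology.R_mul hz hx)).2 c (R_cast hc (by push_cast; ring))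

theorem step_l (hx : x ∈ W.R X s) (he : e ∈ W.R X 0) (hc : c ∈ W.R X (-(r + s)))
    (hmax : ∀ (s' : ℤ) (z : W.E X), z ∈ W.R X s' →
      D.L ^ (r + 1) * z * e ∈ W.N X ((r + 1 : ℕ) + s')) {a : W.E X} (ha : a ∈ W.R X 0) {j : ℕ}
    (hj : (j : ℤ) + 2 * s + r ≠ W.dim X) :
    W.t X (c * D.L ^ r * ((x * e * c) * D.L ^ r * (x * e * c * D.L ^ r) * x) * a * W.pi X j) =
      0 := by
  have e1 : c * D.L ^ r * ((x * e * c) * D.L ^ r * (x * e * c * D.L ^ r) * x) * a * W.pi X j =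
      (c * D.L ^ r) * (((x * e * c) * D.L ^ r * (x * e * c * D.L ^ r) * x * a) *
        (W.pi X j : W.E X)) := by simp only [mul_assoc]
  rw [e1, t_comm, mul_assoc]
  by_cases h0 : (j : ℤ) + 2 * s < 0
  · have h1 : W.pi X j * (c * D.L ^ r) = 0 := R_pi_zero (D.step_b hc) (by omega)
    rw [h1, mul_zero, map_zero]
  · have h1 : W.pi X j * (c * D.L ^ r) = (c * D.L ^ r) * W.pi X ((j : ℤ) + 2 * s).toNat :=
      R_pi (D.step_b hc) (by omega)
    have e2 : (x * e * c) * D.L ^ r * (x * e * c * D.L ^ r) * x * a *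
        ((c * D.L ^ r) * W.pi X ((j : ℤ) + 2 * s).toNat) =
        (x * e * c) * D.L ^ r * (x * e * c * D.L ^ r * (x * a * (c * D.L ^ r))) *
          W.pi X ((j : ℤ) + 2 * s).toNat := by simp only [mul_assoc]
    rw [h1, e2]
    have hz : x * a * (c * D.L ^ r) ∈ W.R X 0 :=
      R_cast (WeilCohomology.R_mul (WeilCohomology.R_mul hx ha) (D.step_b hc)) (by ring)
    exact D.lemmaQ r (R_cast (WeilCohomology.R_mul (D.step_f hx he hc) hz) (by ring))
      (step_g hx he hc) (D.step_fN hx hc hmax hz) (D.step_gN hx he hc hmax) (by omega)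

theorem step_lp (hx : x ∈ W.R X s) (he : e ∈ W.R X 0) (hc : c ∈ W.R X (-(r + s)))
    (hmax : ∀ (s' : ℤ) (z : W.E X), z ∈ W.R X s' →
      D.L ^ (r + 1) * z * e ∈ W.N X ((r + 1 : ℕ) + s')) :
    c * D.L ^ r * ((x * e * c) * D.L ^ r * (x * e * c * D.L ^ r) * x) ∈ p W X := by
  refine Submodule.mem_iSup_of_mem ((W.dim X : ℤ) - r - 2 * s).toNat ?_
  rw [mem_P]
  refine ⟨R_cast (WeilCohomology.R_mul (D.step_b hc) (WeilCohomology.R_mul (WeilCohomology.R_mul
    (WeilCohomology.R_mul (step_g hx he hc) (D.L_pow_mem r)) (D.step_f hx he hc)) hx)) (by ring),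
    fun j hj a ha => D.step_l hx he hc hmax ha ?_⟩
  omega

end step

include D in
/-- the main step: all operators of degree zero lie in `p` -/
theorem R_le_p : W.R X 0 ≤ p W X := by
  by_contra hcon
  obtain ⟨e, he, heN, hpe⟩ := exists_e hcon
  obtain ⟨r, s, x, hx, hxN, hmax⟩ := D.exists_max heN
  obtain ⟨c, hc, htc⟩ := not_N (R_cast (WeilCohomology.R_mul (WeilCohomology.R_mul
    (D.L_pow_mem r) hx) he) (show (r : ℤ) + s + 0 = r + s by ring)) hxN
  have hy3 : (c * (D.L ^ r * x * e)) ^ 3 =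
      c * D.L ^ r * ((x * e * c) * D.L ^ r * (x * e * c * D.L ^ r) * x) * e := by
    rw [pow_succ, pow_two]
    simp only [mul_assoc]
  have hN : (c * (D.L ^ r * x * e)) ^ 3 ∈ W.N X 0 := by
    rw [hy3]
    exact hpe _ (D.step_lp hx he hc hmax)
  have hnil : IsNilpotent (c * (D.L ^ r * x * e)) := by
    obtain ⟨k, hk⟩ := N_nilpotent hN
    exact ⟨3 * k, by rw [pow_mul, hk]⟩
  exact htc (LinearMap.isNilpotent_trace_of_isNilpotent hnil).eq_zero

include D in
/-- the projectors are combinations of algebraic correspondences -/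
theorem pi_mem_R (i : ℕ) : W.pi X i ∈ W.R X 0 := by
  have h1 : (1 : W.E X) ∈ P W X i ⊔ ⨆ (l : ℕ) (_ : l ≠ i), P W X l := by
    refine (show p W X ≤ _ from iSup_le fun l => ?_) (D.R_le_p R_one)
    by_cases hl : l = i
    · rw [hl]
      exact le_sup_left
    · exact le_sup_of_le_right (le_iSup₂_of_le l hl le_rfl)
  obtain ⟨x, hx, y, hy, hxy⟩ := Submodule.mem_sup.1 h1
  have hyS : y ∈ S W X i :=
    (show (⨆ (l : ℕ) (_ : l ≠ i), P W X l) ≤ S W X i from iSup₂_le fun l hl => P_le_S hl) hy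
  have hxR := (mem_P.1 hx).1
  have hyR := (mem_S.1 hyS).1
  -- nilpotency on the parts
  set M := Module.finrank K (W.H X) + 1 with hM
  have hnil : ∀ (z : W.E X), z ∈ W.R X 0 → ∀ j, (∀ a ∈ W.R X 0, W.t X (z * a * W.pi X j) = 0) →
      z ^ M * W.pi X j = 0 := by
    intro z hz j hzj
    rw [← pow_mul_pi hz j M (Nat.succ_pos _)]
    refine pow_eq_zero_of_isNilpotent _ (isNilpotent_of_trace_pow _ fun m hm => ?_)
      (Nat.le_succ _)
    rw [pow_mul_pi hz j m hm]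
    obtain ⟨m, rfl⟩ := Nat.exists_eq_succ_of_ne_zero hm.ne'
    rw [pow_succ']
    exact hzj _ (R_pow hz m)
  have hy1 : y = 1 - x := by rw [← hxy, add_sub_cancel_left]
  have key : W.pi X i = 1 - (1 - x ^ M) ^ M := by
    have h2 : ∀ j : ℕ, (1 - (1 - x ^ M) ^ M) * W.pi X j = if j = i then W.pi X j else 0 := by
      intro j
      split_ifs with hj
      · subst hj
        have h3 : (1 - x ^ M) ^ M = (∑ k ∈ Finset.range M, x ^ k) ^ M * (1 - x) ^ M := by
          rw [← mul_neg_geom_sum, ← hy1]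
          have hc : Commute y (∑ k ∈ Finset.range M, x ^ k) := by
            refine Commute.sum_right _ _ _ fun k _ => ?_
            rw [hy1]
            exact ((Commute.one_left _).sub_left ((Commute.refl x).pow_right k))
          rw [hc.mul_pow, (hc.pow_pow M M).eq]
        rw [sub_mul, one_mul, h3, ← hy1, mul_assoc, hnil y hyR j (mem_S.1 hyS).2, mul_zero,
          sub_zero]
      · have h3 : x ^ M * W.pi X j = 0 := hnil x hxR j fun a ha => (mem_P.1 hx).2 j hj a ha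
        have h4 : ∀ k : ℕ, (1 - x ^ M) ^ k * W.pi X j = W.pi X j := by
          intro k
          induction k with
          | zero => rw [pow_zero, one_mul]
          | succ k ih => rw [pow_succ, mul_assoc, sub_mul, one_mul, h3, sub_zero, ih]
        rw [sub_mul, one_mul, h4, sub_self]
    refine W.hom_ext fun j z hz => ?_
    have h3 := LinearMap.congr_fun (h2 j) z
    rw [Module.End.mul_apply, W.pi_same hz] at h3
    rw [h3]
    split_ifs with hj
    · subst hj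
      rfl
    · rw [W.pi_ne hz hj]
      rfl
  rw [key]
  exact Submodule.sub_mem _ R_one (R_pow (Submodule.sub_mem _ R_one (R_pow hxR M)) M)

end Data

end Pool.Agent.Lib.MP_4ca46c_ag.Geo
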