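import Pool.Agent.Lib.MP_4ca46c_ag.Geo.Hard
import Pool.Agent.Lib.MP_4ca46c_ag.Split

/-!
# The numerical ideal
-/

set_option autoImplicit false

open CategoryTheory MonoidalCategory CartesianMonoidalCategory TensorProduct

namespace Pool.Agent.Lib.MP_4ca46c_ag.Geo

universe v u w

namespace WeilCohomology

variable {K : Type w} [Field K] [CharZero K] {𝒱 : Type u} [Category.{v} 𝒱]
  [CartesianMonoidalCategory 𝒱] (W : WeilCohomology K 𝒱) {X Y Z : 𝒱}

/-- endomorphisms of the cohomology -/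
abbrev E (X : 𝒱) := Module.End K (W.H X)

/-- `K`-linear combinations of algebraic correspondences of degree `r` -/
def R (X : 𝒱) (r : ℤ) : Submodule K (W.E X) := Submodule.span K (W.Cor X X r : Set (W.E X))

variable {W}

theorem cor_le {r : ℤ} {f : W.E X} (hf : f ∈ W.Cor X X r) : f ∈ W.R X r := Submodule.subset_span hf

theorem R_mul {r s : ℤ} {f g : W.E X} (hf : f ∈ W.R X r) (hg : g ∈ W.R X s) :
    f * g ∈ W.R X (r + s) := by
  refine Submodule.span_induction (p := fun f _ => f * g ∈ W.R X (r + s)) (fun f hf => ?_)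
    (by rw [zero_mul]; exact Submodule.zero_mem _)
    (fun f f' _ _ h h' => by rw [add_mul]; exact Submodule.add_mem _ h h')
    (fun a f _ h => by rw [smul_mul_assoc]; exact Submodule.smul_mem _ _ h) hf
  refine Submodule.span_induction (p := fun g _ => f * g ∈ W.R X (r + s)) (fun g hg => ?_)
    (by rw [mul_zero]; exact Submodule.zero_mem _)
    (fun f f' _ _ h h' => by rw [mul_add]; exact Submodule.add_mem _ h h')
    (fun a f _ h => by rw [mul_smul_comm]; exact Submodule.smul_mem _ _ h) hg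
  exact cor_le (W.cor_comp hf hg)

theorem R_one : (1 : W.E X) ∈ W.R X 0 := cor_le (W.cor_id X)

theorem R_pow {f : W.E X} (hf : f ∈ W.R X 0) (k : ℕ) : f ^ k ∈ W.R X 0 := by
  induction k with
  | zero => rw [pow_zero]; exact R_one
  | succ k ih =>
    rw [pow_succ]
    have := R_mul ih hf
    rwa [add_zero] at this

theorem R_cast {r s : ℤ} {f : W.E X} (hf : f ∈ W.R X r) (h : r = s) : f ∈ W.R X s := h ▸ hf

theorem R_gr {r : ℤ} {f : W.E X} (hf : f ∈ W.R X r) {i m : ℕ} {y : W.H X} (hy : y ∈ W.gr X i)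
    (hm : (m : ℤ) = i + 2 * r) : f y ∈ W.gr X m :=
  Submodule.span_induction (p := fun (f : W.E X) _ => f y ∈ W.gr X m)
    (fun _ hf => W.cor_gr hf hy hm)
    (Submodule.zero_mem _) (fun _ _ _ _ h h' => Submodule.add_mem _ h h')
    (fun a _ _ h => Submodule.smul_mem _ a h) hf

theorem R_gr_zero {r : ℤ} {f : W.E X} (hf : f ∈ W.R X r) {i : ℕ} {y : W.H X} (hy : y ∈ W.gr X i)
    (hm : (i : ℤ) + 2 * r < 0) : f y = 0 :=
  Submodule.span_induction (p := fun (f : W.E X) _ => f y = 0)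
    (fun _ hf => W.cor_gr_zero hf hy hm)
    rfl (fun f g _ _ h h' => by rw [LinearMap.add_apply, h, h', add_zero])
    (fun a f _ h => by rw [LinearMap.smul_apply, h, smul_zero]) hf

/-- correspondences and projectors -/
theorem R_pi {r : ℤ} {f : W.E X} (hf : f ∈ W.R X r) {i m : ℕ} (hm : (m : ℤ) = i + 2 * r) :
    W.pi X m * f = f * W.pi X i := by
  refine W.hom_ext fun l x hx => ?_
  rw [Module.End.mul_apply, Module.End.mul_apply]
  by_cases hl : l = i
  · subst hl
    rw [W.pi_same hx, W.pi_same (R_gr hf hx hm)]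
  · rw [W.pi_ne hx hl, map_zero]
    by_cases h0 : (l : ℤ) + 2 * r < 0
    · rw [R_gr_zero hf hx h0, map_zero]
    · have h1 : f x ∈ W.gr X ((l : ℤ) + 2 * r).toNat := R_gr hf hx (by omega)
      rw [W.pi_ne h1 (by omega)]

theorem R_pi_zero {r : ℤ} {f : W.E X} (hf : f ∈ W.R X r) {m : ℕ} (hm : (m : ℤ) < 2 * r) :
    W.pi X m * f = 0 := by
  refine W.hom_ext fun l x hx => ?_
  rw [Module.End.mul_apply, LinearMap.zero_apply]
  have h1 : f x ∈ W.gr X ((l : ℤ) + 2 * r).toNat := R_gr hf hx (by omega)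
  rw [W.pi_ne h1 (by omega)]

theorem pi_mul_self (i : ℕ) : W.pi X i * W.pi X i = W.pi X i := by
  refine W.hom_ext fun l x hx => ?_
  rw [Module.End.mul_apply, W.pi_same (W.pi_mem i x)]

theorem pi_mul_ne {i j : ℕ} (h : i ≠ j) : W.pi X i * W.pi X j = 0 := by
  refine W.hom_ext fun l x hx => ?_
  rw [Module.End.mul_apply, W.pi_ne (W.pi_mem j x) h.symm]
  rfl

theorem pi_comm {f : W.E X} (hf : f ∈ W.R X 0) (i : ℕ) : W.pi X i * f = f * W.pi X i :=
  R_pi hf (by omega)

theorem one_eq_sum : (1 : W.E X) = ∑ i ∈ Finset.range (2 * W.dim X + 1), W.pi X i := by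
  ext x
  rw [Module.End.one_apply, LinearMap.sum_apply, W.sum_pi]

variable (W) in
/-- the trace -/
noncomputable def t (X : 𝒱) : W.E X →ₗ[K] K := LinearMap.trace K (W.H X)

theorem t_comm (f g : W.E X) : W.t X (f * g) = W.t X (g * f) := LinearMap.trace_mul_comm K f g

/-- operators of nonzero degree have no trace -/
theorem t_ne {r : ℤ} {f : W.E X} (hf : f ∈ W.R X r) (hr : r ≠ 0) (i : ℕ) :
    W.t X (f * W.pi X i) = 0 := by
  have h1 : W.t X (f * W.pi X i) = W.t X (W.pi X i * (f * W.pi X i)) := by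
    rw [t_comm (W.pi X i), mul_assoc, pi_mul_self]
  have h2 : W.pi X i * (f * W.pi X i) = 0 := by
    by_cases h0 : (i : ℤ) < 2 * r
    · rw [← mul_assoc, R_pi_zero hf h0, zero_mul]
    · have h3 : W.pi X i * f = f * W.pi X ((i : ℤ) - 2 * r).toNat := R_pi hf (by omega)
      rw [← mul_assoc, h3, mul_assoc, pi_mul_ne (by omega), mul_zero]
  rw [h1, h2, map_zero]

theorem t_sum (f : W.E X) :
    W.t X f = ∑ i ∈ Finset.range (2 * W.dim X + 1), W.t X (f * W.pi X i) := by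
  conv_lhs => rw [← mul_one f, one_eq_sum, Finset.mul_sum, map_sum]

theorem t_ne' {r : ℤ} {f : W.E X} (hf : f ∈ W.R X r) (hr : r ≠ 0) : W.t X f = 0 := by
  rw [t_sum]
  exact Finset.sum_eq_zero fun i _ => t_ne hf hr i

variable (W) in
/-- the ideal of numerically trivial operators -/
def N (X : 𝒱) (r : ℤ) : Submodule K (W.E X) where
  carrier := {f | f ∈ W.R X r ∧ ∀ g ∈ W.R X (-r), W.t X (g * f) = 0}
  add_mem' := fun {f g} hf hg => ⟨Submodule.add_mem _ hf.1 hg.1, fun k hk => by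
    rw [mul_add, map_add, hf.2 k hk, hg.2 k hk, add_zero]⟩
  zero_mem' := ⟨Submodule.zero_mem _, fun k _ => by rw [mul_zero, map_zero]⟩
  smul_mem' := fun a f hf => ⟨Submodule.smul_mem _ a hf.1, fun k hk => by
    rw [mul_smul_comm, map_smul, hf.2 k hk, smul_zero]⟩

theorem N_le {r : ℤ} {f : W.E X} (hf : f ∈ W.N X r) : f ∈ W.R X r := hf.1

theorem N_cast {r s : ℤ} {f : W.E X} (hf : f ∈ W.N X r) (h : r = s) : f ∈ W.N X s := h ▸ hf

theorem N_mul_left {r s : ℤ} {f g : W.E X} (hf : f ∈ W.N X r) (hg : g ∈ W.R X s) :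
    g * f ∈ W.N X (s + r) := by
  refine ⟨R_mul hg hf.1, fun k hk => ?_⟩
  rw [← mul_assoc]
  exact hf.2 _ (R_cast (R_mul hk hg) (by ring))

theorem N_mul_right {r s : ℤ} {f g : W.E X} (hf : f ∈ W.N X r) (hg : g ∈ W.R X s) :
    f * g ∈ W.N X (r + s) := by
  refine ⟨R_mul hf.1 hg, fun k hk => ?_⟩
  rw [← mul_assoc, t_comm, ← mul_assoc]
  exact hf.2 _ (R_cast (R_mul hg hk) (by ring))

theorem N_iff {r : ℤ} {f : W.E X} : f ∈ W.N X r ↔ f ∈ W.R X r ∧
    ∀ g ∈ W.R X (-r), W.t X (g * f) = 0 := Iff.rfl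

/-- numerically trivial operators of degree zero are nilpotent -/
theorem N_nilpotent {f : W.E X} (hf : f ∈ W.N X 0) : IsNilpotent f := by
  refine isNilpotent_of_trace_pow f fun m hm => ?_
  obtain ⟨m, rfl⟩ := Nat.exists_eq_succ_of_ne_zero hm.ne'
  rw [pow_succ]
  exact hf.2 _ (by rw [neg_zero]; exact R_pow hf.1 m)

theorem pow_mul_pi {f : W.E X} (hf : f ∈ W.R X 0) (i : ℕ) (k : ℕ) (hk : 0 < k) :
    (f * W.pi X i) ^ k = f ^ k * W.pi X i := by
  obtain ⟨k, rfl⟩ := Nat.exists_eq_succ_of_ne_zero hk.ne'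
  clear hk
  induction k with
  | zero => rw [pow_one, pow_one]
  | succ k ih =>
    rw [pow_succ, ih, mul_assoc, ← mul_assoc (W.pi X i) f, pi_comm hf, mul_assoc f, pi_mul_self,
      ← mul_assoc, ← pow_succ]

/-- the traces of nilpotent operators on the parts vanish -/
theorem t_nilpotent {f : W.E X} (hf : f ∈ W.R X 0) (hn : IsNilpotent f) (i : ℕ) :
    W.t X (f * W.pi X i) = 0 := by
  obtain ⟨k, hk⟩ := hn
  have h1 : IsNilpotent (f * W.pi X i) := by
    refine ⟨k + 1, ?_⟩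
    rw [pow_mul_pi hf i _ (Nat.succ_pos k), pow_succ, hk, zero_mul, zero_mul]
  exact (LinearMap.isNilpotent_trace_of_isNilpotent h1).eq_zero

theorem N_t_pi {f : W.E X} (hf : f ∈ W.N X 0) (i : ℕ) : W.t X (f * W.pi X i) = 0 :=
  t_nilpotent hf.1 (N_nilpotent hf) i

theorem not_N {r : ℤ} {f : W.E X} (hf : f ∈ W.R X r) (h : f ∉ W.N X r) :
    ∃ g ∈ W.R X (-r), W.t X (g * f) ≠ 0 := by
  by_contra hcon
  push Not at hcon
  exact h ⟨hf, hcon⟩

end WeilCohomology

end Pool.Agent.Lib.MP_4ca46c_ag.Geo
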