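import Pool.Agent.Lib.MP_4ca46c_ag.Geo.Square

/-!
# The telescoping argument
-/

set_option autoImplicit false

open CategoryTheory MonoidalCategory CartesianMonoidalCategory TensorProduct

namespace Pool.Agent.Lib.MP_4ca46c_ag.Geo

universe v u w

variable {K : Type w} [Field K] [CharZero K] {𝒱 : Type u} [Category.{v} 𝒱]
  [CartesianMonoidalCategory 𝒱]

/-- The data used in the algebraic part of the proof: the sign conjecture for `X` and a partial
inverse of the Lefschetz operator of `X × X`. -/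
structure Data (W : WeilCohomology K 𝒱) (X : 𝒱) where
  h : W.H X
  h_alg : h ∈ W.Alg X 1
  hardX : ∀ i j : ℕ, i + j = W.dim X →
    Set.BijOn (fun x => h ^ j * x) (W.gr X i) (W.gr X (i + 2 * j))
  injZ : ∀ (i : ℕ) (x : W.H (X ⊗ X)), i < W.dim (X ⊗ X) → x ∈ W.gr (X ⊗ X) i →
    (W.tm h 1 + W.tm 1 h) * x = 0 → x = 0
  surjZ : ∀ (i : ℕ) (x : W.H (X ⊗ X)), W.dim (X ⊗ X) ≤ i → x ∈ W.gr (X ⊗ X) (i + 2) →
    ∃ z ∈ W.gr (X ⊗ X) i, (W.tm h 1 + W.tm 1 h) * z = x
  sign : W.Sign X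
  w : W.H (X ⊗ X) →ₗ[K] W.H (X ⊗ X)
  w_cor : w ∈ W.Cor (X ⊗ X) (X ⊗ X) (-1)
  w_even : ∀ (i : ℕ) (x : W.H (X ⊗ X)), Even i → x ∈ W.gr (X ⊗ X) i →
    (W.tm h 1 + W.tm 1 h) * w ((W.tm h 1 + W.tm 1 h) * x) = (W.tm h 1 + W.tm 1 h) * x

namespace Data

open WeilCohomology

variable {W : WeilCohomology K 𝒱} {X : 𝒱} (D : Data W X)

/-- the Lefschetz operator of `X` -/
noncomputable def L : W.E X := LinearMap.mulLeft K D.h

/-- the Lefschetz operator of `X × X` -/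
noncomputable def HH : W.E (X ⊗ X) := LinearMap.mulLeft K (W.tm D.h 1 + W.tm 1 D.h)

include D in
theorem eps_mem : (W.eps X : W.E X) ∈ W.R X 0 := cor_le (W.sign_eps D.sign)

theorem L_mem : D.L ∈ W.R X 1 := cor_le (W.cor_mul D.h_alg)

theorem w_mem : (D.w : W.E (X ⊗ X)) ∈ W.R (X ⊗ X) (-1) := cor_le D.w_cor

theorem HH_eq : D.HH = W.tens D.L (1 : W.E X) + W.tens (1 : W.E X) D.L := by
  have h1 : D.HH = (LinearMap.mulLeft K (W.tm D.h (1 : W.H X)) : W.E (X ⊗ X)) +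
      LinearMap.mulLeft K (W.tm (1 : W.H X) D.h) := by
    refine LinearMap.ext fun x => ?_
    exact add_mul _ _ x
  rw [h1, mulLeft_fst, mulLeft_snd (d := 1) (W.alg_gr D.h_alg)]
  rfl

theorem HH_mem : D.HH ∈ W.R (X ⊗ X) 1 := by
  rw [HH_eq]
  exact Submodule.add_mem _ (R_cast (R_tens D.L_mem R_one) (by ring))
    (R_cast (R_tens R_one D.L_mem) (by ring))

theorem L_pow_mem (j : ℕ) : D.L ^ j ∈ W.R X j := by
  induction j with
  | zero => rw [pow_zero]; exact R_cast R_one (by simp)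
  | succ j ih => rw [pow_succ]; exact R_cast (R_mul ih D.L_mem) (by push_cast; ring)

theorem HH_pow_mem (j : ℕ) : D.HH ^ j ∈ W.R (X ⊗ X) j := by
  induction j with
  | zero => rw [pow_zero]; exact R_cast R_one (by simp)
  | succ j ih => rw [pow_succ]; exact R_cast (R_mul ih D.HH_mem) (by push_cast; ring)

theorem L_pow_apply (j : ℕ) (x : W.H X) : (D.L ^ j) x = D.h ^ j * x := by
  induction j generalizing x with
  | zero => rw [pow_zero, pow_zero, one_mul]; rfl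
  | succ j ih =>
    rw [pow_succ, Module.End.mul_apply, ih, pow_succ, mul_assoc]
    rfl

theorem HH_pow_apply (j : ℕ) (x : W.H (X ⊗ X)) :
    (D.HH ^ j) x = (W.tm D.h 1 + W.tm 1 D.h) ^ j * x := by
  induction j generalizing x with
  | zero => rw [pow_zero, pow_zero, one_mul]; rfl
  | succ j ih =>
    rw [pow_succ, Module.End.mul_apply, ih, pow_succ, mul_assoc]
    rfl

/-- the Lefschetz operator of `X × X` is injective below the middle -/
theorem HH_inj {i : ℕ} (hi : i < W.dim (X ⊗ X)) {x : W.H (X ⊗ X)} (hx : x ∈ W.gr (X ⊗ X) i)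
    (h0 : D.HH x = 0) : x = 0 := D.injZ i x hi hx h0

/-- the Lefschetz operator of `X × X` is surjective above the middle -/
theorem HH_surj {i : ℕ} (hi : W.dim (X ⊗ X) ≤ i) {x : W.H (X ⊗ X)}
    (hx : x ∈ W.gr (X ⊗ X) (i + 2)) : ∃ z ∈ W.gr (X ⊗ X) i, D.HH z = x := D.surjZ i x hi hx

theorem w_spec {i : ℕ} (hi : Even i) {x : W.H (X ⊗ X)} (hx : x ∈ W.gr (X ⊗ X) i) :
    D.HH (D.w (D.HH x)) = D.HH x := D.w_even i x hi hx

/-- `Σ_{a+b=r} (-1)^a h^a f ⊗ h^b f` -/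
noncomputable def Om (r : ℕ) (f : W.E X) : W.E (X ⊗ X) :=
  ∑ a ∈ Finset.range (r + 1), ((-1 : K) ^ a) • W.tens (D.L ^ a * f) (D.L ^ (r - a) * f)

/-- `Σ_{a+b=r} (-1)^a g h^a ⊗ g h^b` -/
noncomputable def Wo (r : ℕ) (g : W.E X) : W.E (X ⊗ X) :=
  ∑ a ∈ Finset.range (r + 1), ((-1 : K) ^ a) • W.tens (g * D.L ^ a) (g * D.L ^ (r - a))

theorem HH_mul_Om (r : ℕ) (f : W.E X) : D.HH * D.Om r f =
    ((-1 : K) ^ r) • W.tens (D.L ^ (r + 1) * f) f + W.tens f (D.L ^ (r + 1) * f) := by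
  have h1 : ∀ a ∈ Finset.range (r + 1),
      D.HH * (((-1 : K) ^ a) • W.tens (D.L ^ a * f) (D.L ^ (r - a) * f)) =
      (((-1 : K) ^ a) • W.tens (D.L ^ a * f) (D.L ^ (r + 1 - a) * f) : W.E (X ⊗ X)) -
      ((-1 : K) ^ (a + 1)) • W.tens (D.L ^ (a + 1) * f) (D.L ^ (r + 1 - (a + 1)) * f) := by
    intro a ha
    have ha' := Finset.mem_range.1 ha
    have e1 : (W.tens D.L (1 : W.E X) : W.E (X ⊗ X)) * W.tens (D.L ^ a * f) (D.L ^ (r - a) * f) =
        W.tens (D.L ^ (a + 1) * f) (D.L ^ (r - a) * f) := by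
      rw [← tens_mul, ← mul_assoc, ← pow_succ', one_mul]
    have e2 : (W.tens (1 : W.E X) D.L : W.E (X ⊗ X)) * W.tens (D.L ^ a * f) (D.L ^ (r - a) * f) =
        W.tens (D.L ^ a * f) (D.L ^ (r + 1 - a) * f) := by
      rw [← tens_mul, one_mul, ← mul_assoc D.L, ← pow_succ']
      congr 4
      omega
    rw [HH_eq, mul_smul_comm, add_mul, e1, e2, Nat.add_sub_add_right, pow_succ]
    module
  rw [Om, Finset.mul_sum, Finset.sum_congr rfl h1, Finset.sum_range_sub', pow_zero, pow_zero,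
    one_smul, one_mul, Nat.sub_zero, Nat.sub_self, pow_zero, one_mul, pow_succ]
  module

theorem Wo_mul_HH (r : ℕ) (g : W.E X) : D.Wo r g * D.HH =
    ((-1 : K) ^ r) • W.tens (g * D.L ^ (r + 1)) g + W.tens g (g * D.L ^ (r + 1)) := by
  have h1 : ∀ a ∈ Finset.range (r + 1),
      (((-1 : K) ^ a) • W.tens (g * D.L ^ a) (g * D.L ^ (r - a))) * D.HH =
      (((-1 : K) ^ a) • W.tens (g * D.L ^ a) (g * D.L ^ (r + 1 - a)) : W.E (X ⊗ X)) -
      ((-1 : K) ^ (a + 1)) • W.tens (g * D.L ^ (a + 1)) (g * D.L ^ (r + 1 - (a + 1))) := by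
    intro a ha
    have ha' := Finset.mem_range.1 ha
    have e1 : (W.tens (g * D.L ^ a) (g * D.L ^ (r - a)) : W.E (X ⊗ X)) *
        (W.tens D.L (1 : W.E X) : W.E (X ⊗ X)) =
        W.tens (g * D.L ^ (a + 1)) (g * D.L ^ (r - a)) := by
      rw [← tens_mul, mul_assoc, ← pow_succ, mul_one]
    have e2 : (W.tens (g * D.L ^ a) (g * D.L ^ (r - a)) : W.E (X ⊗ X)) *
        (W.tens (1 : W.E X) D.L : W.E (X ⊗ X)) =
        W.tens (g * D.L ^ a) (g * D.L ^ (r + 1 - a)) := by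
      rw [← tens_mul, mul_one, mul_assoc, ← pow_succ]
      congr 4
      omega
    rw [HH_eq, smul_mul_assoc, mul_add, e1, e2, Nat.add_sub_add_right, pow_succ]
    module
  rw [Wo, Finset.sum_mul, Finset.sum_congr rfl h1, Finset.sum_range_sub', pow_zero, pow_zero,
    one_smul, mul_one, Nat.sub_zero, Nat.sub_self, pow_zero, mul_one, pow_succ]
  module

theorem Om_mem (r : ℕ) {f : W.E X} (hf : f ∈ W.R X 0) : D.Om r f ∈ W.R (X ⊗ X) r := by
  refine Submodule.sum_mem _ fun a ha => Submodule.smul_mem _ _ ?_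
  have ha' := Finset.mem_range.1 ha
  exact R_cast (R_tens (R_mul (D.L_pow_mem a) hf) (R_mul (D.L_pow_mem (r - a)) hf)) (by
    push_cast [Nat.cast_sub (show a ≤ r by omega)]; ring)

theorem Wo_mem (r : ℕ) {g : W.E X} (hg : g ∈ W.R X (-r)) : D.Wo r g ∈ W.R (X ⊗ X) (-r) := by
  refine Submodule.sum_mem _ fun a ha => Submodule.smul_mem _ _ ?_
  have ha' := Finset.mem_range.1 ha
  exact R_cast (R_tens (R_mul hg (D.L_pow_mem a)) (R_mul hg (D.L_pow_mem (r - a)))) (by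
    push_cast [Nat.cast_sub (show a ≤ r by omega)]; ring)

theorem HH_Om_N (r : ℕ) {f : W.E X} (hf : f ∈ W.R X 0) (h : D.L ^ (r + 1) * f ∈ W.N X (r + 1)) :
    D.HH * D.Om r f ∈ W.N (X ⊗ X) (r + 1) := by
  rw [HH_mul_Om]
  exact Submodule.add_mem _ (Submodule.smul_mem _ _ (N_cast (N_tens D.eps_mem h hf) (by ring)))
    (N_cast (N_tens' D.eps_mem h hf) (by ring))

theorem Wo_HH_N (r : ℕ) {g : W.E X} (hg : g ∈ W.R X (-r)) (h : g * D.L ^ (r + 1) ∈ W.N X 1) :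
    D.Wo r g * D.HH ∈ W.N (X ⊗ X) (1 - r) := by
  rw [Wo_mul_HH]
  exact Submodule.add_mem _ (Submodule.smul_mem _ _ (N_cast (N_tens D.eps_mem h hg) (by ring)))
    (N_cast (N_tens' D.eps_mem h hg) (by ring))

/-- the trace of `Wo * Om` on the even parts of `X × X` vanishes away from one degree -/
theorem t_Wo_Om (r : ℕ) {f g : W.E X} (hf : f ∈ W.R X 0) (hg : g ∈ W.R X (-r))
    (hfN : D.L ^ (r + 1) * f ∈ W.N X (r + 1)) (hgN : g * D.L ^ (r + 1) ∈ W.N X 1)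
    {c : ℕ} (hc : Even c) (hcr : c + 2 * r ≠ W.dim (X ⊗ X)) :
    W.t (X ⊗ X) (D.Wo r g * D.Om r f * W.pi (X ⊗ X) c) = 0 := by
  have hE : Even (c + 2 * r) := hc.add (even_two_mul r)
  have hOm : ∀ x ∈ W.gr (X ⊗ X) c, D.Om r f x ∈ W.gr (X ⊗ X) (c + 2 * r) :=
    fun x hx => R_gr (D.Om_mem r hf) hx (by push_cast; ring)
  rcases Nat.lt_or_gt_of_ne hcr with h1 | h1
  · -- below the middle
    have e1 : D.Om r f * W.pi (X ⊗ X) c = (D.w : W.E (X ⊗ X)) * D.HH * D.Om r f *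
        W.pi (X ⊗ X) c := by
      refine LinearMap.ext fun x => ?_
      simp only [Module.End.mul_apply]
      have h2 := hOm _ (W.pi_mem c x)
      rw [← sub_eq_zero]
      refine D.HH_inj h1 (Submodule.sub_mem _ h2 ?_) ?_
      · have h3 := R_gr D.HH_mem h2 (m := c + 2 * r + 2) (by push_cast; ring)
        exact R_gr D.w_mem h3 (by push_cast; ring)
      · rw [map_sub, D.w_spec hE h2, sub_self]
    rw [mul_assoc, e1]
    have e2 : D.Wo r g * ((D.w : W.E (X ⊗ X)) * D.HH * D.Om r f * W.pi (X ⊗ X) c) =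
        D.Wo r g * (D.w : W.E (X ⊗ X)) * (D.HH * D.Om r f) * W.pi (X ⊗ X) c := by
      simp only [mul_assoc]
    rw [e2]
    exact N_t_pi (N_cast (N_mul_left (D.HH_Om_N r hf hfN)
      (R_mul (D.Wo_mem r hg) D.w_mem)) (by ring)) c
  · -- above the middle
    have e1 : D.Om r f * W.pi (X ⊗ X) c = D.HH * (D.w : W.E (X ⊗ X)) * D.Om r f *
        W.pi (X ⊗ X) c := by
      refine LinearMap.ext fun x => ?_
      simp only [Module.End.mul_apply]
      have h2 := hOm _ (W.pi_mem c x)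
      have hdim : W.dim (X ⊗ X) = 2 * W.dim X := by rw [W.dim_tensor]; ring
      obtain ⟨m, hm⟩ : ∃ m, c + 2 * r = m + 2 :=
        ⟨c + 2 * r - 2, by obtain ⟨k, hk⟩ := hE; omega⟩
      rw [hm] at h2 hE h1
      have hEm : Even m := by
        rw [Nat.even_add] at hE
        exact hE.2 (by decide)
      have hle : W.dim (X ⊗ X) ≤ m := by
        rcases hEm with ⟨k, hk⟩
        omega
      obtain ⟨z, hz, hz1⟩ := D.HH_surj hle h2
      rw [← hz1, D.w_spec hEm hz]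
    rw [mul_assoc, e1]
    have e2 : D.Wo r g * (D.HH * (D.w : W.E (X ⊗ X)) * D.Om r f * W.pi (X ⊗ X) c) =
        (D.Wo r g * D.HH) * ((D.w : W.E (X ⊗ X)) * D.Om r f) * W.pi (X ⊗ X) c := by
      simp only [mul_assoc]
    rw [e2]
    exact N_t_pi (N_cast (N_mul_right (D.Wo_HH_N r hg hgN)
      (R_mul D.w_mem (D.Om_mem r hf))) (by ring)) c

/-- the trace of `Wo * Om` in terms of the traces of `g h^r f` -/
theorem t_Wo_Om_eq (r : ℕ) {f g : W.E X} (hf : f ∈ W.R X 0) (hg : g ∈ W.R X (-r)) (c : ℕ) :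
    W.t (X ⊗ X) (D.Wo r g * D.Om r f * W.pi (X ⊗ X) c) =
      ((-1 : K) ^ r * (r + 1)) * ∑ p ∈ Finset.HasAntidiagonal.antidiagonal c,
        W.t X (g * D.L ^ r * f * W.pi X p.1) * W.t X (g * D.L ^ r * f * W.pi X p.2) := by
  have h1 : ∀ a ∈ Finset.range (r + 1), ∀ b ∈ Finset.range (r + 1), a + b ≠ r →
      ∀ p : ℕ × ℕ, W.t (X ⊗ X) (W.tens (g * D.L ^ a) (g * D.L ^ (r - a)) *
        W.tens (D.L ^ b * f) (D.L ^ (r - b) * f) * W.tens (W.pi X p.1) (W.pi X p.2)) = 0 := by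
    intro a ha b hb hab p
    rw [← tens_mul, ← tens_mul]
    have h2 : ∀ u v : W.E X, W.t (X ⊗ X) (W.tens u v) = W.t X u * W.t X v :=
      fun u v => W.trace_tens u v
    rw [h2]
    have h3 : W.t X (g * D.L ^ a * (D.L ^ b * f) * W.pi X p.1) = 0 := by
      refine t_ne (R_mul (R_mul hg (D.L_pow_mem a)) (R_mul (D.L_pow_mem b) hf)) ?_ _
      omega
    rw [h3, zero_mul]
  have h4 : ∀ a ∈ Finset.range (r + 1), ∀ p : ℕ × ℕ,
      W.t (X ⊗ X) (W.tens (g * D.L ^ a) (g * D.L ^ (r - a)) *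
        W.tens (D.L ^ (r - a) * f) (D.L ^ (r - (r - a)) * f) *
        W.tens (W.pi X p.1) (W.pi X p.2)) =
      W.t X (g * D.L ^ r * f * W.pi X p.1) * W.t X (g * D.L ^ r * f * W.pi X p.2) := by
    intro a ha p
    have ha' := Finset.mem_range.1 ha
    rw [← tens_mul, ← tens_mul]
    have h2 : ∀ u v : W.E X, W.t (X ⊗ X) (W.tens u v) = W.t X u * W.t X v :=
      fun u v => W.trace_tens u v
    rw [h2]
    have e1 : g * D.L ^ a * (D.L ^ (r - a) * f) = g * D.L ^ r * f := by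
      rw [← mul_assoc, mul_assoc g, ← pow_add]
      congr 3
      omega
    have e2 : g * D.L ^ (r - a) * (D.L ^ (r - (r - a)) * f) = g * D.L ^ r * f := by
      rw [← mul_assoc, mul_assoc g, ← pow_add]
      congr 3
      omega
    rw [e1, e2]
  have h5 : ∀ a ∈ Finset.range (r + 1),
      W.t (X ⊗ X) ((((-1 : K) ^ a) • W.tens (g * D.L ^ a) (g * D.L ^ (r - a))) *
        D.Om r f * W.pi (X ⊗ X) c) = ((-1 : K) ^ r) *
          ∑ p ∈ Finset.HasAntidiagonal.antidiagonal c,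
        W.t X (g * D.L ^ r * f * W.pi X p.1) * W.t X (g * D.L ^ r * f * W.pi X p.2) := by
    intro a ha
    have ha' := Finset.mem_range.1 ha
    rw [Om, Finset.mul_sum, Finset.sum_mul, map_sum,
      Finset.sum_eq_single_of_mem (r - a) (Finset.mem_range.2 (by omega))]
    · rw [smul_mul_smul_comm, ← pow_add, smul_mul_assoc, map_smul, smul_eq_mul,
        Nat.add_sub_cancel' (by omega), pi_tens, Finset.mul_sum, map_sum]
      congr 1
      exact Finset.sum_congr rfl fun p _ => h4 a ha p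
    · intro b hb hne
      rw [smul_mul_smul_comm, smul_mul_assoc, map_smul, pi_tens, Finset.mul_sum, map_sum,
        Finset.sum_eq_zero fun p _ => h1 a ha b hb (by omega) p, smul_zero]
  rw [Wo, Finset.sum_mul, Finset.sum_mul, map_sum, Finset.sum_congr rfl h5, Finset.sum_const,
    Finset.card_range, nsmul_eq_mul]
  push_cast
  ring

end Data

end Pool.Agent.Lib.MP_4ca46c_ag.Geo
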