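import Pool.Agent.Lib.MP_4ca46c_ag.Geo.LemmaQ

/-!
# Lemma Q
-/

set_option autoImplicit false

open CategoryTheory MonoidalCategory CartesianMonoidalCategory TensorProduct

namespace Pool.Agent.Lib.MP_4ca46c_ag.Geo

universe v u w

/-- a sequence whose square (as a polynomial) is concentrated in one degree -/
theorem seq_of_square {K : Type*} [Field K] (N : ℕ) (t : ℕ → K) (ht : ∀ l, N < l → t l = 0)
    (m r : ℕ) (h : ∀ c, c + 2 * r ≠ 2 * m →
      ∑ p ∈ Finset.HasAntidiagonal.antidiagonal c, t p.1 * t p.2 = 0)
    {j : ℕ} (hj : j + r ≠ m) : t j = 0 := by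
  set T : Polynomial K := ∑ l ∈ Finset.range (N + 1), Polynomial.monomial l (t l) with hT
  have hco : ∀ l, T.coeff l = t l := by
    intro l
    rw [hT, Polynomial.finsetSum_coeff]
    by_cases hl : l ≤ N
    · rw [Finset.sum_eq_single_of_mem l (Finset.mem_range.2 (by omega))
        fun k _ hk => Polynomial.coeff_monomial_of_ne _ (Ne.symm hk), Polynomial.coeff_monomial_same]
    · rw [ht l (by omega), Finset.sum_eq_zero]
      intro k hk
      have := Finset.mem_range.1 hk
      exact Polynomial.coeff_monomial_of_ne _ (by omega)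
  have hsq : ∀ c, c + 2 * r ≠ 2 * m → (T * T).coeff c = 0 := by
    intro c hc
    rw [Polynomial.coeff_mul, ← h c hc]
    exact Finset.sum_congr rfl fun p _ => by rw [hco, hco]
  by_contra hne
  have hT0 : T ≠ 0 := by
    rintro h0
    rw [← hco, h0, Polynomial.coeff_zero] at hne
    exact hne rfl
  have h1 : 2 * T.natDegree + 2 * r = 2 * m := by
    by_contra hcon
    have h2 := hsq (T.natDegree + T.natDegree) (by omega)
    rw [Polynomial.coeff_mul_degree_add_degree] at h2
    exact mul_ne_zero (Polynomial.leadingCoeff_ne_zero.2 hT0)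
      (Polynomial.leadingCoeff_ne_zero.2 hT0) h2
  have h3 : 2 * T.natTrailingDegree + 2 * r = 2 * m := by
    by_contra hcon
    have h2 := hsq (T.natTrailingDegree + T.natTrailingDegree) (by omega)
    rw [Polynomial.coeff_mul_natTrailingDegree_add_natTrailingDegree] at h2
    exact mul_ne_zero (Polynomial.trailingCoeff_nonzero_iff_nonzero.2 hT0)
      (Polynomial.trailingCoeff_nonzero_iff_nonzero.2 hT0) h2
  have h4 : T.coeff j ≠ 0 := by rwa [hco]
  have h5 := Polynomial.le_natDegree_of_ne_zero h4
  have h6 := Polynomial.natTrailingDegree_le_of_ne_zero h4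
  omega

variable {K : Type w} [Field K] [CharZero K] {𝒱 : Type u} [Category.{v} 𝒱]
  [CartesianMonoidalCategory 𝒱]

namespace Data

open WeilCohomology

variable {W : WeilCohomology K 𝒱} {X : 𝒱} (D : Data W X)

/-- the parity projector -/
noncomputable def par (W : WeilCohomology K 𝒱) (X : 𝒱) (s : ℕ) : W.E X :=
  (2⁻¹ : K) • ((1 : W.E X) + ((-1 : K) ^ s) • (W.eps X : W.E X))

include D in
theorem par_mem (s : ℕ) : par W X s ∈ W.R X 0 :=
  Submodule.smul_mem _ _ (Submodule.add_mem _ R_one (Submodule.smul_mem _ _ D.eps_mem))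

theorem par_same {s l : ℕ} (h : Even (s + l)) : par W X s * W.pi X l = W.pi X l := by
  refine LinearMap.ext fun x => ?_
  rw [Module.End.mul_apply, par, LinearMap.smul_apply, LinearMap.add_apply, LinearMap.smul_apply,
    W.eps_gr (W.pi_mem l x), smul_smul, ← pow_add, h.neg_one_pow, one_smul, Module.End.one_apply,
    ← two_smul K, smul_smul, inv_mul_cancel₀ two_ne_zero, one_smul]

theorem par_ne {s l : ℕ} (h : Odd (s + l)) : par W X s * W.pi X l = 0 := by
  refine LinearMap.ext fun x => ?_
  rw [Module.End.mul_apply, par, LinearMap.smul_apply, LinearMap.add_apply, LinearMap.smul_apply,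
    W.eps_gr (W.pi_mem l x), smul_smul, ← pow_add, h.neg_one_pow, Module.End.one_apply,
    neg_one_smul, add_neg_cancel, smul_zero, LinearMap.zero_apply]

/-- Lemma Q -/
theorem lemmaQ (r : ℕ) {f g : W.E X} (hf : f ∈ W.R X 0) (hg : g ∈ W.R X (-r))
    (hfN : D.L ^ (r + 1) * f ∈ W.N X (r + 1)) (hgN : g * D.L ^ (r + 1) ∈ W.N X 1)
    {j : ℕ} (hj : j + r ≠ W.dim X) : W.t X (g * D.L ^ r * f * W.pi X j) = 0 := by
  have hf' : f * par W X j ∈ W.R X 0 := R_cast (R_mul hf (D.par_mem j)) (by ring)
  have hfN' : D.L ^ (r + 1) * (f * par W X j) ∈ W.N X (r + 1) := by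
    rw [← mul_assoc]
    exact N_cast (N_mul_right hfN (D.par_mem j)) (by ring)
  have hval : ∀ l, Odd (j + l) → W.t X (g * D.L ^ r * (f * par W X j) * W.pi X l) = 0 := by
    intro l hl
    rw [mul_assoc, mul_assoc f, par_ne hl, mul_zero, mul_zero, map_zero]
  have h1 := seq_of_square (2 * W.dim X)
    (fun l => W.t X (g * D.L ^ r * (f * par W X j) * W.pi X l)) (fun l hl => by
      have h0 : W.pi X l = 0 := by
        ext x
        exact W.pi_top hl x
      show W.t X (_ * W.pi X l) = 0
      rw [h0, mul_zero, map_zero]) (W.dim X) r (fun c hc => ?_) hj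
  · rw [← h1]
    show _ = W.t X (g * D.L ^ r * (f * par W X j) * W.pi X j)
    rw [mul_assoc (g * D.L ^ r), mul_assoc (g * D.L ^ r), mul_assoc f, par_same ⟨j, rfl⟩]
  · rcases Nat.even_or_odd c with hce | hco
    · have h2 := D.t_Wo_Om r hf' hg hfN' hgN hce (by rw [W.dim_tensor]; omega)
      rw [D.t_Wo_Om_eq r hf' hg] at h2
      rcases mul_eq_zero.1 h2 with h3 | h3
      · exfalso
        rcases mul_eq_zero.1 h3 with h4 | h4
        · exact pow_ne_zero _ (neg_ne_zero.2 one_ne_zero) h4
        · have h5 : ((r + 1 : ℕ) : K) = 0 := by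
            push_cast
            exact h4
          exact Nat.cast_ne_zero.2 (Nat.succ_ne_zero r) h5
      · exact h3
    · refine Finset.sum_eq_zero fun p hp => ?_
      rw [Finset.HasAntidiagonal.mem_antidiagonal] at hp
      by_cases h2 : Odd (j + p.1)
      · rw [hval _ h2, zero_mul]
      · have h3 : Odd (j + p.2) := by
          rw [Nat.not_odd_iff_even] at h2
          rw [← hp] at hco
          rcases Nat.even_or_odd j with hj1 | hj1
          · have h4 : Even p.1 := (Nat.even_add.1 h2).1 hj1
            have h5 : Odd p.2 := by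
              rw [← Nat.not_even_iff_odd] at hco ⊢
              exact fun h6 => hco (h4.add h6)
            exact hj1.add_odd h5
          · have h4 : Odd p.1 := by
              rw [← Nat.not_even_iff_odd] at hj1 ⊢
              exact fun h6 => hj1 ((Nat.even_add.1 h2).2 h6)
            have h5 : Even p.2 := by
              by_contra h6
              rw [Nat.not_even_iff_odd] at h6
              rw [← Nat.not_even_iff_odd] at hco
              exact hco (h4.add_odd h6)
            exact hj1.add_even h5
        rw [hval _ h3, mul_zero]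

end Data

end Pool.Agent.Lib.MP_4ca46c_ag.Geo
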