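import Pool.Agent.Lib.MP_4ca46c_ag.Geo.Six

/-!
# The conjectures C and B for `X`
-/

set_option autoImplicit false

open CategoryTheory MonoidalCategory CartesianMonoidalCategory TensorProduct

namespace Pool.Agent.Lib.MP_4ca46c_ag.Geo

universe v u w

variable {K : Type w} [Field K] [CharZero K] {𝒱 : Type u} [Category.{v} 𝒱]
  [CartesianMonoidalCategory 𝒱]

open WeilCohomology

variable {W : WeilCohomology K 𝒱} {X : 𝒱}

/-- cutting off the outer degrees -/
theorem cut_mem {i j : ℕ} (hij : i + j = W.dim X) {h : W.H X} (hh : h ∈ W.Alg X 1)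
    (hpi : ∀ k < i, W.pi X k ∈ W.Cor X X 0 ∧ W.pi X (2 * W.dim X - k) ∈ W.Cor X X 0) :
    (LinearMap.mulLeft K h : W.E X) ^ j * W.pi X i ∈ W.Cor X X j := by
  have hP : (1 - ∑ k ∈ Finset.range i, W.pi X k : W.E X) ∈ W.Cor X X 0 :=
    AddSubgroup.sub_mem _ A_one (AddSubgroup.sum_mem _ fun k hk =>
      (hpi k (Finset.mem_range.1 hk)).1)
  have hQ : (1 - ∑ k ∈ Finset.range i, W.pi X (2 * W.dim X - k) : W.E X) ∈ W.Cor X X 0 :=
    AddSubgroup.sub_mem _ A_one (AddSubgroup.sum_mem _ fun k hk =>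
      (hpi k (Finset.mem_range.1 hk)).2)
  have hPv : ∀ l : ℕ, (1 - ∑ k ∈ Finset.range i, W.pi X k : W.E X) * W.pi X l =
      if l < i then 0 else W.pi X l := by
    intro l
    rw [sub_mul, one_mul, Finset.sum_mul]
    split_ifs with hl
    · rw [Finset.sum_eq_single_of_mem l (Finset.mem_range.2 hl) fun k _ hk => pi_mul_ne hk,
        pi_mul_self, sub_self]
    · rw [Finset.sum_eq_zero fun k hk => pi_mul_ne (by
        have := Finset.mem_range.1 hk; omega), sub_zero]
  have hQv : ∀ l : ℕ, l ≤ 2 * W.dim X →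
      (1 - ∑ k ∈ Finset.range i, W.pi X (2 * W.dim X - k) : W.E X) * W.pi X l =
      if 2 * W.dim X - i < l then 0 else W.pi X l := by
    intro l hl2
    rw [sub_mul, one_mul, Finset.sum_mul]
    split_ifs with hl
    · rw [Finset.sum_eq_single_of_mem (2 * W.dim X - l) (Finset.mem_range.2 (by omega))
        fun k hk1 hk => pi_mul_ne (by have := Finset.mem_range.1 hk1; omega)]
      have h1 : 2 * W.dim X - (2 * W.dim X - l) = l := by omega
      rw [h1, pi_mul_self, sub_self]
    · rw [Finset.sum_eq_zero fun k hk => pi_mul_ne (by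
        have := Finset.mem_range.1 hk; omega), sub_zero]
  have hLR : (LinearMap.mulLeft K h : W.E X) ^ j ∈ W.R X j := cor_le (A_L_pow hh j)
  have key : (LinearMap.mulLeft K h : W.E X) ^ j * W.pi X i =
      (1 - ∑ k ∈ Finset.range i, W.pi X (2 * W.dim X - k) : W.E X) *
      ((LinearMap.mulLeft K h : W.E X) ^ j * (1 - ∑ k ∈ Finset.range i, W.pi X k : W.E X)) := by
    have h1 : ∀ l : ℕ, (1 - ∑ k ∈ Finset.range i, W.pi X (2 * W.dim X - k) : W.E X) *
        ((LinearMap.mulLeft K h : W.E X) ^ j * (1 - ∑ k ∈ Finset.range i, W.pi X k : W.E X)) *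
        W.pi X l = (LinearMap.mulLeft K h : W.E X) ^ j * W.pi X i * W.pi X l := by
      intro l
      rw [mul_assoc, mul_assoc, hPv]
      rcases lt_trichotomy l i with hl | hl | hl
      · rw [if_pos hl, mul_zero, mul_zero, mul_assoc, pi_mul_ne (by omega), mul_zero]
      · subst hl
        have h2 : (LinearMap.mulLeft K h : W.E X) ^ j * W.pi X l =
            W.pi X (l + 2 * j) * ((LinearMap.mulLeft K h : W.E X) ^ j * W.pi X l) := by
          have h3 : W.pi X (l + 2 * j) * (LinearMap.mulLeft K h : W.E X) ^ j =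
            (LinearMap.mulLeft K h : W.E X) ^ j * W.pi X l := R_pi hLR (by push_cast; ring)
          rw [← mul_assoc, h3, mul_assoc, pi_mul_self]
        rw [if_neg (lt_irrefl _), h2, ← mul_assoc, hQv _ (by omega), if_neg (by omega), ← h2,
          mul_assoc, pi_mul_self]
      · have h2 : (LinearMap.mulLeft K h : W.E X) ^ j * W.pi X l =
            W.pi X (l + 2 * j) * ((LinearMap.mulLeft K h : W.E X) ^ j * W.pi X l) := by
          have h3 : W.pi X (l + 2 * j) * (LinearMap.mulLeft K h : W.E X) ^ j =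
            (LinearMap.mulLeft K h : W.E X) ^ j * W.pi X l := R_pi hLR (by push_cast; ring)
          rw [← mul_assoc, h3, mul_assoc, pi_mul_self]
        rw [if_neg (by omega), mul_assoc _ (W.pi X i : W.E X), pi_mul_ne (by omega), mul_zero]
        by_cases hl2 : l + 2 * j ≤ 2 * W.dim X
        · rw [h2, ← mul_assoc, hQv _ hl2, if_pos (by omega), zero_mul]
        · have h0 : W.pi X (l + 2 * j) = 0 := by
            ext x
            exact W.pi_top (by omega) x
          rw [h2, h0, zero_mul, mul_zero]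
    refine W.hom_ext fun l x hx => ?_
    have h2 := LinearMap.congr_fun (h1 l) x
    rw [Module.End.mul_apply, Module.End.mul_apply _ (W.pi X l : W.E X), W.pi_same hx] at h2
    exact h2.symm
  rw [key]
  exact A_cast (A_mul hQ (A_mul (A_L_pow hh j) hP)) (by ring)

/-- the upper projector -/
theorem top_mem {i j : ℕ} (hij : i + j = W.dim X) {h : W.H X}
    (hard : Set.BijOn (fun x => h ^ j * x) (W.gr X i) (W.gr X (i + 2 * j)))
    (hT : (LinearMap.mulLeft K h : W.E X) ^ j * W.pi X i ∈ W.Cor X X j)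
    {θ : W.E X} (hθ : θ ∈ W.Cor X X (-j))
    (hθ1 : θ * ((LinearMap.mulLeft K h : W.E X) ^ j * W.pi X i) = W.pi X i) :
    W.pi X (2 * W.dim X - i) ∈ W.Cor X X 0 := by
  have hLa : ∀ (j : ℕ) (x : W.H X), ((LinearMap.mulLeft K h : W.E X) ^ j) x = h ^ j * x := by
    intro j
    induction j with
    | zero => intro x; rw [pow_zero, pow_zero, one_mul]; rfl
    | succ j ih =>
      intro x
      rw [pow_succ, Module.End.mul_apply, ih, pow_succ, mul_assoc]
      rfl
  have e1 : 2 * W.dim X - i = i + 2 * j := by omega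
  have key : W.pi X (i + 2 * j) = (LinearMap.mulLeft K h : W.E X) ^ j * W.pi X i * θ := by
    refine W.hom_ext fun l x hx => ?_
    rw [Module.End.mul_apply, Module.End.mul_apply, hLa]
    by_cases hl : l = i + 2 * j
    · subst hl
      obtain ⟨y, hy, rfl⟩ := hard.2.2 hx
      have h2 := LinearMap.congr_fun hθ1 y
      rw [Module.End.mul_apply, Module.End.mul_apply, W.pi_same hy, hLa] at h2
      show _ = h ^ j * W.pi X i (θ (h ^ j * y))
      rw [h2, W.pi_same hy, W.pi_same hx]
    · rw [W.pi_ne hx hl]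
      by_cases hl2 : 2 * j ≤ l
      · have h4 : θ x ∈ W.gr X (l - 2 * j) := W.cor_gr hθ hx (by omega)
        rw [W.pi_ne h4 (by omega), mul_zero]
      · rw [W.cor_gr_zero hθ hx (by omega), map_zero, mul_zero]
  rw [e1, key]
  exact A_cast (A_mul hT hθ) (by ring)

namespace Data

variable (D : Data W X)

include D in
theorem main_ind : ∀ i : ℕ, i ≤ W.dim X → W.pi X i ∈ W.Cor X X 0 ∧
    W.pi X (2 * W.dim X - i) ∈ W.Cor X X 0 ∧ ∀ j : ℕ, i + j = W.dim X →
      ∃ θ ∈ W.Cor X X (-j), θ * (D.L ^ j * W.pi X i) = W.pi X i := by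
  intro i
  induction i using Nat.strong_induction_on with
  | _ i ih =>
    intro hi
    obtain ⟨j, hj⟩ : ∃ j, i + j = W.dim X := ⟨W.dim X - i, by omega⟩
    have hT := cut_mem hj D.h_alg fun k hk => ⟨(ih k hk (by omega)).1, (ih k hk (by omega)).2.1⟩
    obtain ⟨g, hg, hg1⟩ := D.exists_theta hj
    have hTi : (LinearMap.mulLeft K D.h : W.E X) ^ j * W.pi X i * W.pi X i =
        (LinearMap.mulLeft K D.h : W.E X) ^ j * W.pi X i := by
      rw [mul_assoc, pi_mul_self]
    have hgT : g * ((LinearMap.mulLeft K D.h : W.E X) ^ j * W.pi X i) = W.pi X i := by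
      rw [← mul_assoc]
      exact hg1
    obtain ⟨h1, θ, hθ, hθ1⟩ := descend hT hTi hg hgT
    refine ⟨h1, top_mem hj (D.hardX i j hj) hT hθ hθ1, fun j' hj' => ?_⟩
    have hjj : j' = j := by omega
    subst hjj
    exact ⟨θ, hθ, hθ1⟩

include D in
/-- conjecture C for `X` -/
theorem kunneth : W.Kunneth X := by
  rw [W.kunneth_iff]
  intro i
  by_cases hi : i ≤ W.dim X
  · exact (D.main_ind i hi).1
  · by_cases hi2 : i ≤ 2 * W.dim X
    · have h1 := (D.main_ind (2 * W.dim X - i) (by omega)).2.1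
      have h2 : 2 * W.dim X - (2 * W.dim X - i) = i := by omega
      rwa [h2] at h1
    · have h0 : W.pi X i = 0 := by
        ext x
        exact W.pi_top (by omega) x
      rw [h0]
      exact AddSubgroup.zero_mem _

/-- conjecture B for `X` -/
theorem lefschetz : W.Lefschetz X D.h := by
  rw [W.lefschetz_iff]
  intro i j hij
  obtain ⟨θ, hθ, h1⟩ := (D.main_ind i (by omega)).2.2 j hij
  refine ⟨θ, hθ, fun x hx => ?_⟩
  have h2 := LinearMap.congr_fun h1 x
  rw [Module.End.mul_apply, Module.End.mul_apply, W.pi_same hx, D.L_pow_apply] at h2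
  exact h2

end Data

end Pool.Agent.Lib.MP_4ca46c_ag.Geo
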